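import Mathlib

set_option autoImplicit false
open MeasureTheory ProbabilityTheory Filter Topology

namespace Pool.Agent.H96.PCA

/-- sites -/
abbrev Z1 : Type := Fin 1 → ℤ
/-- a cell: particle type (0 empty, 1 the K type, 2 the L type) and a bit -/
abbrev Cell : Type := Fin 3 × Bool
/-- configurations -/
abbrev Conf : Type := Z1 → Cell

/-- the site with coordinate `i` -/
def c (i : ℤ) : Z1 := fun _ => i

lemma c_add (i j : ℤ) : c i + c j = c (i + j) := rfl

lemma eq_c (k : Z1) : k = c (k 0) := by
  funext i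
  fin_cases i
  rfl

/-- local rule for the particle part, `a` left neighbour, `b` centre, `d` right neighbour -/
def rule (a b d : Cell) : Fin 3 :=
  if (b.1 ≠ 0 ∧ b.2 = false) ∨ (a.1 ≠ 0 ∧ a.2 = true) then 1
  else if b.1 = 0 ∧ d.1 = 2 then 2 else 0

/-- the neighbourhood -/
def N : Finset Z1 := {c (-1), c 0, c 1}

lemma memN1 : c (-1) ∈ N := by simp [N]
lemma memN2 : c 0 ∈ N := by simp [N]
lemma memN3 : c 1 ∈ N := by simp [N]

/-- particle part of the local rule -/
def G (u : ↥N → Cell) : Fin 3 := rule (u ⟨c (-1), memN1⟩) (u ⟨c 0, memN2⟩) (u ⟨c 1, memN3⟩)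

/-- fair coin -/
noncomputable def coin : Measure Bool := (PMF.uniformOfFintype Bool).toMeasure

instance : IsProbabilityMeasure coin := by
  unfold coin; infer_instance

lemma coin_singleton (b : Bool) : coin {b} = 2⁻¹ := by
  unfold coin
  rw [PMF.toMeasure_apply_singleton _ _ (measurableSet_singleton b)]
  simp

/-- particle part of the global rule -/
def F (x : Conf) (k : Z1) : Fin 3 := rule (x (k + c (-1))) (x (k + c 0)) (x (k + c 1))

lemma F_c (x : Conf) (i : ℤ) : F x (c i) = rule (x (c (i-1))) (x (c i)) (x (c (i+1))) := by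
  unfold F
  rw [c_add, c_add, c_add]
  simp [sub_eq_add_neg]

lemma measurable_F (k : Z1) : Measurable (fun x : Conf => F x k) := by
  have h1 : Measurable (fun t : Cell × Cell × Cell => rule t.1 t.2.1 t.2.2) :=
    Measurable.of_discrete
  have h2 : Measurable (fun x : Conf => (x (k + c (-1)), x (k + c 0), x (k + c 1))) := by
    fun_prop
  exact h1.comp h2

/-- law of a cell given the particle part -/
lemma meas_pair (s : Fin 3) : Measurable (fun b : Bool => (s, b)) := Measurable.of_discrete

/-- local rule of the automaton -/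
noncomputable def f (u : ↥N → Cell) : ProbabilityMeasure Cell :=
  ⟨coin.map (fun b => (G u, b)), Measure.isProbabilityMeasure_map (meas_pair _).aemeasurable⟩

/-- law of the bits -/
noncomputable def P : Measure (Z1 → Bool) := Measure.infinitePi (fun _ => coin)

instance : IsProbabilityMeasure P := by unfold P; infer_instance

/-- put together particle part and bits -/
def glue (p : Conf × (Z1 → Bool)) : Conf := fun k => (F p.1 k, p.2 k)

lemma measurable_glue : Measurable glue := by
  refine measurable_pi_iff.mpr fun k => ?_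
  exact ((measurable_F k).comp measurable_fst).prodMk ((measurable_pi_apply k).comp measurable_snd)

/-- the kernel of the automaton -/
noncomputable def κ : Kernel Conf Conf :=
  (Kernel.id ×ₖ Kernel.const _ P).map glue

lemma κ_apply' (x : Conf) : κ x = P.map (fun b => glue (x, b)) := by
  unfold κ
  rw [Kernel.map_apply _ measurable_glue, Kernel.prod_apply, Kernel.id_apply, Kernel.const_apply,
    Measure.dirac_prod, Measure.map_map measurable_glue measurable_prodMk_left]
  rfl

lemma κ_eq (x : Conf) : κ x = Measure.infinitePi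
        (fun k : Z1 => ((f (fun v : ↥N => x (k + (v : Z1)))) : Measure Cell)) := by
  rw [κ_apply']
  have := Measure.infinitePi_map_pi (ι := Z1) (X := fun _ => Bool) (fun _ => coin)
    (f := fun k b => (F x k, b)) (fun k => meas_pair _)
  exact this

instance : IsMarkovKernel κ := by
  unfold κ
  exact Kernel.IsMarkovKernel.map _ measurable_glue

lemma κ_apply (x : Conf) {E : Set Conf} (hE : MeasurableSet E) :
    κ x E = P {b | glue (x, b) ∈ E} := by
  have hm : Measurable (fun b : Z1 → Bool => glue (x, b)) :=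
    measurable_glue.comp measurable_prodMk_left
  rw [κ_apply', Measure.map_apply hm hE]
  rfl

/-! ### deterministic facts about the rule -/

lemma F_eq_one {x : Conf} {i : ℤ}
    (h : ((x (c i)).1 ≠ 0 ∧ (x (c i)).2 = false) ∨ ((x (c (i-1))).1 ≠ 0 ∧ (x (c (i-1))).2 = true)) :
    F x (c i) = 1 := by
  rw [F_c]; unfold rule
  rw [if_pos h]

lemma F_eq_two {x : Conf} {i : ℤ} (h : F x (c i) = 2) :
    (x (c i)).1 = 0 ∧ (x (c (i+1))).1 = 2 ∧ ¬ ((x (c (i-1))).1 ≠ 0 ∧ (x (c (i-1))).2 = true) := by
  rw [F_c] at h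
  unfold rule at h
  split_ifs at h with h1 h2
  · exact absurd h (by decide)
  · push Not at h1
    refine ⟨h2.1, h2.2, ?_⟩
    rintro ⟨h3, h4⟩
    exact h1.2 h3 h4
  · exact absurd h (by decide)

lemma F_ne_zero {x : Conf} {i : ℤ} (h : F x (c i) ≠ 0) :
    ((x (c i)).1 ≠ 0 ∧ (x (c i)).2 = false) ∨ ((x (c (i-1))).1 ≠ 0 ∧ (x (c (i-1))).2 = true)
    ∨ ((x (c i)).1 = 0 ∧ (x (c (i+1))).1 = 2) := by
  rw [F_c] at h
  unfold rule at h
  split_ifs at h with h1 h2
  · rcases h1 with h1 | h1
    · exact Or.inl h1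
    · exact Or.inr (Or.inl h1)
  · exact Or.inr (Or.inr h2)
  · exact absurd rfl h

/-- `L` at `y + j` and nothing on `[y, y+j)` -/
def E (y : ℤ) (j : ℕ) : Set Conf :=
  {x | (x (c (y+j))).1 = 2 ∧ ∀ i, y ≤ i → i < y + j → (x (c i)).1 = 0}

/-- something on `[l, r)` -/
def V (l r : ℤ) : Set Conf := {x | ∃ i, l ≤ i ∧ i < r ∧ (x (c i)).1 ≠ 0}

/-- `L` at `j` and nothing to its left -/
def D (j : ℤ) : Set Conf := {x | (x (c j)).1 = 2 ∧ ∀ i, i < j → (x (c i)).1 = 0}

lemma measurable_fst_eq (k : Z1) (s : Fin 3) : MeasurableSet {x : Conf | (x k).1 = s} := by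
  have : Measurable (fun x : Conf => (x k).1) := by fun_prop
  exact this (measurableSet_singleton s)

lemma measurable_snd_eq (k : Z1) (s : Bool) : MeasurableSet {x : Conf | (x k).2 = s} := by
  have : Measurable (fun x : Conf => (x k).2) := by fun_prop
  exact this (measurableSet_singleton s)

lemma measurable_fst_ne (k : Z1) (s : Fin 3) : MeasurableSet {x : Conf | (x k).1 ≠ s} :=
  (measurable_fst_eq k s).compl

lemma measurable_E (y : ℤ) (j : ℕ) : MeasurableSet (E y j) := by
  have : E y j = {x : Conf | (x (c (y+j))).1 = 2} ∩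
      ⋂ i : ℤ, {x : Conf | y ≤ i → i < y + j → (x (c i)).1 = 0} := by
    ext x; simp [E]
  rw [this]
  refine (measurable_fst_eq _ _).inter (MeasurableSet.iInter fun i => ?_)
  by_cases h1 : y ≤ i
  · by_cases h2 : i < y + j
    · simpa [h1, h2] using measurable_fst_eq (c i) 0
    · simp [h2]
  · simp [h1]

lemma measurable_V (l r : ℤ) : MeasurableSet (V l r) := by
  have : V l r = ⋃ i : ℤ, {x : Conf | l ≤ i ∧ i < r ∧ (x (c i)).1 ≠ 0} := by
    ext x; simp [V]
  rw [this]
  refine MeasurableSet.iUnion fun i => ?_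
  by_cases h1 : l ≤ i
  · by_cases h2 : i < r
    · have : {x : Conf | l ≤ i ∧ i < r ∧ (x (c i)).1 ≠ 0} = {x : Conf | (x (c i)).1 ≠ 0} := by
        ext x; simp [h1, h2]
      rw [this]; exact measurable_fst_ne _ _
    · simp [h2]
  · simp [h1]

lemma measurable_D (j : ℤ) : MeasurableSet (D j) := by
  have : D j = {x : Conf | (x (c j)).1 = 2} ∩
      ⋂ i : ℤ, {x : Conf | i < j → (x (c i)).1 = 0} := by
    ext x; simp [D]
  rw [this]
  refine (measurable_fst_eq _ _).inter (MeasurableSet.iInter fun i => ?_)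
  by_cases h1 : i < j
  · simpa [h1] using measurable_fst_eq (c i) 0
  · simp [h1]

lemma glue_mem_E {x : Conf} {b : Z1 → Bool} {y : ℤ} {j : ℕ} (h : glue (x, b) ∈ E y j) :
    x ∈ E y (j+1) := by
  obtain ⟨h1, h2⟩ := h
  simp only [glue] at h1 h2
  obtain ⟨h3, h4, h5⟩ := F_eq_two h1
  refine ⟨?_, ?_⟩
  · have : y + ((j+1 : ℕ) : ℤ) = y + j + 1 := by push_cast; ring
    rw [this]; exact h4
  · intro i hi1 hi2
    have hi3 : i ≤ y + j := by push_cast at hi2; omega
    by_contra hne
    rcases hi3.lt_or_eq with hlt | heq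
    · cases hb : (x (c i)).2
      · have := F_eq_one (x := x) (i := i) (Or.inl ⟨hne, hb⟩)
        rw [h2 i hi1 hlt] at this
        exact absurd this (by decide)
      · have h6 := F_eq_one (x := x) (i := i + 1) (Or.inr (by
          rw [show i + 1 - 1 = i by ring]; exact ⟨hne, hb⟩))
        rcases (show i + 1 ≤ y + j by omega).lt_or_eq with hlt' | heq'
        · rw [h2 (i+1) (by omega) hlt'] at h6
          exact absurd h6 (by decide)
        · rw [heq', h1] at h6
          exact absurd h6 (by decide)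
    · rw [heq] at hne
      exact hne h3

/-- bit to integer -/
def bi (b : Bool) : ℤ := if b then 1 else 0

lemma glue_mem_V {x : Conf} {b : Z1 → Bool} {l r : ℤ} (hlr : l < r) (h : glue (x, b) ∈ V l r) :
    (x ∈ V (l - bi (x (c (l-1))).2) (r - bi (x (c (r-1))).2)) ∨
      ∃ y, l ≤ y ∧ y < r ∧ x ∈ E y 1 := by
  obtain ⟨i, hi1, hi2, hi3⟩ := h
  simp only [glue] at hi3
  rcases F_ne_zero hi3 with h1 | h1 | h1
  · left
    refine ⟨i, ?_, ?_, h1.1⟩
    · have : 0 ≤ bi (x (c (l-1))).2 := by unfold bi; split_ifs <;> simp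
      omega
    · by_cases h2 : i = r - 1
      · rw [← h2, h1.2]
        simp [bi]; omega
      · have : bi (x (c (r-1))).2 ≤ 1 := by unfold bi; split_ifs <;> simp
        omega
  · left
    refine ⟨i - 1, ?_, ?_, h1.1⟩
    · by_cases h2 : i = l
      · rw [← h2, h1.2]
        simp [bi]
      · have : 0 ≤ bi (x (c (l-1))).2 := by unfold bi; split_ifs <;> simp
        omega
    · have : bi (x (c (r-1))).2 ≤ 1 := by unfold bi; split_ifs <;> simp
      omega
  · right
    refine ⟨i, hi1, hi2, ?_, ?_⟩
    · simpa using h1.2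
    · intro i' hi1' hi2'
      have : i' = i := by push_cast at hi2'; omega
      rw [this]; exact h1.1

lemma glue_mem_D {x : Conf} {b : Z1 → Bool} {j : ℤ} (h : x ∈ D (j+1)) : glue (x, b) ∈ D j := by
  obtain ⟨h1, h2⟩ := h
  refine ⟨?_, ?_⟩
  · simp only [glue]
    rw [F_c]; unfold rule
    rw [if_neg, if_pos]
    · exact ⟨h2 j (by omega), h1⟩
    · rintro (h3 | h3)
      · exact h3.1 (h2 j (by omega))
      · exact h3.1 (h2 (j-1) (by omega))
  · intro i hi
    simp only [glue]
    rw [F_c]; unfold rule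
    rw [if_neg, if_neg]
    · rintro ⟨_, h3⟩
      rw [h2 (i+1) (by omega)] at h3
      exact absurd h3 (by decide)
    · rintro (h3 | h3)
      · exact h3.1 (h2 i (by omega))
      · exact h3.1 (h2 (i-1) (by omega))

/-! ### the iteration -/

/-- the map on measures -/
noncomputable def step (ν : Measure Conf) : Measure Conf := ν.bind κ

lemma step_apply (ν : Measure Conf) {S : Set Conf} (hS : MeasurableSet S) :
    step ν S = ∫⁻ x, κ x S ∂ν := by
  unfold step
  exact Measure.bind_apply hS κ.measurable.aemeasurable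

lemma isProb_step (ν : Measure Conf) [IsProbabilityMeasure ν] : IsProbabilityMeasure (step ν) := by
  constructor
  rw [step_apply ν MeasurableSet.univ]
  simp

lemma isProb_iter (ν : Measure Conf) [IsProbabilityMeasure ν] (n : ℕ) :
    IsProbabilityMeasure (step^[n] ν) := by
  induction n with
  | zero => simpa
  | succ n ih =>
    rw [Function.iterate_succ_apply']
    exact isProb_step _

/-- kernel mass of a set that only depends on the particle part -/
lemma κ_le_indicator {S T : Set Conf} (hS : MeasurableSet S) (hT : MeasurableSet T)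
    (h : ∀ (x : Conf) (b : Z1 → Bool), glue (x, b) ∈ S → x ∈ T) (x : Conf) :
    κ x S ≤ T.indicator 1 x := by
  rw [κ_apply x hS]
  by_cases hx : x ∈ T
  · rw [Set.indicator_of_mem hx]
    exact prob_le_one
  · rw [Set.indicator_of_notMem hx]
    have : {b | glue (x, b) ∈ S} = ∅ := by
      ext b
      simp only [Set.mem_ofPred_eq, Set.mem_empty_iff_false, iff_false]
      exact fun hb => hx (h x b hb)
    rw [this]
    simp

lemma step_le {S T : Set Conf} (hS : MeasurableSet S) (hT : MeasurableSet T)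
    (h : ∀ (x : Conf) (b : Z1 → Bool), glue (x, b) ∈ S → x ∈ T) (ν : Measure Conf) :
    step ν S ≤ ν T := by
  rw [step_apply ν hS]
  calc ∫⁻ x, κ x S ∂ν ≤ ∫⁻ x, T.indicator 1 x ∂ν := lintegral_mono (κ_le_indicator hS hT h)
    _ = ν T := by rw [lintegral_indicator_one hT]

lemma step_E (ν : Measure Conf) (y : ℤ) (j : ℕ) : step ν (E y j) ≤ ν (E y (j+1)) :=
  step_le (measurable_E _ _) (measurable_E _ _) (fun _ _ h => glue_mem_E h) ν

lemma iter_E (ν : Measure Conf) (y : ℤ) (n j : ℕ) : (step^[n] ν) (E y j) ≤ ν (E y (j+n)) := by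
  induction n generalizing j with
  | zero => simp
  | succ n ih =>
    rw [Function.iterate_succ_apply']
    calc step (step^[n] ν) (E y j) ≤ (step^[n] ν) (E y (j+1)) := step_E _ _ _
      _ ≤ ν (E y (j+1+n)) := ih _
      _ = ν (E y (j+(n+1))) := by ring_nf

lemma E_disjoint (y : ℤ) : Pairwise (Function.onFun Disjoint (fun j : ℕ => E y j)) := by
  have key : ∀ i j : ℕ, i < j → Disjoint (E y i) (E y j) := by
    intro i j hij
    rw [Set.disjoint_left]
    rintro x ⟨h1, _⟩ ⟨_, h2⟩
    have := h2 (y + i) (by omega) (by omega)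
    rw [this] at h1
    exact absurd h1 (by decide)
  intro i j hij
  rcases lt_or_gt_of_ne hij with h | h
  · exact key i j h
  · exact (key j i h).symm

lemma tendsto_E (ν : Measure Conf) [IsProbabilityMeasure ν] (y : ℤ) (j : ℕ) :
    Tendsto (fun n => (step^[n] ν) (E y j)) atTop (𝓝 0) := by
  have h1 : ∑' k : ℕ, ν (E y k) ≠ ⊤ := by
    rw [← measure_iUnion (E_disjoint y) (fun k => measurable_E y k)]
    exact measure_ne_top _ _
  have h2 : Tendsto (fun k => ν (E y k)) atTop (𝓝 0) := ENNReal.tendsto_atTop_zero_of_tsum_ne_top h1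
  have h3 : Tendsto (fun n => ν (E y (n+j))) atTop (𝓝 0) :=
    (tendsto_add_atTop_iff_nat (f := fun k => ν (E y k)) j).mpr h2
  refine tendsto_of_tendsto_of_tendsto_of_le_of_le (g := fun _ => (0:ENNReal)) tendsto_const_nhds h3
    ?_ ?_
  · intro n; exact bot_le
  · intro n
    have := iter_E ν y n j
    rwa [Nat.add_comm j n] at this

/-- the bits are fair and independent of the particle part after one step -/
lemma κ_bits {S : Set Conf} (hS : MeasurableSet S)
    (hpart : ∀ (x y : Conf), (∀ k, (x k).1 = (y k).1) → (x ∈ S ↔ y ∈ S))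
    {k k' : Z1} (hkk : k ≠ k') (β β' : Bool) (x : Conf) :
    κ x ({z | (z k).2 = β} ∩ {z | (z k').2 = β'} ∩ S) = 4⁻¹ * κ x S := by
  rw [κ_apply x (((measurable_snd_eq _ _).inter (measurable_snd_eq _ _)).inter hS), κ_apply x hS]
  by_cases hx : glue (x, fun _ => false) ∈ S
  · have h1 : {b | glue (x, b) ∈ S} = Set.univ := by
      ext b
      simp only [Set.mem_ofPred_eq, Set.mem_univ, iff_true]
      exact (hpart (glue (x, fun _ => false)) (glue (x, b)) (fun k => rfl)).mp hx
    have h2 : {b | glue (x, b) ∈ {z | (z k).2 = β} ∩ {z | (z k').2 = β'} ∩ S} =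
        Set.pi ({k, k'} : Finset Z1) (fun i => if i = k then {β} else {β'}) := by
      ext b
      have : glue (x, b) ∈ S :=
        (hpart (glue (x, fun _ => false)) (glue (x, b)) (fun k => rfl)).mp hx
      simp only [Set.mem_ofPred_eq, Set.mem_inter_iff, this, and_true, glue]
      simp [Set.mem_pi, hkk.symm]
    rw [h1, h2]
    unfold P
    rw [Measure.infinitePi_pi _ (fun i _ => by measurability)]
    rw [Finset.prod_pair hkk]
    simp only [if_true, if_neg hkk.symm, coin_singleton, measure_univ, mul_one]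
    rw [← ENNReal.mul_inv (by simp) (by simp)]
    norm_num
  · have h1 : {b | glue (x, b) ∈ S} = ∅ := by
      ext b
      simp only [Set.mem_ofPred_eq, Set.mem_empty_iff_false, iff_false]
      exact fun hb => hx ((hpart (glue (x, b)) (glue (x, fun _ => false)) (fun k => rfl)).mp hb)
    have h2 : {b | glue (x, b) ∈ {z | (z k).2 = β} ∩ {z | (z k').2 = β'} ∩ S} = ∅ := by
      ext b
      simp only [Set.mem_ofPred_eq, Set.mem_empty_iff_false, iff_false]
      exact fun hb => hx ((hpart (glue (x, b)) (glue (x, fun _ => false)) (fun k => rfl)).mp hb.2)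
    rw [h1, h2]
    simp

lemma step_bits (ν : Measure Conf) {S : Set Conf} (hS : MeasurableSet S)
    (hpart : ∀ (x y : Conf), (∀ k, (x k).1 = (y k).1) → (x ∈ S ↔ y ∈ S))
    {k k' : Z1} (hkk : k ≠ k') (β β' : Bool) :
    step ν ({z | (z k).2 = β} ∩ {z | (z k').2 = β'} ∩ S) = 4⁻¹ * step ν S := by
  rw [step_apply ν (((measurable_snd_eq _ _).inter (measurable_snd_eq _ _)).inter hS),
    step_apply ν hS, ← lintegral_const_mul _ (κ.measurable_coe hS)]
  exact lintegral_congr fun x => κ_bits hS hpart hkk β β' x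

lemma V_part (l r : ℤ) (x y : Conf) (h : ∀ k, (x k).1 = (y k).1) : (x ∈ V l r ↔ y ∈ V l r) := by
  unfold V
  simp only [Set.mem_ofPred_eq, h]

lemma c_inj {i j : ℤ} (h : i ≠ j) : c i ≠ c j := by
  intro h2
  exact h (congrFun h2 0)

lemma step_V (ν : Measure Conf) {l r : ℤ} (hlr : l < r) :
    step (step ν) (V l r) ≤
      4⁻¹ * step ν (V l r) + 4⁻¹ * step ν (V l (r-1)) + 4⁻¹ * step ν (V (l-1) r)
        + 4⁻¹ * step ν (V (l-1) (r-1)) + ∑ y ∈ Finset.Ico l r, step ν (E y 1) := by
  have hne : c (l-1) ≠ c (r-1) := c_inj (by omega)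
  set B : Bool → Bool → Set Conf := fun β β' =>
    {z | (z (c (l-1))).2 = β} ∩ {z | (z (c (r-1))).2 = β'} ∩ V (l - bi β) (r - bi β') with hB
  have hBm : ∀ β β', MeasurableSet (B β β') := fun β β' =>
    ((measurable_snd_eq _ _).inter (measurable_snd_eq _ _)).inter (measurable_V _ _)
  have hBv : ∀ β β', step ν (B β β') = 4⁻¹ * step ν (V (l - bi β) (r - bi β')) := fun β β' =>
    step_bits ν (measurable_V _ _) (V_part _ _) hne β β'
  set T : Set Conf := B false false ∪ B false true ∪ B true false ∪ B true true ∪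
    ⋃ y ∈ Finset.Ico l r, E y 1 with hT
  have hTm : MeasurableSet T := by
    refine ((((hBm _ _).union (hBm _ _)).union (hBm _ _)).union (hBm _ _)).union ?_
    exact Finset.measurableSet_biUnion _ fun y _ => measurable_E y 1
  have hsub : ∀ (x : Conf) (b : Z1 → Bool), glue (x, b) ∈ V l r → x ∈ T := by
    intro x b hx
    rcases glue_mem_V hlr hx with h | ⟨y, hy1, hy2, hy3⟩
    · left
      have : x ∈ B (x (c (l-1))).2 (x (c (r-1))).2 := ⟨⟨rfl, rfl⟩, h⟩
      cases h1 : (x (c (l-1))).2 <;> cases h2 : (x (c (r-1))).2 <;> rw [h1, h2] at this <;>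
        simp [this]
    · right
      simp only [Set.mem_iUnion]
      exact ⟨y, Finset.mem_Ico.mpr ⟨hy1, hy2⟩, hy3⟩
  calc step (step ν) (V l r) ≤ step ν T := step_le (measurable_V _ _) hTm hsub _
    _ ≤ step ν (B false false) + step ν (B false true) + step ν (B true false)
        + step ν (B true true) + step ν (⋃ y ∈ Finset.Ico l r, E y 1) := by
        refine (measure_union_le _ _).trans ?_
        gcongr
        refine (measure_union_le _ _).trans ?_
        gcongr
        refine (measure_union_le _ _).trans ?_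
        gcongr
        exact measure_union_le _ _
    _ ≤ _ := by
        rw [hBv, hBv, hBv, hBv]
        simp only [bi, Bool.false_eq_true, if_false, if_true, sub_zero]
        gcongr
        exact measure_biUnion_finset_le _ _

/-! ### the dual interval dies -/

/-- survival probabilities of the dual interval length -/
noncomputable def p : ℕ → ℕ → ℝ
  | 0, 0 => 0
  | 0, (_+1) => 1
  | (_+1), 0 => 0
  | (u+1), (m+1) => (p u m + 2 * p u (m+1) + p u (m+2)) / 4

lemma p_zero (u : ℕ) : p u 0 = 0 := by cases u <;> simp [p]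

lemma p_nonneg (u m : ℕ) : 0 ≤ p u m := by
  induction u generalizing m with
  | zero => cases m <;> simp [p]
  | succ u ih =>
    cases m with
    | zero => simp [p]
    | succ m =>
      simp only [p]
      have := ih m; have := ih (m+1); have := ih (m+2)
      positivity

lemma p_le_one (u m : ℕ) : p u m ≤ 1 := by
  induction u generalizing m with
  | zero => cases m <;> simp [p]
  | succ u ih =>
    cases m with
    | zero => simp [p]
    | succ m =>
      simp only [p]
      have := ih m; have := ih (m+1); have := ih (m+2)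
      linarith

lemma p_succ_le (u m : ℕ) : p (u+1) m ≤ p u m := by
  induction u generalizing m with
  | zero =>
    cases m with
    | zero => simp [p]
    | succ m =>
      have := p_le_one 1 (m+1)
      simpa [p] using this
  | succ u ih =>
    cases m with
    | zero => simp [p]
    | succ m =>
      have h1 := ih m; have h2 := ih (m+1); have h3 := ih (m+2)
      have e1 : p (u+1+1) (m+1) = (p (u+1) m + 2 * p (u+1) (m+1) + p (u+1) (m+2)) / 4 := rfl
      have e2 : p (u+1) (m+1) = (p u m + 2 * p u (m+1) + p u (m+2)) / 4 := rfl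
      calc p (u+1+1) (m+1) = (p (u+1) m + 2 * p (u+1) (m+1) + p (u+1) (m+2)) / 4 := e1
        _ ≤ (p u m + 2 * p u (m+1) + p u (m+2)) / 4 := by linarith
        _ = p (u+1) (m+1) := e2.symm

lemma p_tendsto (m : ℕ) : Tendsto (fun u => p u m) atTop (𝓝 0) := by
  have hanti : ∀ m, Antitone (fun u => p u m) := fun m => antitone_nat_of_succ_le (fun u => p_succ_le u m)
  have hbdd : ∀ m, BddBelow (Set.range (fun u => p u m)) := fun m =>
    ⟨0, by rintro _ ⟨u, rfl⟩; exact p_nonneg u m⟩
  set q : ℕ → ℝ := fun m => ⨅ u, p u m with hq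
  have hlim : ∀ m, Tendsto (fun u => p u m) atTop (𝓝 (q m)) := fun m =>
    tendsto_atTop_ciInf (hanti m) (hbdd m)
  have hq0 : q 0 = 0 := by
    refine tendsto_nhds_unique (hlim 0) ?_
    simp only [p_zero]
    exact tendsto_const_nhds
  have hrec : ∀ m, q (m+2) = 2 * q (m+1) - q m := by
    intro m
    have h1 : Tendsto (fun u => p (u+1) (m+1)) atTop (𝓝 (q (m+1))) :=
      (tendsto_add_atTop_iff_nat 1).mpr (hlim (m+1))
    have h2 : Tendsto (fun u => p (u+1) (m+1)) atTop (𝓝 ((q m + 2 * q (m+1) + q (m+2)) / 4)) := by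
      simp only [p]
      exact (((hlim m).add ((hlim (m+1)).const_mul 2)).add (hlim (m+2))).div_const 4
    have := tendsto_nhds_unique h1 h2
    linarith
  have hlin : ∀ m : ℕ, q m = m * q 1 ∧ q (m+1) = (m+1) * q 1 := by
    intro m
    induction m with
    | zero => simp [hq0]
    | succ m ih =>
      refine ⟨by push_cast; exact ih.2, ?_⟩
      rw [hrec m, ih.1, ih.2]
      push_cast; ring
  have hq1 : q 1 = 0 := by
    by_contra hne
    have hnn : 0 ≤ q 1 := ge_of_tendsto' (hlim 1) (fun u => p_nonneg u 1)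
    have hpos : 0 < q 1 := lt_of_le_of_ne hnn (Ne.symm hne)
    obtain ⟨n, hn⟩ := exists_nat_gt (1 / q 1)
    have h1 : q n ≤ 1 := le_of_tendsto' (hlim n) (fun u => p_le_one u n)
    rw [(hlin n).1] at h1
    rw [div_lt_iff₀ hpos] at hn
    linarith
  have := hlim m
  rwa [(hlin m).1, hq1, mul_zero] at this

/-! ### convergence -/

lemma step_V_real (ν : Measure Conf) [IsProbabilityMeasure ν] {l r : ℤ} (hlr : l < r) :
    (step (step ν)).real (V l r) ≤
      4⁻¹ * (step ν).real (V l r) + 4⁻¹ * (step ν).real (V l (r-1))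
        + 4⁻¹ * (step ν).real (V (l-1) r)
        + 4⁻¹ * (step ν).real (V (l-1) (r-1)) + ∑ y ∈ Finset.Ico l r, (step ν).real (E y 1) := by
  have := isProb_step ν
  have := isProb_step (step ν)
  have h := step_V ν hlr
  have h4 : ∀ S : Set Conf, (4⁻¹ : ENNReal) * step ν S = ENNReal.ofReal (4⁻¹ * (step ν).real S) := by
    intro S
    rw [ENNReal.ofReal_mul (by positivity), measureReal_def, ENNReal.ofReal_toReal (measure_ne_top _ _),
      ENNReal.ofReal_inv_of_pos (by positivity)]
    norm_num
  have h5 : ∑ y ∈ Finset.Ico l r, step ν (E y 1) =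
      ENNReal.ofReal (∑ y ∈ Finset.Ico l r, (step ν).real (E y 1)) := by
    rw [ENNReal.ofReal_sum_of_nonneg (fun _ _ => measureReal_nonneg)]
    refine Finset.sum_congr rfl fun y _ => ?_
    rw [measureReal_def, ENNReal.ofReal_toReal (measure_ne_top _ _)]
  rw [h4, h4, h4, h4, h5, ← ENNReal.ofReal_add (by positivity) (by positivity),
    ← ENNReal.ofReal_add (by positivity) (by positivity),
    ← ENNReal.ofReal_add (by positivity) (by positivity),
    ← ENNReal.ofReal_add (by positivity) (Finset.sum_nonneg fun _ _ => measureReal_nonneg)] at h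
  rw [measureReal_def]
  refine ENNReal.toReal_le_of_le_ofReal ?_ h
  have : 0 ≤ ∑ y ∈ Finset.Ico l r, (step ν).real (E y 1) :=
    Finset.sum_nonneg fun _ _ => measureReal_nonneg
  positivity

lemma V_bound (μ : Measure Conf) [IsProbabilityMeasure μ] (u m : ℕ) (l : ℤ) (ε : ℝ) (hε : 0 < ε) :
    ∀ᶠ n : ℕ in atTop, (step^[n] μ).real (V l (l + m)) ≤ p u m + ε := by
  induction u generalizing m l ε with
  | zero =>
    refine Eventually.of_forall fun n => ?_
    have := isProb_iter μ n
    cases m with
    | zero =>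
      have : V l (l + (0:ℕ)) = ∅ := by
        ext x
        simp only [V, Set.mem_ofPred_eq, Set.mem_empty_iff_false, iff_false]
        rintro ⟨i, h1, h2, _⟩
        push_cast at h2
        omega
      rw [this]
      simp [p]; exact hε.le
    | succ m =>
      have : (step^[n] μ).real (V l (l + (m+1:ℕ))) ≤ 1 := measureReal_le_one
      simp only [p]; linarith
  | succ u ih =>
    cases m with
    | zero => simpa [p] using (by simpa [p_zero] using ih 0 l ε hε)
    | succ m =>
      have hE : Tendsto (fun n => ∑ y ∈ Finset.Ico l (l + (m+1:ℕ)), (step^[n] μ).real (E y 1))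
          atTop (𝓝 0) := by
        have : (0:ℝ) = ∑ y ∈ Finset.Ico l (l + (m+1:ℕ)), (0:ℝ) := by simp
        rw [this]
        refine tendsto_finsetSum _ fun y _ => ?_
        have := (ENNReal.tendsto_toReal (ENNReal.zero_ne_top)).comp (tendsto_E μ y 1)
        simpa [measureReal_def, Function.comp_def] using this
      have hE2 : ∀ᶠ n in atTop, ∑ y ∈ Finset.Ico l (l + (m+1:ℕ)), (step^[n] μ).real (E y 1) < ε/2 :=
        hE.eventually_lt_const (by positivity)
      have a1 := ih (m+1) l (ε/2) (by positivity)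
      have a2 := ih m l (ε/2) (by positivity)
      have a3 := ih (m+2) (l-1) (ε/2) (by positivity)
      have a4 := ih (m+1) (l-1) (ε/2) (by positivity)
      have hall := (((a1.and a2).and a3).and a4).and hE2
      obtain ⟨n0, h0⟩ := eventually_atTop.mp hall
      refine eventually_atTop.mpr ⟨n0 + 2, fun N hN => ?_⟩
      obtain ⟨n, rfl⟩ : ∃ k, N = k + 1 + 1 := ⟨N - 2, by omega⟩
      obtain ⟨⟨⟨⟨b1, b2⟩, b3⟩, b4⟩, b5⟩ := h0 (n+1) (by omega)
      have := isProb_iter μ n
      have h := step_V_real (step^[n] μ) (l := l) (r := l + (m+1:ℕ)) (by push_cast; omega)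
      have i1 : step (step^[n] μ) = step^[n+1] μ := (Function.iterate_succ_apply' step n μ).symm
      have i2 : step (step^[n+1] μ) = step^[n+1+1] μ :=
        (Function.iterate_succ_apply' step (n+1) μ).symm
      rw [i1, i2] at h
      have c2 : l + ((m+1:ℕ):ℤ) - 1 = l + m := by push_cast; ring
      have c3 : l + ((m+1:ℕ):ℤ) = l - 1 + ((m+2:ℕ):ℤ) := by push_cast; ring
      have c4 : l + (m:ℤ) = l - 1 + ((m+1:ℕ):ℤ) := by push_cast; ring
      rw [c2] at h
      have e2 : p (u+1) (m+1) = (p u m + 2 * p u (m+1) + p u (m+2)) / 4 := rfl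
      rw [e2]
      rw [← c3] at b3
      rw [← c4] at b4
      linarith

lemma V_tendsto (μ : Measure Conf) [IsProbabilityMeasure μ] (m : ℕ) (l : ℤ) :
    Tendsto (fun n : ℕ => (step^[n] μ).real (V l (l + m))) atTop (𝓝 0) := by
  rw [Metric.tendsto_atTop]
  intro ε hε
  have h1 : ∀ᶠ u in atTop, p u m < ε/3 := (p_tendsto m).eventually_lt_const (by positivity)
  obtain ⟨u, hu⟩ := h1.exists
  obtain ⟨n0, hn0⟩ := eventually_atTop.mp (V_bound μ u m l (ε/3) (by positivity))
  refine ⟨n0, fun n hn => ?_⟩
  have := hn0 n hn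
  rw [Real.dist_eq, sub_zero, abs_of_nonneg measureReal_nonneg]
  linarith

/-- cylinders -/
def Cyl (S : Finset Z1) (a : Conf) : Set Conf := {x | ∀ k ∈ S, x k = a k}

lemma measurable_Cyl (S : Finset Z1) (a : Conf) : MeasurableSet (Cyl S a) := by
  have : Cyl S a = ⋂ k ∈ S, {x : Conf | x k = a k} := by
    ext x; simp [Cyl]
  rw [this]
  refine Finset.measurableSet_biInter _ fun k _ => ?_
  have h : Measurable (fun x : Conf => x k) := measurable_pi_apply k
  exact h (measurableSet_singleton (a k))

/-- the empty configuration -/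
def x0 : Conf := fun _ => (0, false)

lemma F_x0 (k : Z1) : F x0 k = 0 := by
  rw [eq_c k, F_c]
  simp [rule, x0]

lemma κ_Cyl_congr (S : Finset Z1) (a : Conf) (x y : Conf) (h : ∀ k ∈ S, F x k = F y k) :
    κ x (Cyl S a) = κ y (Cyl S a) := by
  rw [κ_apply _ (measurable_Cyl _ _), κ_apply _ (measurable_Cyl _ _)]
  congr 1
  ext b
  simp only [Set.mem_ofPred_eq, Cyl, glue]
  constructor
  · intro h1 k hk
    rw [← h k hk]; exact h1 k hk
  · intro h1 k hk
    rw [h k hk]; exact h1 k hk

lemma step_nonempty (ν : Measure Conf) (k : Z1) :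
    ν {x | F x k ≠ 0} ≤ step ν {x | (x k).1 ≠ 0} := by
  rw [step_apply ν (measurable_fst_ne k 0)]
  have hT : MeasurableSet {x : Conf | F x k ≠ 0} := (measurable_F k) (measurableSet_singleton 0).compl
  rw [← lintegral_indicator_one hT]
  refine lintegral_mono fun x => ?_
  by_cases hx : F x k ≠ 0
  · rw [Set.indicator_of_mem (by exact hx), κ_apply x (measurable_fst_ne k 0)]
    have : {b | glue (x, b) ∈ {x : Conf | (x k).1 ≠ 0}} = Set.univ := by
      ext b
      simpa [glue] using hx
    rw [this, measure_univ]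
    simp
  · rw [Set.indicator_of_notMem (by exact hx)]
    exact bot_le

lemma V_one (k : Z1) : {x : Conf | (x k).1 ≠ 0} = V (k 0) (k 0 + (1:ℕ)) := by
  ext x
  simp only [Set.mem_ofPred_eq, V]
  constructor
  · intro h
    refine ⟨k 0, le_refl _, by push_cast; omega, ?_⟩
    rwa [← eq_c k]
  · rintro ⟨i, h1, h2, h3⟩
    have : i = k 0 := by push_cast at h2; omega
    rw [this, ← eq_c k] at h3
    exact h3

/-- the limit law -/
noncomputable def lim : Measure Conf := κ x0

instance : IsProbabilityMeasure lim := by unfold lim; infer_instance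

lemma step_Cyl (ν : Measure Conf) [IsProbabilityMeasure ν] (S : Finset Z1) (a : Conf) :
    |(step ν).real (Cyl S a) - lim.real (Cyl S a)| ≤
      ∑ k ∈ S, (step ν).real (V (k 0) (k 0 + (1:ℕ))) := by
  have := isProb_step ν
  set T : Set Conf := {x | ∃ k ∈ S, F x k ≠ 0} with hT
  have hTm : MeasurableSet T := by
    have : T = ⋃ k ∈ S, {x : Conf | F x k ≠ 0} := by ext x; simp [hT]
    rw [this]
    exact Finset.measurableSet_biUnion _ fun k _ => (measurable_F k) (measurableSet_singleton 0).compl
  have h1 : ∀ x, κ x (Cyl S a) ≤ lim (Cyl S a) + T.indicator 1 x := by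
    intro x
    by_cases hx : x ∈ T
    · rw [Set.indicator_of_mem hx]
      refine prob_le_one.trans ?_
      simp
    · rw [Set.indicator_of_notMem hx, add_zero]
      have : ∀ k ∈ S, F x k = F x0 k := by
        intro k hk
        rw [F_x0]
        by_contra hne
        exact hx ⟨k, hk, hne⟩
      exact (κ_Cyl_congr S a x x0 this).le
  have h2 : ∀ x, lim (Cyl S a) ≤ κ x (Cyl S a) + T.indicator 1 x := by
    intro x
    by_cases hx : x ∈ T
    · rw [Set.indicator_of_mem hx]
      refine prob_le_one.trans ?_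
      simp
    · rw [Set.indicator_of_notMem hx, add_zero]
      have : ∀ k ∈ S, F x k = F x0 k := by
        intro k hk
        rw [F_x0]
        by_contra hne
        exact hx ⟨k, hk, hne⟩
      exact (κ_Cyl_congr S a x x0 this).ge
  have h3 : step ν (Cyl S a) ≤ lim (Cyl S a) + ν T := by
    rw [step_apply ν (measurable_Cyl S a)]
    calc ∫⁻ x, κ x (Cyl S a) ∂ν ≤ ∫⁻ x, (lim (Cyl S a) + T.indicator 1 x) ∂ν := lintegral_mono h1
      _ = lim (Cyl S a) + ν T := by
        rw [lintegral_add_left measurable_const, lintegral_const, measure_univ, mul_one,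
          lintegral_indicator_one hTm]
  have h4 : lim (Cyl S a) ≤ step ν (Cyl S a) + ν T := by
    rw [step_apply ν (measurable_Cyl S a)]
    calc lim (Cyl S a) = ∫⁻ x, lim (Cyl S a) ∂ν := by
          rw [lintegral_const, measure_univ, mul_one]
      _ ≤ ∫⁻ x, (κ x (Cyl S a) + T.indicator 1 x) ∂ν := lintegral_mono h2
      _ = ∫⁻ x, κ x (Cyl S a) ∂ν + ν T := by
        rw [lintegral_add_left (κ.measurable_coe (measurable_Cyl S a)), lintegral_indicator_one hTm]
  have h5 : ν.real T ≤ ∑ k ∈ S, (step ν).real (V (k 0) (k 0 + (1:ℕ))) := by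
    have h6 : T = ⋃ k ∈ S, {x : Conf | F x k ≠ 0} := by ext x; simp [hT]
    calc ν.real T ≤ ∑ k ∈ S, ν.real {x : Conf | F x k ≠ 0} := by
          rw [h6]; exact measureReal_biUnion_finset_le _ _
      _ ≤ _ := by
          refine Finset.sum_le_sum fun k _ => ?_
          rw [← V_one k]
          exact ENNReal.toReal_mono (measure_ne_top _ _) (step_nonempty ν k)
  have h7 : (step ν).real (Cyl S a) ≤ lim.real (Cyl S a) + ν.real T := by
    simp only [measureReal_def]
    rw [← ENNReal.toReal_add (measure_ne_top _ _) (measure_ne_top _ _)]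
    exact ENNReal.toReal_mono (by finiteness) h3
  have h8 : lim.real (Cyl S a) ≤ (step ν).real (Cyl S a) + ν.real T := by
    simp only [measureReal_def]
    rw [← ENNReal.toReal_add (measure_ne_top _ _) (measure_ne_top _ _)]
    exact ENNReal.toReal_mono (by finiteness) h4
  rw [abs_le]
  constructor <;> linarith

lemma ergodic_real (μ : Measure Conf) [IsProbabilityMeasure μ] (S : Finset Z1) (a : Conf) :
    Tendsto (fun n : ℕ => (step^[n] μ).real (Cyl S a)) atTop (𝓝 (lim.real (Cyl S a))) := by
  rw [← tendsto_add_atTop_iff_nat 1]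
  rw [tendsto_iff_dist_tendsto_zero]
  have h1 : Tendsto (fun n : ℕ => ∑ k ∈ S, (step^[n+1] μ).real (V (k 0) (k 0 + (1:ℕ)))) atTop (𝓝 0) := by
    have : (0:ℝ) = ∑ k ∈ S, (0:ℝ) := by simp
    rw [this]
    refine tendsto_finsetSum _ fun k _ => ?_
    exact (tendsto_add_atTop_iff_nat 1).mpr (V_tendsto μ 1 (k 0))
  refine squeeze_zero (fun _ => dist_nonneg) (fun n => ?_) h1
  have := isProb_iter μ n
  rw [Real.dist_eq, Function.iterate_succ_apply' step n μ]
  exact step_Cyl _ S a

lemma ergodic (μ : Measure Conf) [IsProbabilityMeasure μ] (S : Finset Z1) (a : Conf) :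
    Tendsto (fun n : ℕ => (step^[n] μ) (Cyl S a)) atTop (𝓝 (lim (Cyl S a))) := by
  have h := ergodic_real μ S a
  rw [← ENNReal.tendsto_toReal_iff]
  · exact h
  · intro n
    have := isProb_iter μ n
    exact measure_ne_top _ _
  · exact measure_ne_top _ _

/-! ### not uniform -/

/-- one `L` at position `n` -/
def xL (n : ℤ) : Conf := fun k => if k 0 = n then (2, false) else (0, false)

lemma xL_mem (n : ℤ) : xL n ∈ D n := by
  refine ⟨by simp [xL, c], fun i hi => ?_⟩
  have : i ≠ n := by omega
  simp [xL, c, this]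

lemma step_D (ν : Measure Conf) (j : ℤ) : ν (D (j+1)) ≤ step ν (D j) := by
  rw [step_apply ν (measurable_D j), ← lintegral_indicator_one (measurable_D (j+1))]
  refine lintegral_mono fun x => ?_
  by_cases hx : x ∈ D (j+1)
  · rw [Set.indicator_of_mem hx, κ_apply x (measurable_D j)]
    have : {b | glue (x, b) ∈ D j} = Set.univ := by
      ext b
      simpa using glue_mem_D hx
    rw [this, measure_univ]
    simp
  · rw [Set.indicator_of_notMem hx]
    exact bot_le

lemma iter_D (ν : Measure Conf) (n : ℕ) (j : ℤ) : ν (D (j+n)) ≤ (step^[n] ν) (D j) := by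
  induction n generalizing j with
  | zero => simp
  | succ n ih =>
    rw [Function.iterate_succ_apply']
    calc ν (D (j + (n+1:ℕ))) = ν (D (j + 1 + n)) := by
          congr 2; push_cast; ring
      _ ≤ (step^[n] ν) (D (j+1)) := ih _
      _ ≤ _ := step_D _ _

/-- the test cylinder -/
def CylL : Set Conf := Cyl {c 0} (fun _ => (2, false))

lemma κ_CylL {x : Conf} (hx : x ∈ D 1) : κ x CylL = 2⁻¹ := by
  have h : F x (c 0) = 2 := by
    have := (glue_mem_D (b := fun _ => false) (j := 0) (by simpa using hx)).1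
    simpa [glue] using this
  unfold CylL
  rw [κ_apply x (measurable_Cyl _ _)]
  have : {b | glue (x, b) ∈ Cyl {c 0} (fun _ => (2, false))} =
      Set.pi ({c 0} : Finset Z1) (fun _ => {false}) := by
    ext b
    simp [Cyl, glue, h]
  rw [this]
  unfold P
  rw [Measure.infinitePi_pi _ (fun i _ => by measurability)]
  simp [coin_singleton]

lemma lim_CylL : lim CylL = 0 := by
  unfold lim CylL
  rw [κ_apply x0 (measurable_Cyl _ _)]
  have : {b | glue (x0, b) ∈ Cyl {c 0} (fun _ => (2, false))} = ∅ := by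
    ext b
    simp [Cyl, glue, F_x0]
  rw [this]
  simp

lemma iter_CylL (n : ℕ) : 2⁻¹ ≤ (step^[n+1] (Measure.dirac (xL (n+1)))) CylL := by
  rw [Function.iterate_succ_apply' step n]
  set ν := step^[n] (Measure.dirac (xL (n+1))) with hν
  have h1 : 1 ≤ ν (D 1) := by
    have := iter_D (Measure.dirac (xL (n+1))) n 1
    rw [Measure.dirac_apply' _ (measurable_D _)] at this
    rw [Set.indicator_of_mem (by
      have := xL_mem (n+1)
      rwa [show (n:ℤ)+1 = 1 + n by ring] at this ⊢)] at this
    simpa using this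
  rw [step_apply ν (show MeasurableSet CylL from measurable_Cyl _ _)]
  calc (2⁻¹ : ENNReal) = 2⁻¹ * 1 := by rw [mul_one]
    _ ≤ 2⁻¹ * ν (D 1) := by gcongr
    _ = ∫⁻ x, 2⁻¹ * (D 1).indicator 1 x ∂ν := by
        rw [lintegral_const_mul _ (measurable_one.indicator (measurable_D 1)),
          lintegral_indicator_one (measurable_D 1)]
    _ ≤ ∫⁻ x, κ x CylL ∂ν := by
        refine lintegral_mono fun x => ?_
        by_cases hx : x ∈ D 1
        · rw [Set.indicator_of_mem hx, κ_CylL hx]
          simp
        · rw [Set.indicator_of_notMem hx]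
          simp

lemma fin_h4 (n0 : ℕ) :
    1/2 ≤ ((step^[n0+1] (Measure.dirac (xL (n0+1)))) CylL).toReal := by
  have := iter_CylL n0
  have hp := isProb_iter (Measure.dirac (xL (n0+1))) (n0+1)
  have h5 := ENNReal.toReal_mono (measure_ne_top _ _) this
  have h6 : ((2⁻¹ : ENNReal)).toReal = 1/2 := by simp
  rw [h6] at h5
  exact h5

lemma fin_h5 : Tendsto (fun n : ℕ => ((step^[n] (Measure.dirac x0)) CylL).toReal) atTop (𝓝 0) := by
  have := ergodic_real (Measure.dirac x0) {c 0} (fun _ => (2, false))
  have h6 : lim.real (Cyl {c 0} (fun _ => (2, false))) = 0 := by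
    rw [measureReal_def]
    have : lim (Cyl {c 0} (fun _ => (2, false))) = 0 := lim_CylL
    rw [this]; simp
  rw [h6] at this
  exact this

lemma final (π : Measure Conf)
    (h1 : ∀ (S : Finset Z1) (a : Conf), ∀ ε : ℝ, 0 < ε →
        ∃ n0 : ℕ, ∀ n : ℕ, n0 ≤ n →
          ∀ μ : Measure Conf, IsProbabilityMeasure μ →
            |((step^[n] μ) (Cyl S a)).toReal - (π (Cyl S a)).toReal| < ε) : False := by
  obtain ⟨n0, hn0⟩ := h1 {c 0} (fun _ => (2, false)) (1/8) (by norm_num)
  have hn1 : ∀ n : ℕ, n0 ≤ n →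
          ∀ μ : Measure Conf, IsProbabilityMeasure μ →
            |((step^[n] μ) CylL).toReal - (π CylL).toReal| < 1/8 := hn0
  have h3 := hn1 (n0+1) (Nat.le_succ n0) (Measure.dirac (xL (n0+1))) inferInstance
  have h4 := fin_h4 n0
  have h6 : ∀ᶠ n : ℕ in atTop, ((step^[n] (Measure.dirac x0)) CylL).toReal < 1/8 :=
    fin_h5.eventually_lt_const (by norm_num)
  obtain ⟨n, hn1, hn2⟩ := (h6.and (eventually_ge_atTop n0)).exists
  have h7 := hn0 n hn2 (Measure.dirac x0) inferInstance
  have h8 : |((step^[n] (Measure.dirac x0)) CylL).toReal - (π CylL).toReal| < 1/8 := h7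
  generalize ((step^[n] (Measure.dirac x0)) CylL).toReal = A at *
  generalize ((step^[n0+1] (Measure.dirac (xL (n0+1)))) CylL).toReal = B at *
  generalize (π CylL).toReal = C at *
  rw [abs_lt] at h3 h8
  linarith [h3.1, h3.2, h8.1, h8.2]

lemma ergodic_all :
    ∃ π : Measure Conf, IsProbabilityMeasure π ∧
      ∀ μ : Measure Conf, IsProbabilityMeasure μ →
        ∀ (S : Finset Z1) (a : Conf),
          Tendsto (fun n : ℕ => (step^[n] μ) (Cyl S a)) atTop (𝓝 (π (Cyl S a))) :=
  ⟨lim, inferInstance, fun μ _ S a => ergodic μ S a⟩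

end Pool.Agent.H96.PCA
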