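import Pool.Agent.H96.FrogDef

set_option autoImplicit false
open MeasureTheory ProbabilityTheory Filter Topology
open scoped ENNReal

namespace Pool.Agent.H96.Frog

variable {d : ℕ}

/-! ### resampling one coordinate -/

lemma resample {I : Type} [DecidableEq I] {D : Type} [MeasurableSpace D]
    (μ : Measure D) [IsProbabilityMeasure μ] (i : I) :
    (μ.prod (Measure.infinitePi (fun _ : I => μ))).map (fun q => Function.update q.2 i q.1) =
      Measure.infinitePi (fun _ : I => μ) := by
  refine Measure.eq_infinitePi _ ?_
  intro S t ht
  have hm : Measurable (fun q : D × (I → D) => Function.update q.2 i q.1) := by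
    refine measurable_pi_iff.mpr fun j => ?_
    by_cases hj : j = i
    · subst hj; simp only [Function.update_self]; fun_prop
    · simp only [Function.update_of_ne hj]; fun_prop
  have hmS : MeasurableSet (Set.pi (S : Set I) t) := MeasurableSet.pi S.countable_toSet fun j _ => ht j
  rw [Measure.map_apply hm hmS]
  by_cases hi : i ∈ S
  · have e : (fun q : D × (I → D) => Function.update q.2 i q.1) ⁻¹' (Set.pi (S : Set I) t) =
        (t i) ×ˢ (Set.pi ((S.erase i : Finset I) : Set I) t) := by
      ext q
      simp only [Set.mem_preimage, Set.mem_pi, Finset.mem_coe, Set.mem_prod, Finset.mem_erase]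
      constructor
      · intro h
        refine ⟨?_, fun j hj => ?_⟩
        · have := h i hi; rwa [Function.update_self] at this
        · have := h j hj.2; rwa [Function.update_of_ne hj.1] at this
      · rintro ⟨h1, h2⟩ j hj
        by_cases hji : j = i
        · subst hji; rwa [Function.update_self]
        · rw [Function.update_of_ne hji]; exact h2 j ⟨hji, hj⟩
    rw [e, Measure.prod_prod, Measure.infinitePi_pi _ (fun j _ => ht j)]
    exact Finset.mul_prod_erase S (fun j => μ (t j)) hi
  · have e : (fun q : D × (I → D) => Function.update q.2 i q.1) ⁻¹' (Set.pi (S : Set I) t) =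
        Set.univ ×ˢ (Set.pi (S : Set I) t) := by
      ext q
      simp only [Set.mem_preimage, Set.mem_pi, Finset.mem_coe, Set.mem_prod, Set.mem_univ, true_and]
      refine forall₂_congr fun j hj => ?_
      have : j ≠ i := fun h => hi (h ▸ hj)
      rw [Function.update_of_ne this]
    rw [e, Measure.prod_prod, measure_univ, one_mul, Measure.infinitePi_pi _ (fun j _ => ht j)]

/-- expectation with one coordinate resampled -/
lemma lint_resample (hd : 2 ≤ d) (w α : unitInterval) (i : Site d × ℕ)
    (G : (Site d × ℕ → Dir d) → ℝ≥0∞) (hG : Measurable G) :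
    ∫⁻ ω, G ω ∂(law d hd w α) =
      ∫⁻ ω, ∑ s, ENNReal.ofReal (weight d w α s) * G (Function.update ω i s) ∂(law d hd w α) := by
  have hm : Measurable (fun q : Dir d × (Site d × ℕ → Dir d) => Function.update q.2 i q.1) := by
    refine measurable_pi_iff.mpr fun j => ?_
    by_cases hj : j = i
    · subst hj; simp only [Function.update_self]; fun_prop
    · simp only [Function.update_of_ne hj]; fun_prop
  conv_lhs => rw [law, ← resample ((stepPMF d hd w α).toMeasure) i]
  rw [lintegral_map hG hm,
    lintegral_prod_symm (fun q : Dir d × (Site d × ℕ → Dir d) => G (Function.update q.2 i q.1))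
      (hG.comp hm).aemeasurable]
  refine lintegral_congr fun ω => ?_
  rw [lintegral_fintype]
  refine Finset.sum_congr rfl fun s _ => ?_
  rw [PMF.toMeasure_apply_singleton _ _ (measurableSet_singleton s), mul_comm]
  rfl

/-! ### dependence on the past only -/

lemma pos_update (ω : Site d × ℕ → Dir d) (t : ℕ) (x : Site d) (s : Dir d) (u : ℕ) (hu : u ≤ t) :
    pos (Function.update ω (x, t) s) u = pos ω u := by
  induction u with
  | zero => funext y; simp [pos]
  | succ u ih =>
    have ih' := ih (by omega)
    have hne : ∀ z, Function.update ω (x, t) s (z, u) = ω (z, u) := by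
      intro z
      rw [Function.update_of_ne]
      intro h
      rw [Prod.mk.injEq] at h
      omega
    funext y
    rcases h : pos ω u y with _ | y'
    · simp only [pos, ih', h]
      classical
      exact if_congr (by simp only [hne]; rw [ih']) rfl rfl
    · simp only [pos, ih', h, hne]

/-- measurability of the positions -/
lemma measurable_pos (t : ℕ) (x : Site d) (o : Option (Site d)) :
    MeasurableSet {ω : Site d × ℕ → Dir d | pos ω t x = o} := by
  induction t generalizing x o with
  | zero =>
    simp only [pos]
    exact MeasurableSet.const _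
  | succ t ih =>
    have hstep : ∀ (z : Site d) (s : Dir d), MeasurableSet {ω : Site d × ℕ → Dir d | ω (z, t) = s} :=
      fun z s => by
        have h : Measurable (fun ω : Site d × ℕ → Dir d => ω (z, t)) := measurable_pi_apply _
        exact h (measurableSet_singleton s)
    have hE : ∀ y : Site d, MeasurableSet {ω : Site d × ℕ → Dir d |
        ∃ z y', pos ω t z = some y' ∧ y' + vec (ω (z, t)) = y} := by
      intro y
      have : {ω : Site d × ℕ → Dir d | ∃ z y', pos ω t z = some y' ∧ y' + vec (ω (z, t)) = y} =
          ⋃ z : Site d, ⋃ y' : Site d, ⋃ s : Dir d, ({ω | pos ω t z = some y'} ∩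
            ({ω | ω (z, t) = s} ∩ {_ω | y' + vec s = y})) := by
        ext ω
        simp only [Set.mem_ofPred_eq, Set.mem_iUnion, Set.mem_inter_iff]
        constructor
        · rintro ⟨z, y', h1, h2⟩
          exact ⟨z, y', ω (z, t), h1, rfl, h2⟩
        · rintro ⟨z, y', s, h1, rfl, h2⟩
          exact ⟨z, y', h1, h2⟩
      rw [this]
      refine MeasurableSet.iUnion fun z => MeasurableSet.iUnion fun y' => MeasurableSet.iUnion fun s => ?_
      exact (ih z _).inter ((hstep z s).inter (MeasurableSet.const _))
    have e : {ω : Site d × ℕ → Dir d | pos ω (t+1) x = o} =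
        (⋃ y : Site d, ⋃ s : Dir d, ({ω | pos ω t x = some y} ∩ ({ω | ω (x, t) = s} ∩
          {_ω | some (y + vec s) = o}))) ∪
        ({ω | pos ω t x = none} ∩ (({ω | ∃ z y', pos ω t z = some y' ∧ y' + vec (ω (z, t)) = x} ∩
          {_ω | some x = o}) ∪ ({ω | ∃ z y', pos ω t z = some y' ∧ y' + vec (ω (z, t)) = x}ᶜ ∩
          {_ω | none = o}))) := by
      ext ω
      simp only [Set.mem_ofPred_eq, Set.mem_union, Set.mem_iUnion, Set.mem_inter_iff, Set.mem_compl_iff]
      rcases hp : pos ω t x with _ | y
      · simp only [pos, hp]
        split_ifs with h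
        · simp [h]
        · simp [h]
      · simp only [pos, hp]
        constructor
        · intro h
          exact Or.inl ⟨y, ω (x, t), rfl, rfl, h⟩
        · rintro (⟨y', s, h1, h2, h3⟩ | h)
          · simp only [Option.some.injEq] at h1
            subst h1; rw [h2]; exact h3
          · exact absurd h.1 (by simp)
    rw [e]
    refine MeasurableSet.union ?_ ?_
    · refine MeasurableSet.iUnion fun y => MeasurableSet.iUnion fun s => ?_
      exact (ih x _).inter ((hstep x s).inter (MeasurableSet.const _))
    · exact (ih x _).inter (((hE x).inter (MeasurableSet.const _)).union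
        ((hE x).compl.inter (MeasurableSet.const _)))

/-- visited sites (equivalently, sites of activated frogs) -/
def Act (ω : Site d × ℕ → Dir d) (t : ℕ) : Set (Site d) := {x | pos ω t x ≠ none}

lemma measurable_Act (t : ℕ) (x : Site d) :
    MeasurableSet {ω : Site d × ℕ → Dir d | x ∈ Act ω t} := (measurable_pos t x none).compl

lemma Act_mono (ω : Site d × ℕ → Dir d) (t : ℕ) : Act ω t ⊆ Act ω (t+1) := by
  intro x hx
  simp only [Act, Set.mem_ofPred_eq] at hx ⊢
  rcases h : pos ω t x with _ | y
  · exact absurd h hx
  · simp [pos, h]

lemma pos_succ_of_some {ω : Site d × ℕ → Dir d} {t : ℕ} {x y : Site d} (h : pos ω t x = some y) :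
    pos ω (t+1) x = some (y + vec (ω (x, t))) := by
  simp [pos, h]

/-- a freshly visited site -/
lemma mem_Act_succ {ω : Site d × ℕ → Dir d} {t : ℕ} {z y : Site d} (h : pos ω t z = some y) :
    y + vec (ω (z, t)) ∈ Act ω (t+1) := by
  simp only [Act, Set.mem_ofPred_eq]
  rcases h2 : pos ω t (y + vec (ω (z, t))) with _ | y'
  · have : ∃ z' y', pos ω t z' = some y' ∧ y' + vec (ω (z', t)) = y + vec (ω (z, t)) := ⟨z, y, h, rfl⟩
    simp [pos, h2, this]
  · simp [pos, h2]

/-- active frogs sit at visited sites -/
lemma mem_Act_of_pos (ω : Site d × ℕ → Dir d) (t : ℕ) {x y : Site d} (h : pos ω t x = some y) :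
    y ∈ Act ω t := by
  induction t generalizing x y with
  | zero =>
    simp only [pos] at h
    split_ifs at h with hx
    simp only [Option.some.injEq] at h
    subst h
    simp [Act, pos]
  | succ t ih =>
    rcases h2 : pos ω t x with _ | y'
    · have h3 := h
      simp only [pos, h2] at h3
      split_ifs at h3 with h4
      simp only [Option.some.injEq] at h3
      subst h3
      simp only [Act, Set.mem_ofPred_eq, h]
      simp
    · rw [pos_succ_of_some h2] at h
      simp only [Option.some.injEq] at h
      subst h
      exact mem_Act_succ h2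

/-- a newly activated frog sits at home and was woken by a moving frog -/
lemma pos_succ_of_none {ω : Site d × ℕ → Dir d} {t : ℕ} {x y : Site d} (h : pos ω t x = none)
    (h2 : pos ω (t+1) x = some y) : y = x ∧ ∃ z y', pos ω t z = some y' ∧ y' + vec (ω (z, t)) = x := by
  simp only [pos, h] at h2
  split_ifs at h2 with h3
  simp only [Option.some.injEq] at h2
  exact ⟨h2.symm, h3⟩

end Pool.Agent.H96.Frog
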