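import Pool.Agent.H96.FrogA

set_option autoImplicit false
open MeasureTheory ProbabilityTheory Filter Topology
open scoped ENNReal

namespace Pool.Agent.H96.Frog

variable {d : ℕ}

/-- index of the first coordinate -/
def i0 (hd : 2 ≤ d) : Fin d := ⟨0, by omega⟩

lemma vec_cancel (hd : 2 ≤ d) (y : Site d) (b : Bool) :
    y + vec (i0 hd, b) + vec (i0 hd, !b) = y := by
  funext j
  simp only [vec, Pi.add_apply]
  by_cases hj : j = i0 hd
  · subst hj
    cases b <;> simp
  · simp [Pi.single_eq_of_ne hj]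

lemma vec_i0 (hd : 2 ≤ d) (y : Site d) (b : Bool) :
    (y + vec (i0 hd, b)) (i0 hd) = y (i0 hd) + if b then 1 else -1 := by
  simp [vec]

lemma vec_other (hd : 2 ≤ d) (y : Site d) (s : Dir d) (hs : s.1 ≠ i0 hd) :
    (y + vec s) (i0 hd) = y (i0 hd) := by
  simp only [vec, Pi.add_apply]
  rw [Pi.single_eq_of_ne (Ne.symm hs), add_zero]

open Classical in
/-- correction factor: `1-δ` next (along the first axis) to a visited site -/
noncomputable def cc (hd : 2 ≤ d) (δ : ℝ) (A : Set (Site d)) (y : Site d) : ℝ :=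
  if y + vec (i0 hd, true) ∈ A ∨ y + vec (i0 hd, false) ∈ A then 1 - δ else 1

/-- weight of an active frog at `y` -/
noncomputable def W (hd : 2 ≤ d) (θ δ : ℝ) (A : Set (Site d)) (y : Site d) : ℝ≥0∞ :=
  ENNReal.ofReal (cc hd δ A y * θ ^ (y (i0 hd)))

/-- correction factor of a direction -/
noncomputable def dc (hd : 2 ≤ d) (δ : ℝ) (s : Dir d) : ℝ := if s.1 = i0 hd then 1 - δ else 1

/-- weight after a step -/
noncomputable def D (hd : 2 ≤ d) (θ δ : ℝ) (s : Dir d) (y : Site d) : ℝ≥0∞ :=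
  ENNReal.ofReal (dc hd δ s * θ ^ ((y + vec s) (i0 hd)))

open Classical in
/-- weight after a step, with the newly activated frog -/
noncomputable def F (hd : 2 ≤ d) (θ δ : ℝ) (A : Set (Site d)) (y : Site d) (s : Dir d) : ℝ≥0∞ :=
  D hd θ δ s y * (if y + vec s ∈ A then 1 else 2)

open Classical in
/-- total weight -/
noncomputable def Phi (hd : 2 ≤ d) (θ δ : ℝ) (t : ℕ) (ω : Site d × ℕ → Dir d) : ℝ≥0∞ :=
  ∑' x, ∑' y, if pos ω t x = some y then W hd θ δ (Act ω t) y else 0

lemma W_le_D (hd : 2 ≤ d) {θ δ : ℝ} (hθ : 0 < θ) (hδ : 0 ≤ δ) {ω : Site d × ℕ → Dir d} {t : ℕ}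
    {z y : Site d} (h : pos ω t z = some y) :
    W hd θ δ (Act ω (t+1)) (y + vec (ω (z, t))) ≤ D hd θ δ (ω (z, t)) y := by
  have hy : y ∈ Act ω (t+1) := Act_mono ω t (mem_Act_of_pos ω t h)
  unfold W D
  refine ENNReal.ofReal_le_ofReal ?_
  refine mul_le_mul_of_nonneg_right ?_ (zpow_nonneg hθ.le _)
  unfold cc dc
  by_cases hs : (ω (z, t)).1 = i0 hd
  · rw [if_pos hs, if_pos]
    have hs2 : ω (z, t) = (i0 hd, (ω (z, t)).2) := by rw [← hs]
    have key := vec_cancel hd y (ω (z, t)).2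
    rw [← hs2] at key
    cases hb : (ω (z, t)).2
    · left
      rw [hb] at key
      simp only [Bool.not_false] at key
      rw [key]; exact hy
    · right
      rw [hb] at key
      simp only [Bool.not_true] at key
      rw [key]; exact hy
  · rw [if_neg hs]
    split_ifs <;> linarith

open Classical in
lemma Phi_succ_le (hd : 2 ≤ d) {θ δ : ℝ} (hθ : 0 < θ) (hδ : 0 ≤ δ) (ω : Site d × ℕ → Dir d) (t : ℕ) :
    Phi hd θ δ (t+1) ω ≤
      ∑' x, ∑' y, if pos ω t x = some y then F hd θ δ (Act ω t) y (ω (x, t)) else 0 := by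
  have key : ∀ x : Site d, (∑' y, if pos ω (t+1) x = some y then W hd θ δ (Act ω (t+1)) y else 0) ≤
      (∑' y, if pos ω t x = some y then D hd θ δ (ω (x, t)) y else 0) +
      ∑' z, ∑' y, if (pos ω t z = some y ∧ y + vec (ω (z, t)) = x ∧ x ∉ Act ω t) then
        D hd θ δ (ω (z, t)) y else 0 := by
    intro x
    rcases h : pos ω t x with _ | y0
    · rcases h2 : pos ω (t+1) x with _ | y
      · simp
      · obtain ⟨rfl, z, y', h3, h4⟩ := pos_succ_of_none h h2
        have hx : y ∉ Act ω t := by simp [Act, h]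
        rw [tsum_eq_single y (by
          intro b hb
          rw [if_neg]
          intro hh
          exact hb (Option.some.inj hh).symm), if_pos rfl]
        refine le_trans ?_ le_add_self
        refine le_trans ?_ (ENNReal.le_tsum z)
        refine le_trans ?_ (ENNReal.le_tsum y')
        rw [if_pos ⟨h3, h4, hx⟩]
        have := W_le_D hd hθ hδ h3
        rwa [h4] at this
    · rw [pos_succ_of_some h]
      rw [tsum_eq_single (y0 + vec (ω (x, t))) (by
          intro b hb
          rw [if_neg]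
          intro hh
          exact hb (Option.some.inj hh).symm), if_pos rfl]
      refine le_trans ?_ le_self_add
      refine le_trans ?_ (ENNReal.le_tsum y0)
      rw [if_pos rfl]
      exact W_le_D hd hθ hδ h
  unfold Phi
  refine (ENNReal.tsum_le_tsum key).trans ?_
  rw [ENNReal.tsum_add]
  have e1 : (∑' x : Site d, ∑' z, ∑' y, if (pos ω t z = some y ∧ y + vec (ω (z, t)) = x ∧ x ∉ Act ω t) then
        D hd θ δ (ω (z, t)) y else 0) =
      ∑' z, ∑' y, if pos ω t z = some y then (if y + vec (ω (z, t)) ∈ Act ω t then 0 else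
        D hd θ δ (ω (z, t)) y) else 0 := by
    rw [ENNReal.tsum_comm]
    refine tsum_congr fun z => ?_
    rw [ENNReal.tsum_comm]
    refine tsum_congr fun y => ?_
    rw [tsum_eq_single (y + vec (ω (z, t)))]
    · by_cases h1 : pos ω t z = some y
      · by_cases h2 : y + vec (ω (z, t)) ∈ Act ω t
        · simp [h1, h2]
        · simp [h1, h2]
      · simp [h1]
    · intro x hx
      rw [if_neg]
      rintro ⟨_, h, _⟩
      exact hx h.symm
  rw [e1, ← ENNReal.tsum_add]
  refine le_of_eq (tsum_congr fun x => ?_)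
  rw [← ENNReal.tsum_add]
  refine tsum_congr fun y => ?_
  unfold F
  by_cases h1 : pos ω t x = some y
  · rw [if_pos h1, if_pos h1, if_pos h1]
    by_cases h2 : y + vec (ω (x, t)) ∈ Act ω t
    · rw [if_pos h2, if_pos h2]; simp
    · rw [if_neg h2, if_neg h2, mul_two]
  · rw [if_neg h1, if_neg h1, if_neg h1, add_zero]

/-- one-step inequality -/
lemma one_step (hd : 2 ≤ d) {θ δ κ : ℝ} (w α : unitInterval) (hθ : 0 < θ) (hδ : 0 ≤ δ) (hδ1 : δ < 1)
    {σ : ℝ} (hs1 : (1 + (α:ℝ)) * θ = σ) (hs2 : (1 - (α:ℝ)) * θ⁻¹ = σ) 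
    (h1 : 2 * (1 - (w:ℝ)) + 2 * (1 - δ) * w * σ ≤ κ)
    (h2 : 2 * (1 - (w:ℝ)) + 3/2 * (1 - δ) * w * σ ≤ κ * (1 - δ)) (A : Set (Site d)) (y : Site d) :
    ∑ s, ENNReal.ofReal (weight d w α s) * F hd θ δ A y s ≤ ENNReal.ofReal κ * W hd θ δ A y := by
  classical
  have hσ : 0 ≤ σ := by rw [← hs1]; exact mul_nonneg (by linarith [α.2.1]) hθ.le
  have hw0 := w.2.1
  have hw1 := w.2.2
  have hκ : 0 ≤ κ := by
    have : 0 ≤ 2 * (1 - δ) * w * σ := by
      refine mul_nonneg (mul_nonneg ?_ hw0) hσ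
      linarith
    linarith
  set m : Dir d → ℝ := fun s => if y + vec s ∈ A then 1 else 2 with hm
  have hm2 : ∀ s, m s ≤ 2 := by intro s; simp only [hm]; split_ifs <;> norm_num
  have hm0 : ∀ s, 0 ≤ m s := by intro s; simp only [hm]; split_ifs <;> norm_num
  have hF : ∀ s, F hd θ δ A y s = ENNReal.ofReal (dc hd δ s * θ ^ ((y + vec s) (i0 hd)) * m s) := by
    intro s
    unfold F D
    have hnn : 0 ≤ dc hd δ s * θ ^ ((y + vec s) (i0 hd)) := by
      refine mul_nonneg ?_ (zpow_nonneg hθ.le _)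
      unfold dc; split_ifs <;> linarith
    rw [ENNReal.ofReal_mul hnn]
    congr 1
    simp only [hm]
    split_ifs <;> simp
  have hFn : ∀ s, 0 ≤ dc hd δ s * θ ^ ((y + vec s) (i0 hd)) * m s := by
    intro s
    refine mul_nonneg (mul_nonneg ?_ (zpow_nonneg hθ.le _)) (hm0 s)
    unfold dc; split_ifs <;> linarith
  simp_rw [hF]
  have hsum : ∑ s, ENNReal.ofReal (weight d w α s) *
      ENNReal.ofReal (dc hd δ s * θ ^ ((y + vec s) (i0 hd)) * m s) =
      ENNReal.ofReal (∑ s, weight d w α s * (dc hd δ s * θ ^ ((y + vec s) (i0 hd)) * m s)) := by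
    rw [ENNReal.ofReal_sum_of_nonneg]
    · refine Finset.sum_congr rfl fun s _ => ?_
      rw [ENNReal.ofReal_mul (weight_nonneg hd w α s)]
    · intro s _
      exact mul_nonneg (weight_nonneg hd w α s) (hFn s)
  rw [hsum]
  unfold W
  rw [← ENNReal.ofReal_mul hκ]
  refine ENNReal.ofReal_le_ofReal ?_
  set u : ℝ := θ ^ (y (i0 hd)) with hu
  have hu0 : 0 < u := zpow_pos hθ _
  have hup : θ ^ (y (i0 hd) + 1) = u * θ := by rw [zpow_add₀ hθ.ne', zpow_one]
  have hum : θ ^ (y (i0 hd) + -1) = u * θ⁻¹ := by rw [zpow_add₀ hθ.ne', zpow_neg_one]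
  set mp := m (i0 hd, true) with hmp
  set mm := m (i0 hd, false) with hmm
  have hbound : ∀ s : Dir d, dc hd δ s * θ ^ ((y + vec s) (i0 hd)) * m s ≤
      2 * u + (if s = (i0 hd, true) then (1 - δ) * (u * θ) * mp - 2 * u else 0) +
        (if s = (i0 hd, false) then (1 - δ) * (u * θ⁻¹) * mm - 2 * u else 0) := by
    rintro ⟨j, b⟩
    by_cases hj : j = i0 hd
    · subst hj
      cases b
      · rw [if_neg (by simp), if_pos rfl, vec_i0]
        simp only [dc, Bool.false_eq_true, if_false, if_true]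
        rw [hum]
        linarith
      · rw [if_pos rfl, if_neg (by simp), vec_i0]
        simp only [dc, if_true]
        rw [hup]
        linarith
    · rw [if_neg (by simp [hj]), if_neg (by simp [hj]), vec_other hd y _ hj]
      simp only [dc, hj, if_false, one_mul, add_zero]
      rw [mul_comm]
      exact mul_le_mul_of_nonneg_right (hm2 _) hu0.le
  have hwp : weight d w α (i0 hd, true) = w * (1 + α) / 2 := by simp [weight, i0]
  have hwm : weight d w α (i0 hd, false) = w * (1 - α) / 2 := by simp [weight, i0]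
  have hS : ∑ s, weight d w α s * (dc hd δ s * θ ^ ((y + vec s) (i0 hd)) * m s) ≤
      2 * u + (w * (1 + α) / 2) * ((1 - δ) * (u * θ) * mp - 2 * u) +
        (w * (1 - α) / 2) * ((1 - δ) * (u * θ⁻¹) * mm - 2 * u) := by
    calc ∑ s, weight d w α s * (dc hd δ s * θ ^ ((y + vec s) (i0 hd)) * m s)
        ≤ ∑ s, weight d w α s * (2 * u + (if s = (i0 hd, true) then (1 - δ) * (u * θ) * mp - 2 * u else 0) +
        (if s = (i0 hd, false) then (1 - δ) * (u * θ⁻¹) * mm - 2 * u else 0)) :=
          Finset.sum_le_sum fun s _ => mul_le_mul_of_nonneg_left (hbound s) (weight_nonneg hd w α s)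
      _ = _ := by
          simp only [mul_add, Finset.sum_add_distrib, mul_ite, mul_zero, Finset.sum_ite_eq',
            Finset.mem_univ, if_true]
          rw [← Finset.sum_mul, sum_weight hd, hwp, hwm]
          ring
  refine hS.trans ?_
  have hE : 2 * u + (w * (1 + α) / 2) * ((1 - δ) * (u * θ) * mp - 2 * u) +
        (w * (1 - α) / 2) * ((1 - δ) * (u * θ⁻¹) * mm - 2 * u) =
      u * (2 * (1 - (w:ℝ)) + (1 - δ) * (w * σ / 2) * (mp + mm)) := by
    have e1 : (w:ℝ) * (1 + α) / 2 * ((1 - δ) * (u * θ) * mp) = u * ((1 - δ) * (w * σ / 2) * mp) := by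
      rw [← hs1]; ring
    have e2 : (w:ℝ) * (1 - α) / 2 * ((1 - δ) * (u * θ⁻¹) * mm) = u * ((1 - δ) * (w * σ / 2) * mm) := by
      rw [← hs2]; ring
    rw [mul_sub, mul_sub, e1, e2]
    ring
  rw [hE]
  have hq : 0 ≤ (1 - δ) * (w * σ / 2) := by
    refine mul_nonneg (by linarith) (div_nonneg (mul_nonneg hw0 hσ) (by norm_num))
  unfold cc
  split_ifs with hc
  · have h3 : mp + mm ≤ 3 := by
      rcases hc with hc | hc
      · have : mp = 1 := by simp only [hmp, hm]; rw [if_pos hc]
        have := hm2 (i0 hd, false)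
        linarith
      · have : mm = 1 := by simp only [hmm, hm]; rw [if_pos hc]
        have := hm2 (i0 hd, true)
        linarith
    have h4 : (1 - δ) * (w * σ / 2) * (mp + mm) ≤ (1 - δ) * (w * σ / 2) * 3 :=
      mul_le_mul_of_nonneg_left h3 hq
    calc u * (2 * (1 - (w:ℝ)) + (1 - δ) * (w * σ / 2) * (mp + mm))
        ≤ u * (κ * (1 - δ)) := by
          refine mul_le_mul_of_nonneg_left ?_ hu0.le
          linarith
      _ = κ * ((1 - δ) * u) := by ring
  · have h3 : mp + mm ≤ 4 := by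
      have := hm2 (i0 hd, false)
      have := hm2 (i0 hd, true)
      linarith
    have h4 : (1 - δ) * (w * σ / 2) * (mp + mm) ≤ (1 - δ) * (w * σ / 2) * 4 :=
      mul_le_mul_of_nonneg_left h3 hq
    calc u * (2 * (1 - (w:ℝ)) + (1 - δ) * (w * σ / 2) * (mp + mm))
        ≤ u * κ := by
          refine mul_le_mul_of_nonneg_left ?_ hu0.le
          linarith
      _ = κ * (1 * u) := by ring

end Pool.Agent.H96.Frog
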