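import Pool.Agent.H96.FrogB

set_option autoImplicit false
open MeasureTheory ProbabilityTheory Filter Topology
open scoped ENNReal

namespace Pool.Agent.H96.Frog

variable {d : ℕ}

lemma measurable_W (hd : 2 ≤ d) (θ δ : ℝ) (t : ℕ) (y : Site d) :
    Measurable (fun ω : Site d × ℕ → Dir d => W hd θ δ (Act ω t) y) := by
  classical
  have : (fun ω : Site d × ℕ → Dir d => W hd θ δ (Act ω t) y) = fun ω =>
      if ω ∈ ({ω | y + vec (i0 hd, true) ∈ Act ω t} ∪ {ω | y + vec (i0 hd, false) ∈ Act ω t}) then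
        ENNReal.ofReal ((1 - δ) * θ ^ (y (i0 hd))) else ENNReal.ofReal (1 * θ ^ (y (i0 hd))) := by
    funext ω
    unfold W cc
    simp only [Set.mem_union, Set.mem_ofPred_eq]
    split_ifs <;> rfl
  rw [this]
  exact Measurable.ite ((measurable_Act t _).union (measurable_Act t _)) measurable_const measurable_const

lemma measurable_F (hd : 2 ≤ d) (θ δ : ℝ) (t : ℕ) (y : Site d) (s : Dir d) :
    Measurable (fun ω : Site d × ℕ → Dir d => F hd θ δ (Act ω t) y s) := by
  classical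
  have : (fun ω : Site d × ℕ → Dir d => F hd θ δ (Act ω t) y s) = fun ω =>
      D hd θ δ s y * if ω ∈ {ω | y + vec s ∈ Act ω t} then 1 else 2 := by
    funext ω
    unfold F
    simp only [Set.mem_ofPred_eq]
  rw [this]
  exact Measurable.const_mul (Measurable.ite (measurable_Act t _) measurable_const measurable_const) _

open Classical in
lemma measurable_G (hd : 2 ≤ d) (θ δ : ℝ) (t : ℕ) (x y : Site d) :
    Measurable (fun ω : Site d × ℕ → Dir d =>
      if pos ω t x = some y then F hd θ δ (Act ω t) y (ω (x, t)) else 0) := by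
  have : (fun ω : Site d × ℕ → Dir d =>
      if pos ω t x = some y then F hd θ δ (Act ω t) y (ω (x, t)) else 0) = fun ω =>
      ∑ s : Dir d, if ω ∈ ({ω | pos ω t x = some y} ∩ {ω | ω (x, t) = s}) then
        F hd θ δ (Act ω t) y s else 0 := by
    funext ω
    simp only [Set.mem_inter_iff, Set.mem_ofPred_eq]
    by_cases h : pos ω t x = some y
    · simp [h]
    · simp [h]
  rw [this]
  refine Finset.measurable_fun_sum _ fun s _ => ?_
  refine Measurable.ite ((measurable_pos t x _).inter ?_) (measurable_F hd θ δ t y s) measurable_const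
  have h : Measurable (fun ω : Site d × ℕ → Dir d => ω (x, t)) := measurable_pi_apply _
  exact h (measurableSet_singleton s)

open Classical in
lemma measurable_GW (hd : 2 ≤ d) (θ δ : ℝ) (t : ℕ) (x y : Site d) :
    Measurable (fun ω : Site d × ℕ → Dir d =>
      if pos ω t x = some y then W hd θ δ (Act ω t) y else 0) := by
  have : (fun ω : Site d × ℕ → Dir d =>
      if pos ω t x = some y then W hd θ δ (Act ω t) y else 0) = fun ω =>
      if ω ∈ {ω | pos ω t x = some y} then W hd θ δ (Act ω t) y else 0 := by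
    funext ω
    simp only [Set.mem_ofPred_eq]
  rw [this]
  exact Measurable.ite (measurable_pos t x _) (measurable_W hd θ δ t y) measurable_const

/-- the expected weight contracts -/
lemma lint_Phi_succ (hd : 2 ≤ d) {θ δ κ : ℝ} (w α : unitInterval) (hθ : 0 < θ) (hδ : 0 ≤ δ)
    (hδ1 : δ < 1) {σ : ℝ} (hs1 : (1 + (α:ℝ)) * θ = σ) (hs2 : (1 - (α:ℝ)) * θ⁻¹ = σ)
    (h1 : 2 * (1 - (w:ℝ)) + 2 * (1 - δ) * w * σ ≤ κ)
    (h2 : 2 * (1 - (w:ℝ)) + 3/2 * (1 - δ) * w * σ ≤ κ * (1 - δ)) (t : ℕ) :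
    ∫⁻ ω, Phi hd θ δ (t+1) ω ∂(law d hd w α) ≤
      ENNReal.ofReal κ * ∫⁻ ω, Phi hd θ δ t ω ∂(law d hd w α) := by
  classical
  refine (lintegral_mono (Phi_succ_le hd hθ hδ · t)).trans ?_
  rw [lintegral_tsum (fun x => (Measurable.tsum fun y => measurable_G hd θ δ t x y).aemeasurable)]
  unfold Phi
  rw [lintegral_tsum (fun x => (Measurable.tsum fun y => measurable_GW hd θ δ t x y).aemeasurable),
    ← ENNReal.tsum_mul_left]
  refine ENNReal.tsum_le_tsum fun x => ?_
  rw [lintegral_tsum (fun y => (measurable_G hd θ δ t x y).aemeasurable),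
    lintegral_tsum (fun y => (measurable_GW hd θ δ t x y).aemeasurable), ← ENNReal.tsum_mul_left]
  refine ENNReal.tsum_le_tsum fun y => ?_
  rw [lint_resample hd w α (x, t) _ (measurable_G hd θ δ t x y),
    ← lintegral_const_mul _ (measurable_GW hd θ δ t x y)]
  refine lintegral_mono fun ω => ?_
  have e : ∀ s, pos (Function.update ω (x, t) s) t = pos ω t := fun s => pos_update ω t x s t le_rfl
  have e2 : ∀ s, Act (Function.update ω (x, t) s) t = Act ω t := by
    intro s; unfold Act; rw [e s]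
  simp only [e, e2, Function.update_self]
  by_cases h : pos ω t x = some y
  · simp only [h, if_true]
    exact one_step hd w α hθ hδ hδ1 hs1 hs2 h1 h2 _ y
  · simp [h]

lemma Phi_zero (hd : 2 ≤ d) {θ δ : ℝ} (hδ : 0 ≤ δ) (ω : Site d × ℕ → Dir d) :
    Phi hd θ δ 0 ω ≤ 1 := by
  classical
  unfold Phi
  rw [tsum_eq_single 0, tsum_eq_single 0]
  · rw [if_pos (by simp [pos])]
    unfold W
    rw [← ENNReal.ofReal_one]
    refine ENNReal.ofReal_le_ofReal ?_
    unfold cc
    simp only [Pi.zero_apply, zpow_zero, mul_one]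
    split_ifs <;> linarith
  · intro y hy
    rw [if_neg]
    simp only [pos, if_true, Option.some.injEq]
    exact fun h => hy h.symm
  · intro x hx
    simp [pos, hx]

lemma lint_Phi (hd : 2 ≤ d) {θ δ κ : ℝ} (w α : unitInterval) (hθ : 0 < θ) (hδ : 0 ≤ δ)
    (hδ1 : δ < 1) {σ : ℝ} (hs1 : (1 + (α:ℝ)) * θ = σ) (hs2 : (1 - (α:ℝ)) * θ⁻¹ = σ)
    (h1 : 2 * (1 - (w:ℝ)) + 2 * (1 - δ) * w * σ ≤ κ)
    (h2 : 2 * (1 - (w:ℝ)) + 3/2 * (1 - δ) * w * σ ≤ κ * (1 - δ)) (t : ℕ) :
    ∫⁻ ω, Phi hd θ δ t ω ∂(law d hd w α) ≤ ENNReal.ofReal κ ^ t := by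
  have hP : IsProbabilityMeasure (law d hd w α) := by unfold law; infer_instance
  induction t with
  | zero =>
    refine (lintegral_mono (Phi_zero hd hδ)).trans ?_
    simp
  | succ t ih =>
    refine (lint_Phi_succ hd w α hθ hδ hδ1 hs1 hs2 h1 h2 t).trans ?_
    rw [pow_succ, mul_comm (ENNReal.ofReal κ ^ t)]
    gcongr

lemma visit_le (hd : 2 ≤ d) {θ δ : ℝ} (hδ : 0 ≤ δ) (t : ℕ) (ω : Site d × ℕ → Dir d)
    (h : Visit ω t) : ENNReal.ofReal (1 - δ) ≤ Phi hd θ δ t ω := by
  classical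
  obtain ⟨x, hx⟩ := h
  unfold Phi
  refine le_trans ?_ (ENNReal.le_tsum x)
  refine le_trans ?_ (ENNReal.le_tsum 0)
  rw [if_pos hx]
  unfold W
  refine ENNReal.ofReal_le_ofReal ?_
  unfold cc
  simp only [Pi.zero_apply, zpow_zero, mul_one]
  split_ifs <;> linarith

/-- transience from the contraction -/
lemma finite_visits (hd : 2 ≤ d) {θ δ κ : ℝ} (w α : unitInterval) (hθ : 0 < θ) (hδ : 0 ≤ δ)
    (hδ1 : δ < 1) (hκ : κ < 1) {σ : ℝ} (hs1 : (1 + (α:ℝ)) * θ = σ) (hs2 : (1 - (α:ℝ)) * θ⁻¹ = σ)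
    (h1 : 2 * (1 - (w:ℝ)) + 2 * (1 - δ) * w * σ ≤ κ)
    (h2 : 2 * (1 - (w:ℝ)) + 3/2 * (1 - δ) * w * σ ≤ κ * (1 - δ)) :
    ∀ᵐ ω ∂(law d hd w α), {t : ℕ | Visit ω t}.Finite := by
  have hc : ENNReal.ofReal (1 - δ) ≠ 0 := by
    simp only [ne_eq, ENNReal.ofReal_eq_zero, not_le]; linarith
  have hb : ∀ t, law d hd w α {ω | Visit ω t} ≤ (ENNReal.ofReal (1 - δ))⁻¹ * ENNReal.ofReal κ ^ t := by
    intro t
    have hm : Measurable (Phi hd θ δ t) := by
      unfold Phi
      exact Measurable.tsum fun x => Measurable.tsum fun y => measurable_GW hd θ δ t x y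
    have h3 := mul_meas_ge_le_lintegral (μ := law d hd w α) hm (ENNReal.ofReal (1 - δ))
    have h4 : law d hd w α {ω | Visit ω t} ≤
        law d hd w α {ω | ENNReal.ofReal (1 - δ) ≤ Phi hd θ δ t ω} :=
      measure_mono fun ω hω => visit_le hd hδ t ω hω
    refine h4.trans ?_
    rw [← ENNReal.mul_le_mul_iff_right hc ENNReal.ofReal_ne_top, ← mul_assoc,
      ENNReal.mul_inv_cancel hc ENNReal.ofReal_ne_top, one_mul]
    exact h3.trans (lint_Phi hd w α hθ hδ hδ1 hs1 hs2 h1 h2 t)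
  have hsum : ∑' t, law d hd w α {ω | Visit ω t} ≠ ∞ := by
    refine ne_top_of_le_ne_top ?_ (ENNReal.tsum_le_tsum hb)
    rw [ENNReal.tsum_mul_left]
    refine ENNReal.mul_ne_top (ENNReal.inv_ne_top.mpr hc) ?_
    rw [ENNReal.tsum_geometric]
    refine ENNReal.inv_ne_top.mpr ?_
    have : ENNReal.ofReal κ < 1 := by
      rw [← ENNReal.ofReal_one]
      exact (ENNReal.ofReal_lt_ofReal_iff one_pos).mpr hκ
    exact (tsub_pos_iff_lt.mpr this).ne'
  filter_upwards [ae_eventually_notMem hsum] with ω hω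
  obtain ⟨N, hN⟩ := eventually_atTop.mp hω
  refine (Set.finite_lt_nat N).subset fun t ht => ?_
  by_contra hcon
  exact hN t (not_lt.mp hcon) ht

lemma not_recurrent_of_finite (hd : 2 ≤ d) (w α : unitInterval)
    (h : ∀ᵐ ω ∂(law d hd w α), {t : ℕ | Visit ω t}.Finite) : ¬ Recurrent d hd w α := by
  intro hr
  have hP : IsProbabilityMeasure (law d hd w α) := by unfold law; infer_instance
  have : ∀ᵐ ω ∂(law d hd w α), False := by
    filter_upwards [h, hr] with ω h1 h2
    exact h2 h1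
  rw [ae_iff] at this
  simp at this

end Pool.Agent.H96.Frog
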