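import Mathlib

set_option autoImplicit false
open MeasureTheory ProbabilityTheory Filter Topology
open scoped ENNReal

namespace Pool.Agent.H96.Frog

/-- The lattice `ℤ^d`. -/
abbrev Site (d : ℕ) := Fin d → ℤ

/-- A nearest-neighbour direction: a coordinate and a sign (`true` is plus). -/
abbrev Dir (d : ℕ) := Fin d × Bool

/-- The unit vector `± e_j` of a direction. -/
def vec {d : ℕ} (s : Dir d) : Site d := Pi.single s.1 (if s.2 then 1 else -1)

/-- The step law `π_{w,α}`: mass `w(1+α)/2` for `e_1`, `w(1-α)/2` for `-e_1`, and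
`(1-w)/(2(d-1))` for each other direction. -/
noncomputable def weight (d : ℕ) (w α : ℝ) (s : Dir d) : ℝ :=
  if s.1.val = 0 then (if s.2 then w * (1 + α) / 2 else w * (1 - α) / 2)
  else (1 - w) / (2 * ((d : ℝ) - 1))

lemma weight_nonneg {d : ℕ} (hd : 2 ≤ d) (w α : unitInterval) (s : Dir d) :
    0 ≤ weight d w α s := by
  have h1 := w.2.1
  have h2 := w.2.2
  have h3 := α.2.1
  have h4 := α.2.2
  have h5 : (2:ℝ) ≤ d := by exact_mod_cast hd
  unfold weight
  split_ifs
  · exact div_nonneg (mul_nonneg h1 (by linarith)) (by norm_num)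
  · exact div_nonneg (mul_nonneg h1 (by linarith)) (by norm_num)
  · exact div_nonneg (by linarith) (by linarith)

lemma sum_weight {d : ℕ} (hd : 2 ≤ d) (w α : ℝ) : ∑ s : Dir d, weight d w α s = 1 := by
  obtain ⟨m, rfl⟩ : ∃ m, d = m + 2 := ⟨d - 2, by omega⟩
  rw [Fintype.sum_prod_type, Fin.sum_univ_succ]
  simp only [Fintype.sum_bool, weight, Fin.val_zero, if_true, Fin.val_succ, Nat.succ_ne_zero,
    if_false, Finset.sum_const, Finset.card_univ, Fintype.card_fin, nsmul_eq_mul, Bool.false_eq_true]
  push_cast
  have e : ((m:ℝ) + 2 - 1) = m + 1 := by ring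
  have : (m:ℝ) + 1 ≠ 0 := by positivity
  simp only [e, Fintype.card_bool]
  field_simp
  push_cast
  ring

/-- The step law as a probability mass function. -/
noncomputable def stepPMF (d : ℕ) (hd : 2 ≤ d) (w α : unitInterval) : PMF (Dir d) :=
  PMF.ofFintype (fun s => ENNReal.ofReal (weight d w α s)) (by
    rw [← ENNReal.ofReal_sum_of_nonneg (fun s _ => weight_nonneg hd w α s), sum_weight hd,
      ENNReal.ofReal_one])

/-- The law of the driving randomness: an independent step with law `π_{w,α}` for every frog
(labelled by its starting site) and every time. -/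
noncomputable def law (d : ℕ) (hd : 2 ≤ d) (w α : unitInterval) : Measure (Site d × ℕ → Dir d) :=
  Measure.infinitePi (fun _ => (stepPMF d hd w α).toMeasure)

open Classical in
/-- The frog model: `pos ω t x` is the position at time `t` of the frog that starts at `x`, or
`none` while it sleeps. At time `0` only the frog of the origin is active. At each time an active
frog makes the step `ω (x, t)`; a sleeping frog is activated (at its own site) when some active
frog steps onto its site. -/
noncomputable def pos {d : ℕ} (ω : Site d × ℕ → Dir d) : ℕ → Site d → Option (Site d)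
  | 0, x => if x = 0 then some 0 else none
  | t + 1, x =>
    match pos ω t x with
    | some y => some (y + vec (ω (x, t)))
    | none => if ∃ z y, pos ω t z = some y ∧ y + vec (ω (z, t)) = x then some x else none

/-- The origin is occupied by an active frog at time `t`. -/
def Visit {d : ℕ} (ω : Site d × ℕ → Dir d) (t : ℕ) : Prop := ∃ x, pos ω t x = some 0

/-- `FM(d, π_{w,α})` is recurrent: almost surely the origin is visited infinitely often. -/
def Recurrent (d : ℕ) (hd : 2 ≤ d) (w α : unitInterval) : Prop :=
  ∀ᵐ ω ∂(law d hd w α), {t : ℕ | Visit ω t}.Infinite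

/-- `f` is a critical curve for dimension `d`. -/
def IsCriticalCurve (d : ℕ) (hd : 2 ≤ d) (f : unitInterval → unitInterval) : Prop :=
  Antitone f ∧ ∀ w α : unitInterval,
    (w < f α → Recurrent d hd w α) ∧ (f α < w → ¬ Recurrent d hd w α)

/-- `g(α) = min(1, 1/(2(1-√(1-α²))))`, with `g(0) = 1`. -/
noncomputable def g (α : ℝ) : ℝ :=
  if α = 0 then 1 else min 1 (2 * (1 - √(1 - α ^ 2)))⁻¹

end Pool.Agent.H96.Frog
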