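import Mathlib

set_option autoImplicit false
open MeasureTheory ProbabilityTheory Filter Topology
open scoped ENNReal NNReal

namespace Pool.Agent.H96.Kac

/-- law of an iid standard Gaussian sequence -/
noncomputable def P : Measure (ℕ → ℝ) := Measure.infinitePi (fun _ => gaussianReal 0 1)

instance : IsProbabilityMeasure P := by unfold P; infer_instance

lemma P_indep : iIndepFun (fun (i : ℕ) (ω : ℕ → ℝ) => ω i) P := by
  unfold P
  exact iIndepFun_infinitePi (X := fun _ ω => ω) (by fun_prop)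

lemma P_eval (i : ℕ) : P.map (fun ω => ω i) = gaussianReal 0 1 := by
  unfold P
  exact Measure.infinitePi_map_eval _ i

lemma P_gauss (i : ℕ) : HasGaussianLaw (fun ω : ℕ → ℝ => ω i) P where
  isGaussian_map := by rw [P_eval]; infer_instance

/-- linear functional of the first `n` coordinates -/
def lin (n : ℕ) (b : ℕ → ℝ) (v : ℕ → ℝ) : ℝ := ∑ i ∈ Finset.range n, b i * v i

lemma measurable_lin (n : ℕ) (b : ℕ → ℝ) : Measurable (lin n b) := by
  unfold lin; fun_prop

lemma gauss_fin (n : ℕ) : HasGaussianLaw (fun (ω : ℕ → ℝ) (i : Fin n) => ω i) P := by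
  have h : iIndepFun (fun (i : Fin n) (ω : ℕ → ℝ) => ω i) P :=
    P_indep.precomp (g := fun i : Fin n => (i : ℕ)) Fin.val_injective
  exact h.hasGaussianLaw (fun i => P_gauss i)

lemma gauss_lin2 (n : ℕ) (b c : ℕ → ℝ) :
    HasGaussianLaw (fun v : ℕ → ℝ => (lin n b v, lin n c v)) P := by
  have h := gauss_fin n
  let L1 : (Fin n → ℝ) →L[ℝ] ℝ := ∑ i : Fin n, (b i) • ContinuousLinearMap.proj (R := ℝ) (φ := fun _ => ℝ) i
  let L2 : (Fin n → ℝ) →L[ℝ] ℝ := ∑ i : Fin n, (c i) • ContinuousLinearMap.proj (R := ℝ) (φ := fun _ => ℝ) i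
  have h2 := h.map_fun (L1.prod L2)
  have : (fun v : ℕ → ℝ => (lin n b v, lin n c v)) =
      fun ω : ℕ → ℝ => (L1.prod L2) (fun i : Fin n => ω i) := by
    funext v
    simp [L1, L2, lin, Finset.sum_range]
  rw [this]
  exact h2

lemma gauss_lin (n : ℕ) (b : ℕ → ℝ) : HasGaussianLaw (lin n b) P := by
  exact (gauss_lin2 n b b).fst

lemma P_memLp (i : ℕ) : MemLp (fun ω : ℕ → ℝ => ω i) 2 P := (P_gauss i).memLp_two

lemma lin_memLp (n : ℕ) (b : ℕ → ℝ) : MemLp (lin n b) 2 P := (gauss_lin n b).memLp_two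

lemma P_mean (i : ℕ) : ∫ ω : ℕ → ℝ, ω i ∂P = 0 := by
  have h1 : ∫ x, x ∂(P.map (fun ω => ω i)) = 0 := by
    rw [P_eval]; exact integral_id_gaussianReal
  rwa [integral_map (measurable_pi_apply i).aemeasurable (by fun_prop)] at h1

lemma P_var (i : ℕ) : Var[fun ω : ℕ → ℝ => ω i; P] = 1 := by
  have h1 : Var[fun x => x; P.map (fun ω => ω i)] = 1 := by
    rw [P_eval]
    rw [variance_fun_id_gaussianReal]
    simp
  have h2 := variance_map (μ := P) (X := fun x : ℝ => x) (Y := fun ω : ℕ → ℝ => ω i) (by fun_prop)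
    (measurable_pi_apply i).aemeasurable
  rw [h2] at h1
  exact h1

lemma P_cov (i j : ℕ) : cov[fun ω : ℕ → ℝ => ω i, fun ω : ℕ → ℝ => ω j; P] = if i = j then 1 else 0 := by
  split_ifs with h
  · subst h
    rw [covariance_self (measurable_pi_apply i).aemeasurable]
    exact P_var i
  · exact (P_indep.indepFun h).covariance_eq_zero (P_memLp i) (P_memLp j)

lemma lin_mean (n : ℕ) (b : ℕ → ℝ) : ∫ v, lin n b v ∂P = 0 := by
  unfold lin
  rw [integral_finsetSum]
  · refine Finset.sum_eq_zero fun i _ => ?_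
    rw [integral_const_mul, P_mean, mul_zero]
  · intro i _
    exact ((P_gauss i).integrable).const_mul _

lemma lin_cov (n : ℕ) (b c : ℕ → ℝ) :
    cov[lin n b, lin n c; P] = ∑ i ∈ Finset.range n, b i * c i := by
  have h := covariance_fun_sum_fun_sum' (μ := P) (s := Finset.range n) (t := Finset.range n)
    (X := fun i (v : ℕ → ℝ) => b i * v i) (Y := fun i (v : ℕ → ℝ) => c i * v i)
    (fun i _ => (P_memLp i).const_mul _) (fun i _ => (P_memLp i).const_mul _)
  have e1 : (lin n b) = fun v => ∑ i ∈ Finset.range n, b i * v i := rfl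
  have e2 : (lin n c) = fun v => ∑ i ∈ Finset.range n, c i * v i := rfl
  rw [e1, e2, h]
  refine Finset.sum_congr rfl fun i hi => ?_
  rw [Finset.sum_eq_single i]
  · rw [covariance_const_mul_left, covariance_const_mul_right, P_cov]
    simp
  · intro j _ hj
    rw [covariance_const_mul_left, covariance_const_mul_right, P_cov, if_neg hj.symm]
    simp
  · intro h; exact absurd hi h

lemma int1 : ∫ x in Set.Ioi (0:ℝ), x * Real.exp (-(1/2) * x^2) = 1 := by
  have h := integral_mul_cexp_neg_mul_sq (b := (1/2 : ℂ)) (by norm_num)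
  have h2 : ∫ (r : ℝ) in Set.Ioi 0, (r : ℂ) * Complex.exp (-(1/2 : ℂ) * (r : ℂ) ^ 2)
      = ((∫ x in Set.Ioi (0:ℝ), x * Real.exp (-(1/2) * x^2) : ℝ) : ℂ) := by
    rw [← integral_complex_ofReal]
    congr 1
    ext r
    push_cast
    ring_nf
  rw [h2] at h
  have h3 : ((2 * (1/2) : ℂ))⁻¹ = ((1:ℝ):ℂ) := by norm_num
  rw [h3] at h
  exact_mod_cast h

lemma int_abs : ∫ x, |x| ∂(gaussianReal 0 1) = √(2 / Real.pi) := by
  rw [integral_gaussianReal_eq_integral_smul (by norm_num)]
  have h : ∀ x : ℝ, gaussianPDFReal 0 1 x • |x| =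
      (fun y : ℝ => (√(2 * Real.pi))⁻¹ * (y * Real.exp (-(1/2) * y^2))) |x| := by
    intro x
    simp only [gaussianPDFReal_def, smul_eq_mul, sub_zero, NNReal.coe_one, mul_one, sq_abs]
    rw [show -x^2/2 = -(1/2) * x^2 by ring]
    ring
  simp_rw [h]
  rw [integral_comp_abs (f := fun y : ℝ => (√(2 * Real.pi))⁻¹ * (y * Real.exp (-(1/2) * y^2)))]
  rw [integral_const_mul, int1]
  have hpi := Real.pi_pos
  rw [mul_one, ← Real.sqrt_inv, show (2:ℝ) = √4 by
    rw [show (4:ℝ) = 2^2 by norm_num]; simp]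
  rw [← Real.sqrt_mul (by norm_num)]
  congr 1
  rw [show √4 = (2:ℝ) by rw [show (4:ℝ) = 2^2 by norm_num]; simp]
  field_simp
  norm_num

lemma integrable_abs_gauss (μ : ℝ) (v : ℝ≥0) : Integrable (fun x => |x|) (gaussianReal μ v) := by
  have h : MemLp id 1 (gaussianReal μ v) := memLp_id_gaussianReal 1
  have := (memLp_one_iff_integrable.mp h).abs
  exact this

/-- absolute first moment of a real Gaussian -/
lemma lint_abs (μ : ℝ) (v : ℝ≥0) :
    ∫⁻ y, ENNReal.ofReal |y| ∂(gaussianReal μ v) ≤ ENNReal.ofReal (|μ| + √(2 / Real.pi) * √v) := by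
  have h1 : gaussianReal μ v = (gaussianReal 0 1).map (fun y => √v * y + μ) := by
    have h2 := gaussianReal_map_const_mul (μ := 0) (v := 1) (√v)
    have h3 := gaussianReal_map_add_const (μ := 0) (v := v) μ
    have h4 : (NNReal.mk (√(v:ℝ) ^ 2) (sq_nonneg _) * 1 : ℝ≥0) = v := by
      rw [mul_one]
      apply NNReal.coe_injective
      simp
    rw [h4, mul_zero] at h2
    rw [zero_add] at h3
    rw [← h3, ← h2, Measure.map_map (by fun_prop) (by fun_prop)]
    rfl
  rw [h1, lintegral_map (by fun_prop) (by fun_prop)]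
  calc ∫⁻ a, ENNReal.ofReal |√v * a + μ| ∂(gaussianReal 0 1)
      ≤ ∫⁻ a, ENNReal.ofReal (|μ| + √v * |a|) ∂(gaussianReal 0 1) := by
        refine lintegral_mono fun a => ENNReal.ofReal_le_ofReal ?_
        calc |√v * a + μ| ≤ |√v * a| + |μ| := abs_add_le _ _
          _ = |μ| + √v * |a| := by rw [abs_mul, abs_of_nonneg (Real.sqrt_nonneg _)]; ring
    _ = ENNReal.ofReal (∫ a, (|μ| + √v * |a|) ∂(gaussianReal 0 1)) := by
        rw [ofReal_integral_eq_lintegral_ofReal]
        · exact (integrable_const _).add ((integrable_abs_gauss 0 1).const_mul _)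
        · exact Eventually.of_forall fun a => by positivity
    _ = ENNReal.ofReal (|μ| + √(2 / Real.pi) * √v) := by
        congr 1
        rw [integral_add (integrable_const _) ((integrable_abs_gauss 0 1).const_mul _),
          integral_const_mul, int_abs]
        simp
        ring

/-- completing the square -/
lemma pdf_mul (α z s : ℝ) (hs : 0 < s) :
    (√(2 * Real.pi))⁻¹ * Real.exp (-(α + z)^2 / 2) *
      ((√(2 * Real.pi * s))⁻¹ * Real.exp (-z^2 / (2 * s)))
    = (√(2 * Real.pi * (1 + s)))⁻¹ * Real.exp (-α^2 / (2 * (1 + s))) *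
      ((√(2 * Real.pi * (s / (1 + s))))⁻¹ *
        Real.exp (-(z - (-(α * s / (1 + s))))^2 / (2 * (s / (1 + s))))) := by
  have hpi := Real.pi_pos
  have h1 : (√(2 * Real.pi))⁻¹ * (√(2 * Real.pi * s))⁻¹ =
      (√(2 * Real.pi * (1 + s)))⁻¹ * (√(2 * Real.pi * (s / (1 + s))))⁻¹ := by
    rw [← mul_inv, ← mul_inv, ← Real.sqrt_mul (by positivity), ← Real.sqrt_mul (by positivity)]
    congr 2
    field_simp
  have h2 : Real.exp (-(α + z)^2 / 2) * Real.exp (-z^2 / (2 * s)) =
      Real.exp (-α^2 / (2 * (1 + s))) *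
        Real.exp (-(z - (-(α * s / (1 + s))))^2 / (2 * (s / (1 + s)))) := by
    rw [← Real.exp_add, ← Real.exp_add]
    congr 1
    field_simp
    ring
  calc _ = ((√(2 * Real.pi))⁻¹ * (√(2 * Real.pi * s))⁻¹) *
        (Real.exp (-(α + z)^2 / 2) * Real.exp (-z^2 / (2 * s))) := by ring
    _ = _ := by rw [h1, h2]; ring


/-- Gaussian integration lemma behind the Kac-Rice density -/
lemma gauss_rice (n : ℕ) (b c : ℕ → ℝ) (α β : ℝ) (hb : 0 < ∑ i ∈ Finset.range n, b i ^ 2) :
    ∫⁻ v, ENNReal.ofReal (|β + lin n c v| * gaussianPDFReal 0 1 (α + lin n b v)) ∂P ≤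
      ENNReal.ofReal ((√(2 * Real.pi * (1 + ∑ i ∈ Finset.range n, b i ^ 2)))⁻¹ *
        Real.exp (-α^2 / (2 * (1 + ∑ i ∈ Finset.range n, b i ^ 2))) *
        (|β - α * (∑ i ∈ Finset.range n, b i * c i) / (1 + ∑ i ∈ Finset.range n, b i ^ 2)| +
          √(2 / Real.pi) * √(∑ i ∈ Finset.range n, c i ^ 2 -
            (∑ i ∈ Finset.range n, b i * c i)^2 / (1 + ∑ i ∈ Finset.range n, b i ^ 2)))) := by
  set s : ℝ := ∑ i ∈ Finset.range n, b i ^ 2 with hs
  set K : ℝ := ∑ i ∈ Finset.range n, b i * c i with hK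
  set Q : ℝ := ∑ i ∈ Finset.range n, c i ^ 2 with hQ
  set c1 : ℝ := K / s with hc1
  set c' : ℕ → ℝ := fun i => c i - c1 * b i with hc'
  have hsne : s ≠ 0 := hb.ne'
  -- the two independent functionals
  have hcov : cov[lin n b, lin n c'; P] = 0 := by
    rw [lin_cov]
    simp only [hc', mul_sub]
    rw [Finset.sum_sub_distrib]
    have : ∑ i ∈ Finset.range n, b i * (c1 * b i) = c1 * s := by
      rw [hs, Finset.mul_sum]
      refine Finset.sum_congr rfl fun i _ => by ring
    rw [this, ← hK, hc1]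
    field_simp
    ring
  have hind : IndepFun (lin n b) (lin n c') P :=
    (gauss_lin2 n b c').indepFun_of_covariance_eq_zero hcov
  have hlaw1 : P.map (lin n b) = gaussianReal 0 s.toNNReal := by
    rw [(gauss_lin n b).map_eq_gaussianReal, lin_mean, ← covariance_self (measurable_lin n b).aemeasurable,
      lin_cov]
    congr 2
    rw [hs]
    exact Finset.sum_congr rfl fun i _ => by ring
  have hs1 : ∑ i ∈ Finset.range n, c' i * c' i = Q - K^2 / s := by
    have : ∀ i, c' i * c' i = c i ^ 2 - 2 * c1 * (b i * c i) + c1^2 * b i ^2 := by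
      intro i; simp only [hc']; ring
    simp only [this]
    rw [Finset.sum_add_distrib, Finset.sum_sub_distrib, ← Finset.mul_sum, ← Finset.mul_sum,
      ← hs, ← hK, ← hQ, hc1]
    field_simp
    ring
  have hs1nn : 0 ≤ Q - K^2 / s := by
    rw [← hs1]
    exact Finset.sum_nonneg fun i _ => mul_self_nonneg _
  have hlaw2 : P.map (lin n c') = gaussianReal 0 (Q - K^2/s).toNNReal := by
    rw [(gauss_lin n c').map_eq_gaussianReal, lin_mean,
      ← covariance_self (measurable_lin n c').aemeasurable, lin_cov, hs1]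
  have hlin : ∀ v, lin n c v = c1 * lin n b v + lin n c' v := by
    intro v
    simp only [lin, hc']
    rw [Finset.mul_sum, ← Finset.sum_add_distrib]
    exact Finset.sum_congr rfl fun i _ => by ring
  have hprod : P.map (fun v => (lin n b v, lin n c' v)) =
      (gaussianReal 0 s.toNNReal).prod (gaussianReal 0 (Q - K^2/s).toNNReal) := by
    rw [(indepFun_iff_map_prod_eq_prod_map_map (measurable_lin n b).aemeasurable
      (measurable_lin n c').aemeasurable).mp hind, hlaw1, hlaw2]
  set F : ℝ × ℝ → ℝ≥0∞ := fun q =>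
    ENNReal.ofReal (|β + (c1 * q.1 + q.2)| * gaussianPDFReal 0 1 (α + q.1)) with hF
  have hFm : Measurable F := by
    have := measurable_gaussianPDFReal 0 1
    simp only [hF]
    fun_prop
  have step1 : ∫⁻ v, ENNReal.ofReal (|β + lin n c v| * gaussianPDFReal 0 1 (α + lin n b v)) ∂P =
      ∫⁻ w, ∫⁻ z, F (z, w) ∂(gaussianReal 0 s.toNNReal) ∂(gaussianReal 0 (Q - K^2/s).toNNReal) := by
    have e1 : ∀ v, ENNReal.ofReal (|β + lin n c v| * gaussianPDFReal 0 1 (α + lin n b v)) =
        F (lin n b v, lin n c' v) := by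
      intro v
      simp only [hF, hlin v]
    simp_rw [e1]
    rw [← lintegral_map (f := F) (g := fun v => (lin n b v, lin n c' v)) hFm
      ((measurable_lin n b).prodMk (measurable_lin n c')), hprod,
      lintegral_prod_symm' _ hFm]
  have hspos : (0:ℝ) < 1 + s := by positivity
  set mz : ℝ := -(α * s / (1 + s)) with hmz
  set vz : ℝ≥0 := (s / (1+s)).toNNReal with hvz
  have hvzr : (vz : ℝ) = s / (1+s) := Real.coe_toNNReal _ (by positivity)
  have hvzne : vz ≠ 0 := by
    intro h
    have : (vz : ℝ) = 0 := by rw [h]; rfl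
    rw [hvzr] at this
    have h2 : 0 < s / (1+s) := by positivity
    linarith
  have hsne' : s.toNNReal ≠ 0 := by
    intro h
    rw [Real.toNNReal_eq_zero] at h
    linarith
  set A : ℝ := (√(2 * Real.pi * (1 + s)))⁻¹ * Real.exp (-α^2 / (2 * (1 + s))) with hA
  have hAnn : 0 ≤ A := by positivity
  have step2 : ∀ w, ∫⁻ z, F (z, w) ∂(gaussianReal 0 s.toNNReal) =
      ENNReal.ofReal A * ∫⁻ z, ENNReal.ofReal |w + (β + c1 * z)| ∂(gaussianReal mz vz) := by
    intro w
    rw [gaussianReal_of_var_ne_zero _ hsne', gaussianReal_of_var_ne_zero _ hvzne,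
      lintegral_withDensity_eq_lintegral_mul (g := fun z => F (z, w)) _ (measurable_gaussianPDF _ _)
        (hFm.comp (by fun_prop : Measurable fun z : ℝ => (z, w))),
      lintegral_withDensity_eq_lintegral_mul _ (measurable_gaussianPDF _ _) (by fun_prop),
      ← lintegral_const_mul _ (by
        have := measurable_gaussianPDF mz vz
        fun_prop)]
    refine lintegral_congr fun z => ?_
    simp only [Pi.mul_apply, gaussianPDF, hF]
    rw [← ENNReal.ofReal_mul (gaussianPDFReal_nonneg _ _ _),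
      ← ENNReal.ofReal_mul (gaussianPDFReal_nonneg _ _ _),
      ← ENNReal.ofReal_mul hAnn]
    congr 1
    have h := pdf_mul α z s hb
    simp only [gaussianPDFReal_def, NNReal.coe_one, mul_one, sub_zero, hvzr,
      Real.coe_toNNReal _ hb.le]
    rw [← hA, ← hmz] at h
    have e : β + (c1 * z + w) = w + (β + c1 * z) := by ring
    rw [e]
    calc (√(2 * Real.pi * s))⁻¹ * Real.exp (-z ^ 2 / (2 * s)) *
          (|w + (β + c1 * z)| * ((√(2 * Real.pi))⁻¹ * Real.exp (-(α + z) ^ 2 / 2)))
        = |w + (β + c1 * z)| * ((√(2 * Real.pi))⁻¹ * Real.exp (-(α + z)^2 / 2) *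
            ((√(2 * Real.pi * s))⁻¹ * Real.exp (-z^2 / (2 * s)))) := by ring
      _ = _ := by rw [h]; ring
  have hmap : (gaussianReal mz vz).map (fun z => β + c1 * z) =
      gaussianReal (β + c1 * mz) (NNReal.mk (c1^2) (sq_nonneg _) * vz) := by
    have e1 := gaussianReal_map_const_mul (μ := mz) (v := vz) c1
    have e2 := gaussianReal_map_const_add (μ := c1 * mz)
      (v := NNReal.mk (c1^2) (sq_nonneg _) * vz) β
    rw [add_comm β, ← e2, ← e1, Measure.map_map (by fun_prop) (by fun_prop)]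
    rfl
  have step3 : ∫⁻ w, ∫⁻ z, ENNReal.ofReal |w + (β + c1 * z)| ∂(gaussianReal mz vz)
        ∂(gaussianReal 0 (Q - K^2/s).toNNReal) =
      ∫⁻ y, ENNReal.ofReal |y| ∂(gaussianReal (0 + (β + c1 * mz))
        ((Q - K^2/s).toNNReal + NNReal.mk (c1^2) (sq_nonneg _) * vz)) := by
    rw [← gaussianReal_conv_gaussianReal, Measure.lintegral_conv (by fun_prop)]
    refine lintegral_congr fun w => ?_
    rw [← hmap, lintegral_map (by fun_prop) (by fun_prop)]
  rw [step1]
  simp_rw [step2]
  rw [lintegral_const_mul _ (by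
      have : Measurable (Function.uncurry fun (w z : ℝ) => ENNReal.ofReal |w + (β + c1 * z)|) := by
        fun_prop
      exact this.lintegral_prod_right'), step3, ENNReal.ofReal_mul hAnn]
  gcongr
  refine (lint_abs _ _).trans (le_of_eq ?_)
  congr 2
  · congr 1
    rw [hmz, hc1]
    field_simp
    ring
  · congr 2
    push_cast
    rw [Real.coe_toNNReal _ hs1nn, hvzr]
    simp only [NNReal.coe_mk, hc1]
    field_simp
    ring

end Pool.Agent.H96.Kac
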