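import Pool.Agent.H96.KacA

set_option autoImplicit false
open MeasureTheory ProbabilityTheory Filter Topology
open scoped ENNReal NNReal

namespace Pool.Agent.H96.Kac

/-- value of the polynomial of degree `n` with coefficients `w` -/
def ev (n : ℕ) (w : ℕ → ℝ) (x : ℝ) : ℝ := ∑ i ∈ Finset.range (n+1), w i * x^i

lemma continuous_ev (n : ℕ) : Continuous (fun q : (ℕ → ℝ) × ℝ => ev n q.1 q.2) := by
  unfold ev
  fun_prop

/-- coefficient vectors with a root in `[a,b]` -/
def RootIn (n : ℕ) (a b : ℝ) : Set (ℕ → ℝ) := {w | ∃ x ∈ Set.Icc a b, ev n w x = 0}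

lemma isClosed_RootIn (n : ℕ) (a b : ℝ) : IsClosed (RootIn n a b) := by
  have h : IsClosedMap (Prod.fst : (ℕ → ℝ) × (Set.Icc a b) → (ℕ → ℝ)) :=
    isClosedMap_fst_of_compactSpace
  have hC : IsClosed {q : (ℕ → ℝ) × (Set.Icc a b) | ev n q.1 (q.2 : ℝ) = 0} := by
    refine isClosed_eq ?_ continuous_const
    exact (continuous_ev n).comp (by fun_prop : Continuous fun q : (ℕ → ℝ) × (Set.Icc a b) =>
      (q.1, (q.2 : ℝ)))
  have := h _ hC
  convert this using 1
  ext w
  simp only [RootIn, Set.mem_ofPred_eq, Set.mem_image, Prod.exists, exists_and_right, exists_eq_right]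
  constructor
  · rintro ⟨x, hx, h⟩
    exact ⟨⟨x, hx⟩, h⟩
  · rintro ⟨⟨x, hx⟩, h⟩
    exact ⟨x, hx, h⟩

lemma measurable_RootIn (n : ℕ) (a b : ℝ) : MeasurableSet (RootIn n a b) :=
  (isClosed_RootIn n a b).measurableSet

/-- grid points of `[-1,1]` -/
noncomputable def gp (M : ℕ) (j : ℕ) : ℝ := -1 + 2 * j / (M + 1)

lemma gp_mono (M : ℕ) : Monotone (gp M) := by
  intro i j hij
  unfold gp
  have : (i:ℝ) ≤ j := by exact_mod_cast hij
  gcongr

lemma gp_zero (M : ℕ) : gp M 0 = -1 := by simp [gp]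

lemma gp_last (M : ℕ) : gp M (M+1) = 1 := by
  unfold gp; push_cast
  have : (M:ℝ) + 1 ≠ 0 := by positivity
  field_simp
  ring

/-- number of grid cells containing a root -/
noncomputable def cells (n M : ℕ) (w : ℕ → ℝ) : ℝ≥0∞ :=
  ∑ j ∈ Finset.range (M+1), (RootIn n (gp M j) (gp M (j+1))).indicator 1 w

lemma measurable_cells (n M : ℕ) : Measurable (cells n M) := by
  unfold cells
  refine Finset.measurable_fun_sum _ fun j _ => ?_
  exact measurable_one.indicator (measurable_RootIn _ _ _)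

/-- index of a cell -/
noncomputable def idx (M : ℕ) (x : ℝ) : ℕ := min ⌊(x+1)*(M+1)/2⌋₊ M

lemma idx_le (M : ℕ) (x : ℝ) : idx M x < M + 1 := by
  unfold idx
  exact Nat.lt_succ_of_le (min_le_right _ _)

lemma mem_idx (M : ℕ) {x : ℝ} (hx : x ∈ Set.Icc (-1:ℝ) 1) :
    x ∈ Set.Icc (gp M (idx M x)) (gp M (idx M x + 1)) := by
  have hM : (0:ℝ) < M + 1 := by positivity
  have hnn : 0 ≤ (x+1)*(M+1)/2 := by
    have : 0 ≤ x + 1 := by linarith [hx.1]
    positivity
  have h1 := Nat.floor_le hnn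
  have h2 := Nat.lt_floor_add_one ((x+1)*(M+1)/2)
  have hle : (idx M x : ℝ) ≤ (x+1)*(M+1)/2 := by
    have : (idx M x : ℝ) ≤ (⌊(x+1)*(M+1)/2⌋₊ : ℝ) := by
      unfold idx; exact_mod_cast min_le_left _ _
    linarith
  have hge : (x+1)*(M+1)/2 ≤ (idx M x : ℝ) + 1 := by
    unfold idx
    rcases le_total ⌊(x+1)*(M+1)/2⌋₊ M with h | h
    · rw [min_eq_left h]; linarith
    · rw [min_eq_right h]
      have : x + 1 ≤ 2 := by linarith [hx.2]
      nlinarith
  constructor
  · unfold gp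
    have : 2 * (idx M x : ℝ) / (M+1) ≤ x + 1 := by
      rw [div_le_iff₀ hM]; linarith
    linarith
  · unfold gp
    have : x + 1 ≤ 2 * ((idx M x : ℝ) + 1) / (M+1) := by
      rw [le_div_iff₀ hM]; linarith
    push_cast
    linarith

lemma card_le_cells (n : ℕ) (w : ℕ → ℝ) (T : Finset ℝ)
    (hT : ∀ x ∈ T, x ∈ Set.Icc (-1:ℝ) 1 ∧ ev n w x = 0) :
    ∀ᶠ M : ℕ in atTop, (T.card : ℝ≥0∞) ≤ cells n M w := by
  -- separation
  have hsep : ∀ᶠ M : ℕ in atTop, ∀ x ∈ T, ∀ y ∈ T, x ≠ y → 2 / ((M:ℝ) + 1) < |x - y| := by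
    rw [Filter.eventually_all_finset]
    intro x _
    rw [Filter.eventually_all_finset]
    intro y _
    by_cases hxy : x = y
    · exact Eventually.of_forall fun _ h => absurd hxy h
    · have hpos : 0 < |x - y| := abs_pos.mpr (sub_ne_zero.mpr hxy)
      have h1 : Tendsto (fun M : ℕ => 2 / ((M:ℝ) + 1)) atTop (𝓝 0) := by
        refine Tendsto.div_atTop tendsto_const_nhds ?_
        exact tendsto_atTop_add_const_right _ _ tendsto_natCast_atTop_atTop
      exact (h1.eventually_lt_const hpos).mono fun M hM _ => hM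
  refine hsep.mono fun M hM => ?_
  have hinj : Set.InjOn (idx M) (T : Set ℝ) := by
    intro x hx y hy hxy
    by_contra hne
    have h1 := hM x hx y hy hne
    have h2 := mem_idx M (hT x hx).1
    have h3 := mem_idx M (hT y hy).1
    rw [← hxy] at h3
    have h4 : |x - y| ≤ gp M (idx M x + 1) - gp M (idx M x) := by
      rw [abs_le]; constructor <;> linarith [h2.1, h2.2, h3.1, h3.2]
    have h5 : gp M (idx M x + 1) - gp M (idx M x) = 2 / ((M:ℝ)+1) := by
      unfold gp; push_cast; ring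
    linarith
  classical
  set S : Finset ℕ := (Finset.range (M+1)).filter
    (fun j => w ∈ RootIn n (gp M j) (gp M (j+1))) with hS
  have hcard : T.card ≤ S.card := by
    refine Finset.card_le_card_of_injOn (idx M) ?_ hinj
    intro x hx
    simp only [hS, Finset.coe_filter, Set.mem_ofPred_eq, Finset.mem_range]
    exact ⟨idx_le M x, x, mem_idx M (hT x hx).1, (hT x hx).2⟩
  have hcells : cells n M w = (S.card : ℝ≥0∞) := by
    unfold cells
    rw [hS, Finset.card_filter]
    push_cast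
    refine Finset.sum_congr rfl fun j _ => ?_
    simp [Set.indicator_apply]
  rw [hcells]
  exact_mod_cast hcard


/-! ### the area inequality -/

lemma pdf_even (x : ℝ) : gaussianPDFReal 0 1 (-x) = gaussianPDFReal 0 1 x := by
  simp [gaussianPDFReal_def]

lemma continuous_pdf : Continuous (gaussianPDFReal 0 1) := by
  have : gaussianPDFReal 0 1 = fun x => (√(2 * Real.pi * 1))⁻¹ * Real.exp (-(x - 0)^2 / (2 * 1)) := by
    funext x; simp [gaussianPDFReal_def]
  rw [this]
  fun_prop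

lemma area (R R' : ℝ → ℝ) (hR : ∀ x, HasDerivAt R (R' x) x) (hR' : Continuous R') {a b : ℝ}
    (hab : a ≤ b) :
    gaussianReal 0 1 {y | ∃ x ∈ Set.Icc a b, y + R x = 0} ≤
      ∫⁻ x in Set.Icc a b, ENNReal.ofReal (|R' x| * gaussianPDFReal 0 1 (R x)) := by
  have hRc : Continuous R := continuous_iff_continuousAt.mpr fun x => (hR x).continuousAt
  set g : ℝ → ℝ := fun x => - R x with hg
  have hgc : Continuous g := hRc.neg
  have hgd : ∀ x, HasDerivAt g (- R' x) x := fun x => (hR x).neg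
  have hne : (Set.Icc a b).Nonempty := Set.nonempty_Icc.mpr hab
  obtain ⟨x1, hx1, hmin⟩ := isCompact_Icc.exists_isMinOn hne hgc.continuousOn
  obtain ⟨x2, hx2, hmax⟩ := isCompact_Icc.exists_isMaxOn hne hgc.continuousOn
  have hle : g x1 ≤ g x2 := hmin hx2
  have hsub : {y | ∃ x ∈ Set.Icc a b, y + R x = 0} ⊆ Set.Icc (g x1) (g x2) := by
    rintro y ⟨x, hx, hy⟩
    have : y = g x := by simp only [hg]; linarith
    rw [this]
    exact ⟨hmin hx, hmax hx⟩
  have hcv : ∫ x in x1..x2, (gaussianPDFReal 0 1 ∘ g) x * (- R' x) =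
      ∫ y in g x1..g x2, gaussianPDFReal 0 1 y :=
    intervalIntegral.integral_comp_mul_deriv (fun x _ => hgd x) hR'.neg.continuousOn continuous_pdf
  have hcont : Continuous (fun x => |R' x| * gaussianPDFReal 0 1 (R x)) :=
    hR'.abs.mul (continuous_pdf.comp hRc)
  calc gaussianReal 0 1 {y | ∃ x ∈ Set.Icc a b, y + R x = 0}
      ≤ gaussianReal 0 1 (Set.Icc (g x1) (g x2)) := measure_mono hsub
    _ = ENNReal.ofReal (∫ y in Set.Icc (g x1) (g x2), gaussianPDFReal 0 1 y) :=
        gaussianReal_apply_eq_integral _ (by norm_num) _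
    _ = ENNReal.ofReal (∫ x in x1..x2, (gaussianPDFReal 0 1 ∘ g) x * (- R' x)) := by
        rw [hcv, intervalIntegral.integral_of_le hle, integral_Icc_eq_integral_Ioc]
    _ ≤ ENNReal.ofReal (∫ x in Set.Icc a b, |R' x| * gaussianPDFReal 0 1 (R x)) := by
        refine ENNReal.ofReal_le_ofReal ?_
        refine (le_abs_self _).trans ?_
        rw [← Real.norm_eq_abs]
        refine (intervalIntegral.norm_integral_le_integral_norm_uIoc).trans ?_
        have e1 : ∀ x, ‖(gaussianPDFReal 0 1 ∘ g) x * (- R' x)‖ =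
            |R' x| * gaussianPDFReal 0 1 (R x) := by
          intro x
          simp only [Function.comp, hg, pdf_even, Real.norm_eq_abs, abs_mul, abs_neg]
          rw [abs_of_nonneg (gaussianPDFReal_nonneg _ _ _), mul_comm]
        simp_rw [e1]
        refine setIntegral_mono_set ?_ ?_ ?_
        · exact hcont.integrableOn_Icc
        · exact Eventually.of_forall fun x => mul_nonneg (abs_nonneg _) (gaussianPDFReal_nonneg _ _ _)
        · refine (Set.uIoc_subset_uIcc.trans ?_).eventuallyLE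
          exact Set.uIcc_subset_Icc hx1 hx2
    _ = ∫⁻ x in Set.Icc a b, ENNReal.ofReal (|R' x| * gaussianPDFReal 0 1 (R x)) := by
        rw [ofReal_integral_eq_lintegral_ofReal]
        · exact hcont.integrableOn_Icc
        · exact Eventually.of_forall fun x => mul_nonneg (abs_nonneg _) (gaussianPDFReal_nonneg _ _ _)

/-! ### splitting off the first coordinate -/

/-- prepend a coordinate -/
def cons (a : ℝ) (v : ℕ → ℝ) : ℕ → ℝ
  | 0 => a
  | (i+1) => v i

lemma measurable_cons : Measurable (fun q : ℝ × (ℕ → ℝ) => cons q.1 q.2) := by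
  refine measurable_pi_iff.mpr fun i => ?_
  cases i with
  | zero => exact measurable_fst
  | succ i => exact (measurable_pi_apply i).comp measurable_snd

lemma P_cons : ((gaussianReal 0 1).prod P).map (fun q : ℝ × (ℕ → ℝ) => cons q.1 q.2) = P := by
  refine Measure.eq_infinitePi _ ?_
  intro s t ht
  classical
  obtain ⟨m, hm⟩ : ∃ m, s ⊆ Finset.range (m+1) := by
    obtain ⟨m, hm⟩ := s.exists_nat_subset_range
    exact ⟨m, hm.trans (Finset.range_subset_range.mpr (Nat.le_succ m))⟩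
  set t' : ℕ → Set ℝ := fun i => if i ∈ s then t i else Set.univ with ht'
  have ht'm : ∀ i, MeasurableSet (t' i) := by
    intro i
    simp only [ht']
    split_ifs
    · exact ht i
    · exact MeasurableSet.univ
  have e1 : ∏ i ∈ s, gaussianReal 0 1 (t i) = ∏ i ∈ Finset.range (m+1), gaussianReal 0 1 (t' i) := by
    rw [← Finset.prod_subset hm]
    · refine Finset.prod_congr rfl fun i hi => ?_
      simp [ht', hi]
    · intro i _ hi
      simp [ht', hi]
  rw [e1, Finset.prod_range_succ']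
  rw [Measure.map_apply measurable_cons (MeasurableSet.pi s.countable_toSet fun i _ => ht i)]
  have e2 : (fun q : ℝ × (ℕ → ℝ) => cons q.1 q.2) ⁻¹' (Set.pi s t) =
      (t' 0) ×ˢ (Set.pi (Finset.range m) (fun i => t' (i+1))) := by
    ext ⟨a, v⟩
    simp only [Set.mem_preimage, Set.mem_pi, Finset.mem_coe, Set.mem_prod, Finset.mem_range, ht']
    constructor
    · intro h
      refine ⟨?_, ?_⟩
      · split_ifs with h0
        · exact h 0 h0
        · trivial
      · intro i _
        split_ifs with h0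
        · exact h (i+1) h0
        · trivial
    · rintro ⟨h0, h1⟩ i hi
      cases i with
      | zero =>
        rw [if_pos hi] at h0
        exact h0
      | succ i =>
        have hlt : i < m := by
          have := hm hi
          rw [Finset.mem_range] at this
          omega
        have h2 := h1 i hlt
        rw [if_pos hi] at h2
        exact h2
  rw [e2, Measure.prod_prod]
  unfold P
  rw [Measure.infinitePi_pi _ (fun i _ => ht'm (i+1)), mul_comm]

lemma ev_cons (n : ℕ) (a : ℝ) (v d : ℕ → ℝ) (x : ℝ) :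
    ev n (cons a v + d) x = a + ((∑ i ∈ Finset.range (n+1), d i * x^i) +
      lin n (fun i => x^(i+1)) v) := by
  unfold ev lin
  rw [Finset.sum_range_succ', Finset.sum_range_succ' (fun i => d i * x^i)]
  simp only [Pi.add_apply, cons, pow_zero, mul_one]
  have : ∑ k ∈ Finset.range n, (v k + d (k+1)) * x^(k+1) =
      ∑ k ∈ Finset.range n, d (k+1) * x^(k+1) + ∑ k ∈ Finset.range n, x^(k+1) * v k := by
    rw [← Finset.sum_add_distrib]
    exact Finset.sum_congr rfl fun k _ => by ring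
  rw [this]
  ring

/-- drift -/
def dm (n : ℕ) (d : ℕ → ℝ) (x : ℝ) : ℝ := ∑ i ∈ Finset.range (n+1), d i * x^i

/-- derivative of the drift -/
def dm' (n : ℕ) (d : ℕ → ℝ) (x : ℝ) : ℝ := ∑ i ∈ Finset.range n, d (i+1) * ((i+1) * x^i)

lemma hasDerivAt_dm (n : ℕ) (d : ℕ → ℝ) (x : ℝ) : HasDerivAt (dm n d) (dm' n d x) x := by
  unfold dm dm'
  have h : ∀ i ∈ Finset.range (n+1), HasDerivAt (fun x : ℝ => d i * x^i) (d i * (i * x^(i-1))) x := by
    intro i _
    exact (hasDerivAt_pow i x).const_mul (d i)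
  have h2 := HasDerivAt.fun_sum h
  rw [Finset.sum_range_succ'] at h2
  simpa using h2

/-- the variance and covariances -/
def kV (n : ℕ) (x : ℝ) : ℝ := 1 + ∑ i ∈ Finset.range n, (x^(i+1))^2
/-- covariance of value and derivative -/
def kK (n : ℕ) (x : ℝ) : ℝ := ∑ i ∈ Finset.range n, x^(i+1) * ((i+1) * x^i)
/-- variance of the derivative -/
def kQ (n : ℕ) (x : ℝ) : ℝ := ∑ i ∈ Finset.range n, ((i+1) * x^i)^2

/-- upper bound for the Kac-Rice density with drift -/
noncomputable def rho (n : ℕ) (d : ℕ → ℝ) (x : ℝ) : ℝ :=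
  (√(2 * Real.pi * kV n x))⁻¹ * Real.exp (-(dm n d x)^2 / (2 * kV n x)) *
    (|dm' n d x - dm n d x * kK n x / kV n x| + √(2 / Real.pi) * √(kQ n x - (kK n x)^2 / kV n x))

lemma shift_root (n : ℕ) (hn : 1 ≤ n) (d : ℕ → ℝ) {a b : ℝ} (hab : a ≤ b) :
    P {ω | ω + d ∈ RootIn n a b} ≤ ∫⁻ x in Set.Icc a b, ENNReal.ofReal (rho n d x) := by
  have hmS : MeasurableSet {ω : ℕ → ℝ | ω + d ∈ RootIn n a b} := by
    have : Measurable (fun ω : ℕ → ℝ => ω + d) := by fun_prop
    exact this (measurable_RootIn n a b)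
  have h1 : P {ω | ω + d ∈ RootIn n a b} =
      ((gaussianReal 0 1).prod P) {q | cons q.1 q.2 + d ∈ RootIn n a b} := by
    conv_lhs => rw [← P_cons]
    rw [Measure.map_apply measurable_cons hmS]
    rfl
  have hm2 : MeasurableSet {q : ℝ × (ℕ → ℝ) | cons q.1 q.2 + d ∈ RootIn n a b} :=
    measurable_cons hmS
  rw [h1, Measure.prod_apply_symm hm2]
  -- the integrand
  set F : (ℕ → ℝ) → ℝ → ℝ≥0∞ := fun v x =>
    ENNReal.ofReal (|dm' n d x + lin n (fun i => (i+1) * x^i) v| *
      gaussianPDFReal 0 1 (dm n d x + lin n (fun i => x^(i+1)) v)) with hF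
  have hFm : Measurable (Function.uncurry F) := by
    have h1 : Continuous (fun q : (ℕ → ℝ) × ℝ => |dm' n d q.2 + lin n (fun i => (i+1) * q.2^i) q.1| *
      gaussianPDFReal 0 1 (dm n d q.2 + lin n (fun i => q.2^(i+1)) q.1)) := by
      unfold dm' dm lin
      have := continuous_pdf
      fun_prop
    exact ENNReal.measurable_ofReal.comp h1.measurable
  have h2 : ∀ v, gaussianReal 0 1 ((fun a' => (a', v)) ⁻¹' {q : ℝ × (ℕ → ℝ) | cons q.1 q.2 + d ∈ RootIn n a b})
      ≤ ∫⁻ x in Set.Icc a b, F v x := by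
    intro v
    have hd : ∀ x, HasDerivAt (fun x => dm n d x + lin n (fun i => x^(i+1)) v)
        (dm' n d x + lin n (fun i => (i+1) * x^i) v) x := by
      intro x
      refine (hasDerivAt_dm n d x).add ?_
      unfold lin
      refine HasDerivAt.fun_sum fun i _ => ?_
      have := (hasDerivAt_pow (i+1) x).mul_const (v i)
      simpa using this
    have hc : Continuous (fun x => dm' n d x + lin n (fun i => (i+1) * x^i) v) := by
      unfold dm' lin; fun_prop
    refine le_trans (measure_mono ?_) (area _ _ hd hc hab)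
    rintro y ⟨x, hx, hy⟩
    refine ⟨x, hx, ?_⟩
    rw [ev_cons] at hy
    exact hy
  calc ∫⁻ v, gaussianReal 0 1 ((fun a' => (a', v)) ⁻¹' {q : ℝ × (ℕ → ℝ) | cons q.1 q.2 + d ∈ RootIn n a b}) ∂P
      ≤ ∫⁻ v, (∫⁻ x in Set.Icc a b, F v x) ∂P := lintegral_mono h2
    _ = ∫⁻ x in Set.Icc a b, ∫⁻ v, F v x ∂P := by
        rw [lintegral_lintegral_swap hFm.aemeasurable]
    _ ≤ ∫⁻ x in Set.Icc a b, ENNReal.ofReal (rho n d x) := by
        refine lintegral_mono_ae ?_
        have h0 : ∀ᵐ x : ℝ ∂(volume.restrict (Set.Icc a b)), x ≠ 0 := by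
          refine ae_restrict_of_ae ?_
          have : volume ({0} : Set ℝ) = 0 := by simp
          filter_upwards [compl_mem_ae_iff.mpr this] with x hx
          simpa using hx
        filter_upwards [h0] with x hx
        have hb : 0 < ∑ i ∈ Finset.range n, ((fun i => x^(i+1)) i) ^ 2 := by
          refine Finset.sum_pos (fun i _ => by positivity) ⟨0, Finset.mem_range.mpr hn⟩
        have := gauss_rice n (fun i => x^(i+1)) (fun i => (i+1) * x^i) (dm n d x) (dm' n d x) hb
        exact this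

/-- sum over consecutive cells -/
lemma sum_cells (f : ℝ → ℝ≥0∞) (g : ℕ → ℝ) (hg : Monotone g) (k : ℕ) :
    ∑ j ∈ Finset.range k, ∫⁻ x in Set.Icc (g j) (g (j+1)), f x = ∫⁻ x in Set.Ioc (g 0) (g k), f x := by
  induction k with
  | zero => simp
  | succ k ih =>
    rw [Finset.sum_range_succ, ih, setLIntegral_congr (Ioc_ae_eq_Icc (μ := volume)).symm,
      ← Set.Ioc_union_Ioc_eq_Ioc (hg (Nat.zero_le k)) (hg (Nat.le_succ k)),
      lintegral_union measurableSet_Ioc]
    rw [Set.disjoint_left]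
    rintro x ⟨_, h1⟩ ⟨h2, _⟩
    linarith

lemma int_cells (n : ℕ) (hn : 1 ≤ n) (d : ℕ → ℝ) (M : ℕ) :
    ∫⁻ ω, cells n M (ω + d) ∂P ≤ ∫⁻ x in Set.Icc (-1:ℝ) 1, ENNReal.ofReal (rho n d x) := by
  unfold cells
  have hm : ∀ j, Measurable (fun ω : ℕ → ℝ =>
      (RootIn n (gp M j) (gp M (j+1))).indicator (1 : (ℕ → ℝ) → ℝ≥0∞) (ω + d)) := by
    intro j
    have : Measurable (fun ω : ℕ → ℝ => ω + d) := by fun_prop
    exact (measurable_one.indicator (measurable_RootIn _ _ _)).comp this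
  rw [lintegral_finsetSum _ (fun j _ => hm j)]
  have h1 : ∀ j, ∫⁻ ω, (RootIn n (gp M j) (gp M (j+1))).indicator (1 : (ℕ → ℝ) → ℝ≥0∞) (ω + d) ∂P =
      P {ω | ω + d ∈ RootIn n (gp M j) (gp M (j+1))} := by
    intro j
    have hmS : MeasurableSet {ω : ℕ → ℝ | ω + d ∈ RootIn n (gp M j) (gp M (j+1))} := by
      have : Measurable (fun ω : ℕ → ℝ => ω + d) := by fun_prop
      exact this (measurable_RootIn _ _ _)
    rw [← lintegral_indicator_one hmS]
    rfl
  calc ∑ j ∈ Finset.range (M+1), ∫⁻ ω, (RootIn n (gp M j) (gp M (j+1))).indicator (1 : (ℕ → ℝ) → ℝ≥0∞) (ω + d) ∂P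
      = ∑ j ∈ Finset.range (M+1), P {ω | ω + d ∈ RootIn n (gp M j) (gp M (j+1))} :=
        Finset.sum_congr rfl fun j _ => h1 j
    _ ≤ ∑ j ∈ Finset.range (M+1), ∫⁻ x in Set.Icc (gp M j) (gp M (j+1)), ENNReal.ofReal (rho n d x) :=
        Finset.sum_le_sum fun j _ => shift_root n hn d (gp_mono M (Nat.le_succ j))
    _ = ∫⁻ x in Set.Ioc (gp M 0) (gp M (M+1)), ENNReal.ofReal (rho n d x) :=
        sum_cells _ _ (gp_mono M) _
    _ = ∫⁻ x in Set.Icc (-1:ℝ) 1, ENNReal.ofReal (rho n d x) := by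
        rw [gp_zero, gp_last]
        exact setLIntegral_congr Ioc_ae_eq_Icc

/-- measurable upper bound for the number of roots in `[-1,1]` -/
noncomputable def cnt (n : ℕ) (w : ℕ → ℝ) : ℝ≥0∞ := liminf (fun M => cells n M w) atTop

lemma measurable_cnt (n : ℕ) : Measurable (cnt n) := by
  unfold cnt
  exact Measurable.liminf fun M => measurable_cells n M

lemma card_le_cnt (n : ℕ) (w : ℕ → ℝ) (T : Finset ℝ)
    (hT : ∀ x ∈ T, x ∈ Set.Icc (-1:ℝ) 1 ∧ ev n w x = 0) : (T.card : ℝ≥0∞) ≤ cnt n w :=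
  le_liminf_of_le (by isBoundedDefault) (card_le_cells n w T hT)

/-- Kac-Rice upper bound with drift -/
lemma kac_rice (n : ℕ) (hn : 1 ≤ n) (d : ℕ → ℝ) :
    ∫⁻ ω, cnt n (ω + d) ∂P ≤ ∫⁻ x in Set.Icc (-1:ℝ) 1, ENNReal.ofReal (rho n d x) := by
  have hm : Measurable (fun ω : ℕ → ℝ => ω + d) := by fun_prop
  calc ∫⁻ ω, cnt n (ω + d) ∂P = ∫⁻ ω, liminf (fun M => cells n M (ω + d)) atTop ∂P := rfl
    _ ≤ liminf (fun M => ∫⁻ ω, cells n M (ω + d) ∂P) atTop :=
        lintegral_liminf_le fun M => (measurable_cells n M).comp hm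
    _ ≤ liminf (fun _ : ℕ => ∫⁻ x in Set.Icc (-1:ℝ) 1, ENNReal.ofReal (rho n d x)) atTop :=
        liminf_le_liminf (Eventually.of_forall fun M => int_cells n hn d M)
    _ = ∫⁻ x in Set.Icc (-1:ℝ) 1, ENNReal.ofReal (rho n d x) := liminf_const _

end Pool.Agent.H96.Kac
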