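import Pool.Agent.H96.KacB

set_option autoImplicit false
open MeasureTheory ProbabilityTheory Filter Topology
open scoped ENNReal NNReal

namespace Pool.Agent.H96.Kac

/-! ### closed forms -/

/-- geometric sum -/
def gA (n : ℕ) (t : ℝ) : ℝ := ∑ i ∈ Finset.range (n+1), t^i
/-- first derivative sum -/
def gB (n : ℕ) (t : ℝ) : ℝ := ∑ i ∈ Finset.range n, ((i:ℝ)+1) * t^i
/-- second sum -/
def gC (n : ℕ) (t : ℝ) : ℝ := ∑ i ∈ Finset.range n, ((i:ℝ)+1)^2 * t^i

lemma gA_closed (n : ℕ) (t : ℝ) : (1 - t) * gA n t = 1 - t^(n+1) := by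
  unfold gA
  induction n with
  | zero => simp
  | succ n ih =>
    rw [Finset.sum_range_succ, mul_add, ih]
    ring

lemma gB_closed (n : ℕ) (t : ℝ) : (1 - t) * gB n t = gA n t - (n+1) * t^n := by
  induction n with
  | zero => simp [gA, gB]
  | succ n ih =>
    have h1 : gB (n+1) t = gB n t + ((n:ℝ)+1) * t^n := by
      unfold gB; rw [Finset.sum_range_succ]
    have h2 : gA (n+1) t = gA n t + t^(n+1) := by
      unfold gA; rw [Finset.sum_range_succ]
    rw [h1, h2, mul_add, ih]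
    push_cast
    ring

lemma gC_closed (n : ℕ) (t : ℝ) :
    (1 - t) * gC n t = 2 * gB n t - gA n t - ((n:ℝ)^2 - 1) * t^n := by
  induction n with
  | zero => simp [gA, gB, gC]
  | succ n ih =>
    have h0 : gC (n+1) t = gC n t + ((n:ℝ)+1)^2 * t^n := by
      unfold gC; rw [Finset.sum_range_succ]
    have h1 : gB (n+1) t = gB n t + ((n:ℝ)+1) * t^n := by
      unfold gB; rw [Finset.sum_range_succ]
    have h2 : gA (n+1) t = gA n t + t^(n+1) := by
      unfold gA; rw [Finset.sum_range_succ]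
    rw [h0, h1, h2, mul_add, ih]
    push_cast
    ring

lemma key_identity (n : ℕ) (t : ℝ) :
    (1 - t)^2 * (gC n t * gA n t - t * (gB n t)^2) = (gA n t)^2 - (n+1)^2 * t^n := by
  have h1 := gA_closed n t
  have h2 := gB_closed n t
  have h3 := gC_closed n t
  have e : (1 - t)^2 * (gC n t * gA n t - t * (gB n t)^2) =
      ((1-t) * gC n t) * ((1-t) * gA n t) - t * ((1-t) * gB n t)^2 := by ring
  rw [e, h3, h1, h2]
  have h4 : gB n t * (1 - t^(n+1)) = gA n t * (gA n t - (n+1) * t^n) := by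
    rw [← h1, ← h2]; ring
  have h5 : gA n t * (1 - t^(n+1)) = gA n t * ((1 - t) * gA n t) := by rw [h1]
  have h6 : gA n t * (1 - t) = 1 - t^(n+1) := by rw [mul_comm, h1]
  have e2 : (2 * gB n t - gA n t - ((n:ℝ)^2 - 1) * t^n) * (1 - t^(n+1)) -
      t * (gA n t - (n+1) * t^n)^2 =
      2 * (gB n t * (1 - t^(n+1))) - gA n t * (1 - t^(n+1)) -
        ((n:ℝ)^2 - 1) * t^n * (1 - t^(n+1)) - t * (gA n t - (n+1) * t^n)^2 := by ring
  rw [e2, h4, h5]
  have e3 : 2 * (gA n t * (gA n t - (n+1) * t^n)) - gA n t * ((1 - t) * gA n t) -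
        ((n:ℝ)^2 - 1) * t^n * (1 - t^(n+1)) - t * (gA n t - (n+1) * t^n)^2 =
      (gA n t)^2 - 2 * (n+1) * t^n * (gA n t * (1-t)) - ((n:ℝ)^2 - 1) * t^n * (1 - t^(n+1))
        - t * ((n+1) * t^n)^2 := by ring
  rw [e3, h6]
  ring

lemma kV_eq (n : ℕ) (x : ℝ) : kV n x = gA n (x^2) := by
  unfold kV gA
  rw [Finset.sum_range_succ', pow_zero, add_comm]
  congr 1
  exact Finset.sum_congr rfl fun i _ => by rw [← pow_mul, ← pow_mul, mul_comm]

lemma kK_eq (n : ℕ) (x : ℝ) : kK n x = x * gB n (x^2) := by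
  unfold kK gB
  rw [Finset.mul_sum]
  refine Finset.sum_congr rfl fun i _ => ?_
  rw [← pow_mul]; ring

lemma kQ_eq (n : ℕ) (x : ℝ) : kQ n x = gC n (x^2) := by
  unfold kQ gC
  refine Finset.sum_congr rfl fun i _ => ?_
  rw [← pow_mul]; ring

lemma kV_ge_one (n : ℕ) (x : ℝ) : 1 ≤ kV n x := by
  unfold kV
  have : 0 ≤ ∑ i ∈ Finset.range n, (x^(i+1))^2 := Finset.sum_nonneg fun i _ => sq_nonneg _
  linarith

lemma kV_pos (n : ℕ) (x : ℝ) : 0 < kV n x := lt_of_lt_of_le one_pos (kV_ge_one n x)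

/-- conditional variance -/
noncomputable def sg (n : ℕ) (x : ℝ) : ℝ := kQ n x - (kK n x)^2 / kV n x

lemma sg_le1 (n : ℕ) (x : ℝ) (hx : x^2 < 1) : √(sg n x) ≤ √(kV n x) / (1 - x^2) := by
  have hV := kV_pos n x
  have h1 : 0 < 1 - x^2 := by linarith
  rw [le_div_iff₀ h1]
  have h2 : √(sg n x) * (1 - x^2) = √(sg n x * (1 - x^2)^2) := by
    rw [Real.sqrt_mul' _ (sq_nonneg _), Real.sqrt_sq h1.le]
  rw [h2]
  refine Real.sqrt_le_sqrt ?_
  have hk := key_identity n (x^2)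
  unfold sg
  rw [kQ_eq, kK_eq]
  rw [kV_eq] at hV ⊢
  have h3 : (gC n (x^2) - (x * gB n (x^2))^2 / gA n (x^2)) * (1 - x^2)^2 =
      ((1 - x^2)^2 * (gC n (x^2) * gA n (x^2) - x^2 * (gB n (x^2))^2)) / gA n (x^2) := by
    field_simp
  rw [h3, hk, div_le_iff₀ hV]
  have h4 : 0 ≤ ((n:ℝ)+1)^2 * (x^2)^n := by positivity
  nlinarith

lemma sg_le2 (n : ℕ) (x : ℝ) : √(sg n x) ≤ √(kV n x) * n := by
  have hV := kV_pos n x
  have h2 : √(kV n x) * (n:ℝ) = √(kV n x * (n:ℝ)^2) := by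
    rw [Real.sqrt_mul hV.le, Real.sqrt_sq (Nat.cast_nonneg n)]
  rw [h2]
  refine Real.sqrt_le_sqrt ?_
  have h3 : sg n x ≤ kQ n x := by
    unfold sg
    have : 0 ≤ (kK n x)^2 / kV n x := by positivity
    linarith
  refine h3.trans ?_
  unfold kQ kV
  rw [add_mul, one_mul, Finset.sum_mul]
  cases n with
  | zero => simp
  | succ n =>
    rw [Finset.sum_range_succ', Finset.sum_range_succ (fun i => (x^(i+1))^2 * _)]
    have h4 : ∑ k ∈ Finset.range n, ((((k+1:ℕ):ℝ)+1) * x^(k+1))^2 ≤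
        ∑ k ∈ Finset.range n, (x^(k+1))^2 * (((n+1:ℕ):ℝ))^2 := by
      refine Finset.sum_le_sum fun k hk => ?_
      rw [mul_pow, mul_comm]
      have hk' : (k:ℝ) + 1 ≤ n := by
        have := Finset.mem_range.mp hk
        exact_mod_cast this
      have : (((k+1:ℕ):ℝ)+1)^2 ≤ ((n+1:ℕ):ℝ)^2 := by
        push_cast
        have h0 : (0:ℝ) ≤ k := Nat.cast_nonneg k
        exact pow_le_pow_left₀ (by linarith) (by linarith) 2
      exact mul_le_mul_of_nonneg_left this (sq_nonneg _)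
    have h5 : ((((0:ℕ):ℝ)+1) * x^0)^2 ≤ (((n+1:ℕ):ℝ))^2 := by
      push_cast
      have h0 : (0:ℝ) ≤ n := Nat.cast_nonneg n
      rw [pow_zero, mul_one]
      exact pow_le_pow_left₀ (by norm_num) (by linarith) 2
    have h6 : 0 ≤ (x^(n+1))^2 * (((n+1:ℕ):ℝ))^2 := by positivity
    linarith

/-- conditional mean -/
noncomputable def mu (n : ℕ) (d : ℕ → ℝ) (x : ℝ) : ℝ := dm' n d x - dm n d x * kK n x / kV n x

lemma rho_eq (n : ℕ) (d : ℕ → ℝ) (x : ℝ) : rho n d x =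
    (√(2 * Real.pi * kV n x))⁻¹ * Real.exp (-(dm n d x)^2 / (2 * kV n x)) *
    (|mu n d x| + √(2 / Real.pi) * √(sg n x)) := rfl

lemma inv_sqrt_le (n : ℕ) (x : ℝ) : (√(2 * Real.pi * kV n x))⁻¹ ≤ (√(kV n x))⁻¹ := by
  have hV := kV_pos n x
  have hpi := Real.pi_gt_three
  refine inv_anti₀ (Real.sqrt_pos.mpr hV) (Real.sqrt_le_sqrt ?_)
  nlinarith

lemma sqrt_const (n : ℕ) (x : ℝ) :
    (√(2 * Real.pi * kV n x))⁻¹ * √(2 / Real.pi) = (1 / Real.pi) * (√(kV n x))⁻¹ := by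
  have hV := kV_pos n x
  have hpi := Real.pi_pos
  rw [Real.sqrt_mul (by positivity), mul_inv, mul_right_comm]
  congr 1
  rw [← Real.sqrt_inv, ← Real.sqrt_mul (by positivity)]
  rw [show (2 * Real.pi)⁻¹ * (2 / Real.pi) = (1 / Real.pi)^2 by field_simp]
  rw [Real.sqrt_sq (by positivity)]

lemma rho_le1 (n : ℕ) (d : ℕ → ℝ) (x : ℝ) (hx : x^2 < 1) {e : ℝ}
    (he : Real.exp (-(dm n d x)^2 / (2 * kV n x)) ≤ e) :
    rho n d x ≤ e / Real.pi * (1 / (1 - x^2)) + |mu n d x| / √(kV n x) := by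
  have hV := kV_pos n x
  have hpi := Real.pi_pos
  have h1 : 0 < 1 - x^2 := by linarith
  have hexp := Real.exp_pos (-(dm n d x)^2 / (2 * kV n x))
  have hexp1 : Real.exp (-(dm n d x)^2 / (2 * kV n x)) ≤ 1 := by
    rw [Real.exp_le_one_iff]
    have : 0 ≤ (dm n d x)^2 / (2 * kV n x) := by positivity
    rw [neg_div]; linarith
  rw [rho_eq, mul_add]
  have a1 : (√(2 * Real.pi * kV n x))⁻¹ * Real.exp (-(dm n d x)^2 / (2 * kV n x)) * |mu n d x| ≤
      |mu n d x| / √(kV n x) := by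
    rw [div_eq_inv_mul |mu n d x|]
    refine mul_le_mul_of_nonneg_right ?_ (abs_nonneg (mu n d x))
    calc (√(2 * Real.pi * kV n x))⁻¹ * Real.exp (-(dm n d x)^2 / (2 * kV n x))
        ≤ (√(kV n x))⁻¹ * 1 := by
          refine mul_le_mul (inv_sqrt_le n x) hexp1 hexp.le (by positivity)
      _ = _ := mul_one _
  have a2 : (√(2 * Real.pi * kV n x))⁻¹ * Real.exp (-(dm n d x)^2 / (2 * kV n x)) *
      (√(2 / Real.pi) * √(sg n x)) ≤ e / Real.pi * (1 / (1 - x^2)) := by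
    have e1 : (√(2 * Real.pi * kV n x))⁻¹ * Real.exp (-(dm n d x)^2 / (2 * kV n x)) *
      (√(2 / Real.pi) * √(sg n x)) = Real.exp (-(dm n d x)^2 / (2 * kV n x)) *
        ((1 / Real.pi) * ((√(kV n x))⁻¹ * √(sg n x))) := by
      have := sqrt_const n x
      calc _ = Real.exp (-(dm n d x)^2 / (2 * kV n x)) *
          (((√(2 * Real.pi * kV n x))⁻¹ * √(2 / Real.pi)) * √(sg n x)) := by ring
        _ = _ := by rw [this]; ring
    rw [e1]
    have e2 : (√(kV n x))⁻¹ * √(sg n x) ≤ 1 / (1 - x^2) := by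
      have := sg_le1 n x hx
      have hs : 0 < √(kV n x) := Real.sqrt_pos.mpr hV
      rw [inv_mul_le_iff₀ hs]
      calc √(sg n x) ≤ √(kV n x) / (1 - x^2) := this
        _ = _ := by ring
    calc _ ≤ e * ((1 / Real.pi) * (1 / (1 - x^2))) := by
          refine mul_le_mul he ?_ (by positivity) (hexp.le.trans he)
          exact mul_le_mul_of_nonneg_left e2 (by positivity)
      _ = _ := by ring
  linarith

lemma rho_le2 (n : ℕ) (d : ℕ → ℝ) (x : ℝ) :
    rho n d x ≤ n + |mu n d x| / √(kV n x) := by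
  have hV := kV_pos n x
  have hpi := Real.pi_gt_three
  have hexp := Real.exp_pos (-(dm n d x)^2 / (2 * kV n x))
  have hexp1 : Real.exp (-(dm n d x)^2 / (2 * kV n x)) ≤ 1 := by
    rw [Real.exp_le_one_iff]
    have : 0 ≤ (dm n d x)^2 / (2 * kV n x) := by positivity
    rw [neg_div]; linarith
  rw [rho_eq, mul_add]
  have a1 : (√(2 * Real.pi * kV n x))⁻¹ * Real.exp (-(dm n d x)^2 / (2 * kV n x)) * |mu n d x| ≤
      |mu n d x| / √(kV n x) := by
    rw [div_eq_inv_mul |mu n d x|]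
    refine mul_le_mul_of_nonneg_right ?_ (abs_nonneg (mu n d x))
    calc (√(2 * Real.pi * kV n x))⁻¹ * Real.exp (-(dm n d x)^2 / (2 * kV n x))
        ≤ (√(kV n x))⁻¹ * 1 := by
          refine mul_le_mul (inv_sqrt_le n x) hexp1 hexp.le (by positivity)
      _ = _ := mul_one _
  have a2 : (√(2 * Real.pi * kV n x))⁻¹ * Real.exp (-(dm n d x)^2 / (2 * kV n x)) *
      (√(2 / Real.pi) * √(sg n x)) ≤ n := by
    have e1 : (√(2 * Real.pi * kV n x))⁻¹ * Real.exp (-(dm n d x)^2 / (2 * kV n x)) *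
      (√(2 / Real.pi) * √(sg n x)) = Real.exp (-(dm n d x)^2 / (2 * kV n x)) *
        ((1 / Real.pi) * ((√(kV n x))⁻¹ * √(sg n x))) := by
      have := sqrt_const n x
      calc _ = Real.exp (-(dm n d x)^2 / (2 * kV n x)) *
          (((√(2 * Real.pi * kV n x))⁻¹ * √(2 / Real.pi)) * √(sg n x)) := by ring
        _ = _ := by rw [this]; ring
    rw [e1]
    have e2 : (√(kV n x))⁻¹ * √(sg n x) ≤ n := by
      have := sg_le2 n x
      have hs : 0 < √(kV n x) := Real.sqrt_pos.mpr hV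
      rw [inv_mul_le_iff₀ hs]
      exact this
    have e3 : 1 / Real.pi ≤ 1 := by
      rw [div_le_one (by linarith)]; linarith
    have e4 : 0 ≤ (√(kV n x))⁻¹ * √(sg n x) := by positivity
    calc _ ≤ 1 * (1 * (n:ℝ)) := by
          refine mul_le_mul hexp1 ?_ (by positivity) (by norm_num)
          exact mul_le_mul e3 e2 e4 (by norm_num)
      _ = _ := by ring
  linarith

end Pool.Agent.H96.Kac
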