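import Pool.Agent.H96.KacC

set_option autoImplicit false
open MeasureTheory ProbabilityTheory Filter Topology
open scoped ENNReal NNReal

namespace Pool.Agent.H96.Kac

/-! ### the coefficients of `(1-t)^(-1/2)` -/

/-- normalised central binomial coefficient -/
noncomputable def be (k : ℕ) : ℝ := (Nat.centralBinom k : ℝ) / 4^k

lemma be_zero : be 0 = 1 := by simp [be]

lemma be_succ (k : ℕ) : ((k:ℝ)+1) * be (k+1) = (k+1/2) * be k := by
  have h := Nat.succ_mul_centralBinom_succ k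
  have h2 : ((k:ℝ)+1) * (Nat.centralBinom (k+1) : ℝ) = 2 * (2*k+1) * (Nat.centralBinom k : ℝ) := by
    exact_mod_cast h
  unfold be
  rw [pow_succ]
  calc ((k:ℝ)+1) * ((Nat.centralBinom (k+1) : ℝ) / (4^k * 4))
      = (((k:ℝ)+1) * (Nat.centralBinom (k+1) : ℝ)) / (4^k * 4) := by ring
    _ = _ := by rw [h2]; field_simp; ring

lemma be_pos (k : ℕ) : 0 < be k := by
  unfold be
  have : 0 < Nat.centralBinom k := Nat.centralBinom_pos k
  positivity

lemma be_le_one (k : ℕ) : be k ≤ 1 := by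
  induction k with
  | zero => rw [be_zero]
  | succ k ih =>
    have h := be_succ k
    have hk : (0:ℝ) < k + 1 := by positivity
    have h0 := be_pos k
    nlinarith

lemma be_sq_le (k : ℕ) : be k ^ 2 ≤ 1 / ((k:ℝ)+1) := by
  induction k with
  | zero => rw [be_zero]; norm_num
  | succ k ih =>
    have h := be_succ k
    have hk : (0:ℝ) ≤ k := Nat.cast_nonneg k
    have h1 : be (k+1) = (k+1/2) / (k+1) * be k := by
      field_simp
      linarith
    rw [h1, mul_pow]
    push_cast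
    calc ((k + 1/2) / ((k:ℝ)+1))^2 * be k ^ 2 ≤ ((k + 1/2) / ((k:ℝ)+1))^2 * (1 / ((k:ℝ)+1)) := by
          gcongr
      _ ≤ 1 / ((k:ℝ)+1+1) := by
          rw [div_pow, div_mul_div_comm, div_le_div_iff₀ (by positivity) (by positivity)]
          nlinarith [mul_nonneg hk hk, mul_nonneg (mul_nonneg hk hk) hk]

/-- truncated series -/
noncomputable def sK (K : ℕ) (t : ℝ) : ℝ := ∑ k ∈ Finset.range K, be k * t^k

/-- its derivative -/
noncomputable def sd (J : ℕ) (t : ℝ) : ℝ := ∑ k ∈ Finset.range J, ((k:ℝ)+1) * be (k+1) * t^k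

lemma hasDerivAt_sK (J : ℕ) (t : ℝ) : HasDerivAt (sK (J+1)) (sd J t) t := by
  unfold sK sd
  have h : ∀ i ∈ Finset.range (J+1), HasDerivAt (fun x : ℝ => be i * x^i) (be i * (i * t^(i-1))) t := by
    intro i _
    exact (hasDerivAt_pow i t).const_mul (be i)
  have h2 := HasDerivAt.fun_sum h
  rw [Finset.sum_range_succ'] at h2
  refine h2.congr_deriv ?_
  simp only [Nat.cast_zero, zero_mul, mul_zero, add_zero]
  refine Finset.sum_congr rfl fun i _ => ?_
  simp only [Nat.add_sub_cancel]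
  push_cast
  ring

lemma ode (J : ℕ) (t : ℝ) :
    (1 - t) * sd J t = 1/2 * sK (J+1) t - ((J:ℝ)+1) * be (J+1) * t^J := by
  induction J with
  | zero =>
    have h := be_succ 0
    simp only [sd, sK, Finset.range_zero, Finset.sum_empty, mul_zero, zero_add, Finset.sum_range_one,
      be_zero, pow_zero, mul_one, Nat.cast_zero] at h ⊢
    linarith
  | succ J ih =>
    have h1 : sd (J+1) t = sd J t + ((J:ℝ)+1) * be (J+1) * t^J := by
      unfold sd; rw [Finset.sum_range_succ]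
    have h2 : sK (J+1+1) t = sK (J+1) t + be (J+1) * t^(J+1) := by
      unfold sK; rw [Finset.sum_range_succ]
    have h3 := be_succ (J+1)
    rw [h1, h2, mul_add, ih]
    push_cast at h3 ⊢
    have h4 : ((J:ℝ)+1+1) * be (J+1+1) * t^(J+1) = (J+1+1/2) * be (J+1) * t^(J+1) := by rw [h3]
    rw [h4]
    ring

lemma sK_nonneg (K : ℕ) {t : ℝ} (ht : 0 ≤ t) : 0 ≤ sK K t := by
  unfold sK
  exact Finset.sum_nonneg fun k _ => mul_nonneg (be_pos k).le (pow_nonneg ht k)

lemma sK_le (K : ℕ) {t : ℝ} (ht : 0 ≤ t) (ht1 : t ≤ 1) : sK K t ≤ K := by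
  unfold sK
  calc ∑ k ∈ Finset.range K, be k * t^k ≤ ∑ k ∈ Finset.range K, (1:ℝ) := by
        refine Finset.sum_le_sum fun k _ => ?_
        calc be k * t^k ≤ 1 * 1 := mul_le_mul (be_le_one k) (pow_le_one₀ ht ht1) (pow_nonneg ht k)
              (by norm_num)
          _ = 1 := one_mul 1
    _ = K := by simp

/-- kappa -/
noncomputable def ka (J : ℕ) : ℝ := ((J:ℝ)+1) * be (J+1)

lemma ka_pos (J : ℕ) : 0 < ka J := by
  unfold ka; have := be_pos (J+1); positivity

lemma ka_le (J : ℕ) : ka J ≤ J + 1 := by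
  unfold ka
  have h := be_le_one (J+1)
  have hJ : (0:ℝ) ≤ (J:ℝ)+1 := by positivity
  calc ((J:ℝ)+1) * be (J+1) ≤ ((J:ℝ)+1) * 1 := mul_le_mul_of_nonneg_left h hJ
    _ = _ := mul_one _

/-- lower bound for `(1-t) s(t)^2` -/
lemma G_lower (J : ℕ) {t : ℝ} (ht : 0 ≤ t) (ht1 : t ≤ 1) :
    1 - 2 * ((J:ℝ)+1) * t^(J+1) ≤ (1 - t) * (sK (J+1) t)^2 := by
  set H : ℝ → ℝ := fun t => (1 - t) * (sK (J+1) t)^2 + 2 * ((J:ℝ)+1) * t^(J+1) with hH
  have hd : ∀ t : ℝ, HasDerivAt H (-(2 * ka J * t^J * sK (J+1) t) + 2 * ((J:ℝ)+1) * (((J:ℝ)+1) * t^J)) t := by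
    intro t
    have h1 := hasDerivAt_sK J t
    have h2 : HasDerivAt (fun t : ℝ => 1 - t) (-1) t := by
      simpa using (hasDerivAt_id t).const_sub 1
    have h3 := h2.mul (h1.pow 2)
    have h4 := (hasDerivAt_pow (J+1) t).const_mul (2 * ((J:ℝ)+1))
    have h5 := h3.add h4
    refine HasDerivAt.congr_deriv h5 ?_
    have ho := ode J t
    simp only [Nat.cast_ofNat, Nat.add_one_sub_one, pow_one, Nat.cast_add, Nat.cast_one,
      Pi.pow_apply]
    have : -1 * (sK (J+1) t)^2 + (1 - t) * (2 * sK (J+1) t * sd J t) =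
        -(sK (J+1) t)^2 + 2 * sK (J+1) t * ((1-t) * sd J t) := by ring
    unfold ka
    rw [this, ho]
    ring
  have hmono : MonotoneOn H (Set.Icc 0 1) := by
    refine monotoneOn_of_deriv_nonneg (convex_Icc 0 1) ?_ ?_ ?_
    · exact fun x _ => (hd x).continuousAt.continuousWithinAt
    · exact fun x _ => (hd x).differentiableAt.differentiableWithinAt
    · intro x hx
      rw [interior_Icc] at hx
      rw [(hd x).deriv]
      have hx0 : 0 ≤ x := hx.1.le
      have h1 := sK_le (J+1) hx0 hx.2.le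
      have h2 := sK_nonneg (J+1) hx0
      have h3 := ka_le J
      have h4 := ka_pos J
      have h5 : ka J * sK (J+1) x ≤ ((J:ℝ)+1) * ((J:ℝ)+1) := by
        refine mul_le_mul h3 ?_ h2 (by positivity)
        push_cast at h1; exact h1
      have h6 : 0 ≤ x^J := pow_nonneg hx0 J
      nlinarith [mul_le_mul_of_nonneg_right h5 h6]
  have h0 : H 0 = 1 := by
    simp only [hH]
    have e0 : sK (J+1) 0 = 1 := by
      unfold sK
      rw [Finset.sum_range_succ']
      simp [be_zero]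
    rw [e0, zero_pow (Nat.succ_ne_zero J)]
    norm_num
  have := hmono (Set.left_mem_Icc.mpr zero_le_one) ⟨ht, ht1⟩ ht
  rw [h0] at this
  simp only [hH] at this
  linarith

/-! ### drifts -/

/-- drift of the reversed polynomial -/
noncomputable def dQ (K : ℕ) (i : ℕ) : ℝ := if i % 2 = 0 ∧ i < 2 * K then be (i/2) else 0

/-- drift of the polynomial -/
noncomputable def dP (n K : ℕ) (i : ℕ) : ℝ := if i ≤ n then dQ K (n - i) else 0

lemma dQ_nonneg (K i : ℕ) : 0 ≤ dQ K i := by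
  unfold dQ; split_ifs
  · exact (be_pos _).le
  · exact le_rfl

lemma dP_nonneg (n K i : ℕ) : 0 ≤ dP n K i := by
  unfold dP; split_ifs
  · exact dQ_nonneg _ _
  · exact le_rfl

lemma dQ_zero_of_ge {K i : ℕ} (h : 2 * K ≤ i) : dQ K i = 0 := by
  unfold dQ; rw [if_neg]; rintro ⟨_, h2⟩; omega

lemma sum_dQ (K : ℕ) (x : ℝ) : ∑ i ∈ Finset.range (2*K), dQ K i * x^i = sK K (x^2) := by
  have h : ∀ m, m ≤ K → ∑ i ∈ Finset.range (2*m), dQ K i * x^i = sK m (x^2) := by
    intro m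
    induction m with
    | zero => intro _; simp [sK]
    | succ m ih =>
      intro hm
      rw [show 2 * (m+1) = 2*m + 1 + 1 by ring, Finset.sum_range_succ, Finset.sum_range_succ,
        ih (by omega)]
      have h1 : dQ K (2*m) = be m := by
        unfold dQ; rw [if_pos (by omega)]; congr 1; omega
      have h2 : dQ K (2*m+1) = 0 := by
        unfold dQ; rw [if_neg]; omega
      rw [h1, h2, zero_mul, add_zero]
      unfold sK
      rw [Finset.sum_range_succ, ← pow_mul]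
  exact h K le_rfl

lemma dm_dQ {n K : ℕ} (h : 2 * K ≤ n + 1) (x : ℝ) : dm n (dQ K) x = sK K (x^2) := by
  unfold dm
  rw [← sum_dQ K x]
  symm
  refine Finset.sum_subset (Finset.range_subset_range.mpr h) fun i _ hi => ?_
  rw [dQ_zero_of_ge (by simpa using hi), zero_mul]

lemma dm'_dQ {n J : ℕ} (h : 2 * (J+1) ≤ n + 1) (x : ℝ) :
    dm' n (dQ (J+1)) x = 2 * x * sd J (x^2) := by
  have h1 := hasDerivAt_dm n (dQ (J+1)) x
  have h2 : HasDerivAt (fun x : ℝ => sK (J+1) (x^2)) (sd J (x^2) * (2 * x)) x := by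
    have h3 : HasDerivAt (fun x : ℝ => x^2) (2 * x) x := by
      simpa using hasDerivAt_pow 2 x
    exact (hasDerivAt_sK J (x^2)).comp x h3
  have h4 : dm n (dQ (J+1)) = fun x : ℝ => sK (J+1) (x^2) := by
    funext y; exact dm_dQ h y
  rw [h4] at h1
  rw [h1.unique h2]; ring

lemma mu_dQ {n J : ℕ} (h : 2 * (J+1) ≤ n + 1) (x : ℝ) (hx : x^2 < 1) :
    mu n (dQ (J+1)) x = (x / (1 - x^2)) * (-(2 * ka J * (x^2)^J) +
      sK (J+1) (x^2) * ((n+1) * (x^2)^n) / kV n x) := by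
  have hV := kV_pos n x
  have h1 : (1 - x^2) ≠ 0 := by
    have : 0 < 1 - x^2 := by linarith
    exact this.ne'
  unfold mu
  rw [dm_dQ h, dm'_dQ h, kK_eq, kV_eq]
  rw [kV_eq] at hV
  have ho := ode J (x^2)
  have hB := gB_closed n (x^2)
  have e1 : sd J (x^2) = (1/2 * sK (J+1) (x^2) - ka J * (x^2)^J) / (1 - x^2) := by
    rw [eq_div_iff h1, mul_comm]; exact ho
  have e2 : gB n (x^2) = (gA n (x^2) - (n+1) * (x^2)^n) / (1 - x^2) := by
    rw [eq_div_iff h1, mul_comm]; exact hB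
  rw [e1, e2]
  field_simp
  ring

lemma mu_dQ_bound {n J : ℕ} (h : 2 * (J+1) ≤ n + 1) {x : ℝ} (hx0 : 0 ≤ x) (hx : x < 1)
    (hhalf : (x^2)^(n+1) ≤ 1/2) :
    |mu n (dQ (J+1)) x| / √(kV n x) ≤
      2 * √2 * (x * ka J * (x^2)^J / √(1 - x^2)) + 2 * ((J:ℝ)+1) * ((n+1) * (x^2)^n) := by
  have hx2 : x^2 < 1 := by nlinarith
  have h1 : 0 < 1 - x^2 := by linarith
  have hV := kV_pos n x
  have hV1 := kV_ge_one n x
  have hs : 1 ≤ √(kV n x) := by rw [Real.one_le_sqrt]; exact hV1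
  have hs0 : 0 < √(kV n x) := lt_of_lt_of_le one_pos hs
  have hc : (1 - x^2) * kV n x = 1 - (x^2)^(n+1) := by rw [kV_eq]; exact gA_closed n (x^2)
  have hc2 : 1/2 ≤ (1 - x^2) * kV n x := by rw [hc]; linarith
  have hka := ka_pos J
  have hsK := sK_nonneg (J+1) (t := x^2) (by positivity)
  have hsK2 := sK_le (J+1) (t := x^2) (by positivity) hx2.le
  rw [mu_dQ h x hx2]
  have e1 : |x / (1 - x^2) * (-(2 * ka J * (x^2)^J) + sK (J+1) (x^2) * ((n+1) * (x^2)^n) / kV n x)| ≤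
      x / (1 - x^2) * (2 * ka J * (x^2)^J) +
        x / (1 - x^2) * (sK (J+1) (x^2) * ((n+1) * (x^2)^n) / kV n x) := by
    rw [abs_mul, abs_of_nonneg (by positivity), ← mul_add]
    refine mul_le_mul_of_nonneg_left ?_ (by positivity)
    refine (abs_add_le _ _).trans (le_of_eq ?_)
    rw [abs_neg, abs_of_nonneg (by positivity), abs_of_nonneg (by positivity)]
  have e2 : x / (1 - x^2) * (2 * ka J * (x^2)^J) / √(kV n x) ≤
      2 * √2 * (x * ka J * (x^2)^J / √(1 - x^2)) := by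
    have h2 : √(1 - x^2) ≤ √2 * ((1 - x^2) * √(kV n x)) := by
      have : √2 * ((1 - x^2) * √(kV n x)) = √(2 * ((1 - x^2)^2 * kV n x)) := by
        rw [Real.sqrt_mul (by norm_num), Real.sqrt_mul (by positivity), Real.sqrt_sq h1.le]
      rw [this]
      refine Real.sqrt_le_sqrt ?_
      nlinarith
    have h3 : 0 < √(1 - x^2) := Real.sqrt_pos.mpr h1
    have h4 : x / (1 - x^2) * (2 * ka J * (x^2)^J) / √(kV n x) =
        (2 * (x * ka J * (x^2)^J)) / ((1 - x^2) * √(kV n x)) := by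
      field_simp
    have h5 : 2 * √2 * (x * ka J * (x^2)^J / √(1 - x^2)) =
        (2 * (x * ka J * (x^2)^J)) * √2 / √(1 - x^2) := by ring
    rw [h4, h5, div_le_div_iff₀ (by positivity) h3]
    have h6 : 0 ≤ 2 * (x * ka J * (x^2)^J) := by positivity
    calc 2 * (x * ka J * (x^2)^J) * √(1 - x^2) ≤
        2 * (x * ka J * (x^2)^J) * (√2 * ((1 - x^2) * √(kV n x))) :=
          mul_le_mul_of_nonneg_left h2 h6
      _ = _ := by ring
  have e3 : x / (1 - x^2) * (sK (J+1) (x^2) * ((n+1) * (x^2)^n) / kV n x) / √(kV n x) ≤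
      2 * ((J:ℝ)+1) * ((n+1) * (x^2)^n) := by
    have h4 : x / (1 - x^2) * (sK (J+1) (x^2) * ((n+1) * (x^2)^n) / kV n x) / √(kV n x) =
        (x * (sK (J+1) (x^2) * ((n+1) * (x^2)^n))) / (((1 - x^2) * kV n x) * √(kV n x)) := by
      field_simp
    rw [h4, div_le_iff₀ (by positivity)]
    have h5 : (1/2 : ℝ) * 1 ≤ ((1 - x^2) * kV n x) * √(kV n x) :=
      mul_le_mul hc2 hs (by norm_num) (by positivity)
    have h6 : x * (sK (J+1) (x^2) * ((n+1) * (x^2)^n)) ≤ 1 * ((((J+1:ℕ):ℝ)) * ((n+1) * (x^2)^n)) := by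
      refine mul_le_mul hx.le ?_ (by positivity) (by norm_num)
      exact mul_le_mul_of_nonneg_right hsK2 (by positivity)
    have h7 : 0 ≤ 2 * ((J:ℝ)+1) * ((n+1) * (x^2)^n) := by positivity
    calc x * (sK (J+1) (x^2) * ((n+1) * (x^2)^n)) ≤ 1 * ((((J+1:ℕ):ℝ)) * ((n+1) * (x^2)^n)) := h6
      _ = 2 * ((J:ℝ)+1) * ((n+1) * (x^2)^n) * (1/2 * 1) := by push_cast; ring
      _ ≤ _ := mul_le_mul_of_nonneg_left h5 h7
  calc _ ≤ (x / (1 - x^2) * (2 * ka J * (x^2)^J) +
        x / (1 - x^2) * (sK (J+1) (x^2) * ((n+1) * (x^2)^n) / kV n x)) / √(kV n x) :=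
        div_le_div_of_nonneg_right e1 hs0.le
    _ = x / (1 - x^2) * (2 * ka J * (x^2)^J) / √(kV n x) +
        x / (1 - x^2) * (sK (J+1) (x^2) * ((n+1) * (x^2)^n) / kV n x) / √(kV n x) := add_div _ _ _
    _ ≤ _ := add_le_add e2 e3

/-! ### crude bounds -/

lemma kK_abs (n : ℕ) {x : ℝ} (hx : |x| ≤ 1) : |kK n x| ≤ n * kV n x := by
  have h1 : |kK n x| ≤ ∑ i ∈ Finset.range n, (n:ℝ) * (x^2)^i := by
    unfold kK
    refine (Finset.abs_sum_le_sum_abs _ _).trans (Finset.sum_le_sum fun i hi => ?_)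
    have hi' : (i:ℝ) + 1 ≤ n := by
      have := Finset.mem_range.mp hi
      exact_mod_cast this
    have e1 : |x^(i+1) * ((i+1) * x^i)| = ((i:ℝ)+1) * (|x| * (x^2)^i) := by
      rw [abs_mul, abs_mul, abs_pow, abs_pow, abs_of_nonneg (by positivity : (0:ℝ) ≤ (i:ℝ)+1),
        ← sq_abs x, ← pow_mul]
      ring
    rw [e1]
    have h2 : 0 ≤ (x^2)^i := by positivity
    calc ((i:ℝ)+1) * (|x| * (x^2)^i) ≤ n * (1 * (x^2)^i) := by
          refine mul_le_mul hi' ?_ (by positivity) (Nat.cast_nonneg n)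
          exact mul_le_mul_of_nonneg_right hx h2
      _ = _ := by ring
  refine h1.trans ?_
  rw [← Finset.mul_sum, kV_eq]
  refine mul_le_mul_of_nonneg_left ?_ (Nat.cast_nonneg n)
  unfold gA
  rw [Finset.sum_range_succ]
  have : 0 ≤ (x^2)^n := by positivity
  linarith

lemma mu_crude (n : ℕ) (d : ℕ → ℝ) (hd : ∀ i, 0 ≤ d i) {K q x : ℝ}
    (hsum : ∑ i ∈ Finset.range (n+1), d i ≤ K) (hx : |x| ≤ 1) (hq : 0 ≤ q)
    (hdq : ∀ i, i ≤ n → d i ≠ 0 → |x|^(i-1) ≤ q) :
    |mu n d x| ≤ 2 * (n * (q * K)) := by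
  have hV := kV_pos n x
  have hn : (0:ℝ) ≤ n := Nat.cast_nonneg n
  have hK : 0 ≤ K := (Finset.sum_nonneg fun i _ => hd i).trans hsum
  have h1 : |dm n d x| ≤ q * K := by
    unfold dm
    calc |∑ i ∈ Finset.range (n+1), d i * x^i| ≤ ∑ i ∈ Finset.range (n+1), |d i * x^i| :=
          Finset.abs_sum_le_sum_abs _ _
      _ ≤ ∑ i ∈ Finset.range (n+1), q * d i := by
          refine Finset.sum_le_sum fun i hi => ?_
          rw [abs_mul, abs_of_nonneg (hd i), abs_pow, mul_comm]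
          by_cases h0 : d i = 0
          · rw [h0]; simp
          · refine mul_le_mul_of_nonneg_right ?_ (hd i)
            refine le_trans ?_ (hdq i (Nat.lt_succ_iff.mp (Finset.mem_range.mp hi)) h0)
            exact pow_le_pow_of_le_one (abs_nonneg _) hx (Nat.sub_le i 1)
      _ = q * ∑ i ∈ Finset.range (n+1), d i := by rw [Finset.mul_sum]
      _ ≤ q * K := mul_le_mul_of_nonneg_left hsum hq
  have h2 : |dm' n d x| ≤ n * (q * K) := by
    unfold dm'
    calc |∑ i ∈ Finset.range n, d (i+1) * ((i+1) * x^i)|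
        ≤ ∑ i ∈ Finset.range n, |d (i+1) * ((i+1) * x^i)| := Finset.abs_sum_le_sum_abs _ _
      _ ≤ ∑ i ∈ Finset.range n, (n * q) * d (i+1) := by
          refine Finset.sum_le_sum fun i hi => ?_
          have hi' := Finset.mem_range.mp hi
          have hi2 : (i:ℝ) + 1 ≤ n := by exact_mod_cast hi'
          rw [abs_mul, abs_of_nonneg (hd (i+1)), abs_mul, abs_pow,
            abs_of_nonneg (by positivity : (0:ℝ) ≤ (i:ℝ)+1), mul_comm]
          by_cases h0 : d (i+1) = 0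
          · rw [h0]; simp
          · refine mul_le_mul_of_nonneg_right ?_ (hd _)
            have h3 := hdq (i+1) hi' h0
            rw [Nat.add_sub_cancel] at h3
            exact mul_le_mul hi2 h3 (by positivity) hn
      _ = (n * q) * ∑ i ∈ Finset.range n, d (i+1) := by rw [Finset.mul_sum]
      _ ≤ (n * q) * K := by
          refine mul_le_mul_of_nonneg_left ?_ (by positivity)
          refine le_trans ?_ hsum
          rw [Finset.sum_range_succ']
          have := hd 0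
          linarith
      _ = n * (q * K) := by ring
  have h3 : |dm n d x * kK n x / kV n x| ≤ n * (q * K) := by
    rw [abs_div, abs_mul, abs_of_pos hV, div_le_iff₀ hV]
    calc |dm n d x| * |kK n x| ≤ (q * K) * (n * kV n x) :=
          mul_le_mul h1 (kK_abs n hx) (abs_nonneg _) (by positivity)
      _ = n * (q * K) * kV n x := by ring
  unfold mu
  calc |dm' n d x - dm n d x * kK n x / kV n x| ≤ |dm' n d x| + |dm n d x * kK n x / kV n x| :=
        abs_sub _ _
    _ ≤ 2 * (n * (q * K)) := by linarith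

lemma sum_dQ_le {n K : ℕ} (h : 2 * K ≤ n + 1) : ∑ i ∈ Finset.range (n+1), dQ K i ≤ K := by
  have h1 := dm_dQ h 1
  unfold dm at h1
  simp only [one_pow, mul_one] at h1
  rw [h1]
  exact sK_le K zero_le_one le_rfl

lemma sum_dP_le {n K : ℕ} (h : 2 * K ≤ n + 1) : ∑ i ∈ Finset.range (n+1), dP n K i ≤ K := by
  refine le_trans (le_of_eq ?_) (sum_dQ_le h)
  rw [← Finset.sum_range_reflect (fun i => dQ K i) (n+1)]
  refine Finset.sum_congr rfl fun i hi => ?_
  have hi' := Nat.lt_succ_iff.mp (Finset.mem_range.mp hi)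
  unfold dP
  rw [if_pos hi']
  congr 1

lemma kV_mono (n : ℕ) {x y : ℝ} (h : x^2 ≤ y^2) : kV n x ≤ kV n y := by
  rw [kV_eq, kV_eq]
  unfold gA
  exact Finset.sum_le_sum fun i _ => pow_le_pow_left₀ (sq_nonneg x) h i

end Pool.Agent.H96.Kac
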