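import Pool.Agent.H96.KacD

set_option autoImplicit false
open MeasureTheory ProbabilityTheory Filter Topology
open scoped ENNReal NNReal

namespace Pool.Agent.H96.Kac

lemma ftc {a b : ℝ} (hab : a ≤ b) (h H : ℝ → ℝ) (hd : ∀ x ∈ Set.Icc a b, HasDerivAt H (h x) x)
    (hc : ContinuousOn h (Set.Icc a b)) (hnn : ∀ x ∈ Set.Icc a b, 0 ≤ h x) :
    ∫⁻ x in Set.Icc a b, ENNReal.ofReal (h x) = ENNReal.ofReal (H b - H a) := by
  have hint : IntegrableOn h (Set.Icc a b) := hc.integrableOn_Icc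
  rw [← ofReal_integral_eq_lintegral_ofReal hint
    ((ae_restrict_iff' measurableSet_Icc).mpr (Eventually.of_forall hnn))]
  congr 1
  rw [integral_Icc_eq_integral_Ioc, ← intervalIntegral.integral_of_le hab]
  refine intervalIntegral.integral_eq_sub_of_hasDerivAt ?_ ?_
  · intro x hx
    rw [Set.uIcc_of_le hab] at hx
    exact hd x hx
  · rw [intervalIntegrable_iff_integrableOn_Icc_of_le hab]
    exact hint

lemma lint_const {a b : ℝ} (hab : a ≤ b) (c : ℝ) :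
    ∫⁻ _ in Set.Icc a b, ENNReal.ofReal c = ENNReal.ofReal ((b - a) * c) := by
  rw [lintegral_const, Measure.restrict_apply_univ, Real.volume_Icc, mul_comm,
    ENNReal.ofReal_mul (by linarith)]

/-- integral of `e/π * (1/(2(1-x)) + 1/2)` -/
lemma lint_log {a b e : ℝ} (hab : a ≤ b) (hb : b < 1) (he : 0 ≤ e) :
    ∫⁻ x in Set.Icc a b, ENNReal.ofReal (e / Real.pi * (1/2 * (1 - x)⁻¹ + 1/2)) =
      ENNReal.ofReal (e / Real.pi * (1/2 * (Real.log (1 - a) - Real.log (1 - b)) + 1/2 * (b - a))) := by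
  have hpi := Real.pi_pos
  have h1 := ftc hab (fun x => e / Real.pi * (1/2 * (1 - x)⁻¹ + 1/2))
    (fun x => e / Real.pi * (- (1/2 * Real.log (1 - x)) + 1/2 * x)) ?_ ?_ ?_
  · rw [h1]
    congr 1
    ring
  · intro x hx
    have hx1 : 1 - x ≠ 0 := by
      have : 0 < 1 - x := by linarith [hx.2]
      exact this.ne'
    have h2 : HasDerivAt (fun x : ℝ => 1 - x) (-1) x := by
      simpa using (hasDerivAt_id x).const_sub 1
    have h3 := h2.log hx1
    have h4 := ((h3.const_mul (1/2)).neg.add ((hasDerivAt_id x).const_mul (1/2))).const_mul (e / Real.pi)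
    refine h4.congr_deriv ?_
    field_simp
  · refine ContinuousOn.mul continuousOn_const (ContinuousOn.add (ContinuousOn.mul continuousOn_const
      (ContinuousOn.inv₀ (by fun_prop) ?_)) continuousOn_const)
    intro x hx
    have : 0 < 1 - x := by linarith [hx.2]
    exact this.ne'
  · intro x hx
    have : 0 < 1 - x := by linarith [hx.2]
    positivity

lemma inv_bound {x : ℝ} (hx0 : 0 ≤ x) (hx : x < 1) : 1 / (1 - x^2) ≤ 1/2 * (1 - x)⁻¹ + 1/2 := by
  have h1 : 0 < 1 - x := by linarith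
  have h2 : 0 < 1 + x := by linarith
  have h3 : 1 - x^2 = (1 - x) * (1 + x) := by ring
  have h4 : 1 / ((1 - x) * (1 + x)) = 1/2 * (1 - x)⁻¹ + 1/2 * (1 + x)⁻¹ := by
    field_simp; ring
  rw [h3, h4]
  have h5 : (1 + x)⁻¹ ≤ 1 := inv_le_one_of_one_le₀ (by linarith)
  linarith

/-- bound on `[0,1]` -/
lemma half_bound (F a : ℝ → ℝ) (n : ℕ) {r0 r1 r2 e c A : ℝ} (hr0 : 0 ≤ r0) (hr02 : r0 ≤ r2)
    (hr2 : r2 < 1) (hr1 : 0 ≤ r1) (hr11 : r1 ≤ 1) (he : 0 ≤ e) (ha : Measurable a)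
    (hF0 : ∀ x, 0 ≤ x → x ≤ r0 → x ≤ r1 → F x ≤ e / Real.pi * (1/2 * (1 - x)⁻¹ + 1/2) + a x)
    (hF0' : ∀ x, 0 ≤ x → x ≤ r0 → r1 < x → F x ≤ e / Real.pi * (1/2 * (1 - x)⁻¹ + 1/2) + c)
    (hF1 : ∀ x, r0 < x → x ≤ r2 → x ≤ r1 → F x ≤ 1 / Real.pi * (1/2 * (1 - x)⁻¹ + 1/2) + a x)
    (hF1' : ∀ x, r0 < x → x ≤ r2 → r1 < x → F x ≤ 1 / Real.pi * (1/2 * (1 - x)⁻¹ + 1/2) + c)
    (hF2 : ∀ x, r2 < x → x ≤ 1 → x ≤ r1 → F x ≤ n + a x)
    (hF2' : ∀ x, r2 < x → x ≤ 1 → r1 < x → F x ≤ n + c)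
    (hA : ∫⁻ x in Set.Icc 0 r1, ENNReal.ofReal (a x) ≤ ENNReal.ofReal A) :
    ∫⁻ x in Set.Icc (0:ℝ) 1, ENNReal.ofReal (F x) ≤
      ENNReal.ofReal (e / Real.pi * (1/2 * (Real.log (1 - 0) - Real.log (1 - r0)) + 1/2 * (r0 - 0))) +
      ENNReal.ofReal (1 / Real.pi * (1/2 * (Real.log (1 - r0) - Real.log (1 - r2)) + 1/2 * (r2 - r0))) +
      ENNReal.ofReal ((1 - r2) * n) + (ENNReal.ofReal A + ENNReal.ofReal ((1 - r1) * c)) := by
  have hpi := Real.pi_pos
  set T : ℝ → ℝ := fun x => if x ≤ r0 then e / Real.pi * (1/2 * (1 - x)⁻¹ + 1/2) else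
    if x ≤ r2 then 1 / Real.pi * (1/2 * (1 - x)⁻¹ + 1/2) else n with hT
  set U : ℝ → ℝ := fun x => if x ≤ r1 then a x else c with hU
  have hUm : Measurable U := Measurable.ite measurableSet_Iic ha measurable_const
  have hTm : Measurable T := by
    refine Measurable.ite measurableSet_Iic (by fun_prop) ?_
    exact Measurable.ite measurableSet_Iic (by fun_prop) measurable_const
  have hFTU : ∀ x ∈ Set.Icc (0:ℝ) 1, F x ≤ T x + U x := by
    intro x hx
    simp only [hT, hU]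
    split_ifs with h1 h2 h3 h4 h5
    · exact hF0 x hx.1 h1 h2
    · exact hF0' x hx.1 h1 (not_le.mp h2)
    · exact hF1 x (not_le.mp h1) h3 h4
    · exact hF1' x (not_le.mp h1) h3 (not_le.mp h4)
    · exact hF2 x (not_le.mp h3) hx.2 h5
    · exact hF2' x (not_le.mp h3) hx.2 (not_le.mp h5)
  have step1 : ∫⁻ x in Set.Icc (0:ℝ) 1, ENNReal.ofReal (F x) ≤
      (∫⁻ x in Set.Icc (0:ℝ) 1, ENNReal.ofReal (T x)) +
        ∫⁻ x in Set.Icc (0:ℝ) 1, ENNReal.ofReal (U x) := by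
    have hTm' : Measurable (fun x => ENNReal.ofReal (T x)) := ENNReal.measurable_ofReal.comp hTm
    rw [← lintegral_add_left hTm']
    refine setLIntegral_mono' measurableSet_Icc fun x hx => ?_
    exact (ENNReal.ofReal_le_ofReal (hFTU x hx)).trans ENNReal.ofReal_add_le
  refine step1.trans ?_
  refine add_le_add ?_ ?_
  · have hsub : Set.Icc (0:ℝ) 1 ⊆ (Set.Icc 0 r0 ∪ Set.Ioc r0 r2) ∪ Set.Ioc r2 1 := by
      intro x hx
      by_cases h1 : x ≤ r0
      · exact Or.inl (Or.inl ⟨hx.1, h1⟩)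
      · by_cases h2 : x ≤ r2
        · exact Or.inl (Or.inr ⟨not_le.mp h1, h2⟩)
        · exact Or.inr ⟨not_le.mp h2, hx.2⟩
    refine (lintegral_mono_set hsub).trans ((lintegral_union_le _ _ _).trans ?_)
    refine add_le_add ((lintegral_union_le _ _ _).trans (add_le_add ?_ ?_)) ?_
    · rw [← lint_log hr0 (lt_of_le_of_lt hr02 hr2) he]
      refine le_of_eq (setLIntegral_congr_fun measurableSet_Icc fun x hx => ?_)
      simp only [hT]
      rw [if_pos hx.2]
    · rw [← lint_log hr02 hr2 zero_le_one]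
      refine le_trans (le_of_eq ?_) (lintegral_mono_set Set.Ioc_subset_Icc_self)
      refine setLIntegral_congr_fun measurableSet_Ioc fun x hx => ?_
      simp only [hT]
      rw [if_neg (not_le.mpr hx.1), if_pos hx.2]
    · rw [← lint_const hr2.le]
      refine le_trans (le_of_eq ?_) (lintegral_mono_set Set.Ioc_subset_Icc_self)
      refine setLIntegral_congr_fun measurableSet_Ioc fun x hx => ?_
      simp only [hT]
      rw [if_neg (not_le.mpr (lt_of_le_of_lt hr02 hx.1)), if_neg (not_le.mpr hx.1)]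
  · have hsub : Set.Icc (0:ℝ) 1 ⊆ Set.Icc 0 r1 ∪ Set.Ioc r1 1 := by
      intro x hx
      by_cases h1 : x ≤ r1
      · exact Or.inl ⟨hx.1, h1⟩
      · exact Or.inr ⟨not_le.mp h1, hx.2⟩
    refine (lintegral_mono_set hsub).trans ((lintegral_union_le _ _ _).trans (add_le_add ?_ ?_))
    · refine le_trans (le_of_eq ?_) hA
      refine setLIntegral_congr_fun measurableSet_Icc fun x hx => ?_
      simp only [hU]
      rw [if_pos hx.2]
    · rw [← lint_const hr11]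
      refine le_trans (le_of_eq ?_) (lintegral_mono_set Set.Ioc_subset_Icc_self)
      refine setLIntegral_congr_fun measurableSet_Ioc fun x hx => ?_
      simp only [hU]
      rw [if_neg (not_le.mpr hx.1)]

lemma sym_bound (F : ℝ → ℝ) (B : ℝ≥0∞)
    (h1 : ∫⁻ x in Set.Icc (0:ℝ) 1, ENNReal.ofReal (F x) ≤ B)
    (h2 : ∫⁻ x in Set.Icc (0:ℝ) 1, ENNReal.ofReal (F (-x)) ≤ B) :
    ∫⁻ x in Set.Icc (-1:ℝ) 1, ENNReal.ofReal (F x) ≤ B + B := by
  have hsub : Set.Icc (-1:ℝ) 1 ⊆ Set.Icc (-1) 0 ∪ Set.Icc 0 1 := by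
    intro x hx
    rcases le_total x 0 with h | h
    · exact Or.inl ⟨hx.1, h⟩
    · exact Or.inr ⟨h, hx.2⟩
  refine (lintegral_mono_set hsub).trans ((lintegral_union_le _ _ _).trans (add_le_add ?_ h1))
  have hmp : MeasurePreserving (fun x : ℝ => -x) volume volume := Measure.measurePreserving_neg volume
  have h3 := hmp.setLIntegral_comp_preimage_emb (Homeomorph.neg ℝ).measurableEmbedding
    (fun x => ENNReal.ofReal (F x)) (Set.Icc (-1:ℝ) 0)
  rw [← h3]
  have h4 : (fun x : ℝ => -x) ⁻¹' (Set.Icc (-1:ℝ) 0) = Set.Icc 0 1 := by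
    ext x
    simp only [Set.mem_preimage, Set.mem_Icc]
    constructor <;> rintro ⟨a, b⟩ <;> constructor <;> linarith
  rw [h4]
  exact h2

end Pool.Agent.H96.Kac
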