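import Pool.Agent.H96.KacE

set_option autoImplicit false
open MeasureTheory ProbabilityTheory Filter Topology
open scoped ENNReal NNReal

namespace Pool.Agent.H96.Kac

lemma exp_le_one' (n : ℕ) (d : ℕ → ℝ) (y : ℝ) :
    Real.exp (-(dm n d y)^2 / (2 * kV n y)) ≤ 1 := by
  have hV := kV_pos n y
  rw [Real.exp_le_one_iff]
  have : 0 ≤ (dm n d y)^2 / (2 * kV n y) := by positivity
  rw [neg_div]; linarith

lemma full_bound (n : ℕ) (d : ℕ → ℝ) (a : ℝ → ℝ) {r0 r1 r2 e c A : ℝ} (hr0 : 0 ≤ r0) (hr02 : r0 ≤ r2)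
    (hr2 : r2 < 1) (hr1 : 0 ≤ r1) (hr11 : r1 ≤ 1) (he : 0 ≤ e) (ha : Measurable a)
    (h0 : ∀ y, |y| ≤ r0 → Real.exp (-(dm n d y)^2 / (2 * kV n y)) ≤ e)
    (hmu : ∀ y, |y| ≤ r1 → |mu n d y| / √(kV n y) ≤ a |y|)
    (hmu' : ∀ y, r1 < |y| → |y| ≤ 1 → |mu n d y| / √(kV n y) ≤ c)
    (hA : ∫⁻ x in Set.Icc 0 r1, ENNReal.ofReal (a x) ≤ ENNReal.ofReal A) :
    ∫⁻ x in Set.Icc (-1:ℝ) 1, ENNReal.ofReal (rho n d x) ≤
      (ENNReal.ofReal (e / Real.pi * (1/2 * (Real.log (1 - 0) - Real.log (1 - r0)) + 1/2 * (r0 - 0))) +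
      ENNReal.ofReal (1 / Real.pi * (1/2 * (Real.log (1 - r0) - Real.log (1 - r2)) + 1/2 * (r2 - r0))) +
      ENNReal.ofReal ((1 - r2) * n) + (ENNReal.ofReal A + ENNReal.ofReal ((1 - r1) * c))) +
      (ENNReal.ofReal (e / Real.pi * (1/2 * (Real.log (1 - 0) - Real.log (1 - r0)) + 1/2 * (r0 - 0))) +
      ENNReal.ofReal (1 / Real.pi * (1/2 * (Real.log (1 - r0) - Real.log (1 - r2)) + 1/2 * (r2 - r0))) +
      ENNReal.ofReal ((1 - r2) * n) + (ENNReal.ofReal A + ENNReal.ofReal ((1 - r1) * c))) := by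
  have hpi := Real.pi_pos
  have key1 : ∀ y : ℝ, |y| ≤ r0 → rho n d y ≤
      e / Real.pi * (1/2 * (1 - |y|)⁻¹ + 1/2) + |mu n d y| / √(kV n y) := by
    intro y hy
    have hy1 : |y| < 1 := by linarith
    have hy2 : y^2 < 1 := by rw [← sq_abs]; have := abs_nonneg y; nlinarith
    have h1 := rho_le1 n d y hy2 (h0 y hy)
    have h2 := inv_bound (abs_nonneg y) hy1
    rw [sq_abs] at h2
    have h3 : e / Real.pi * (1 / (1 - y^2)) ≤ e / Real.pi * (1/2 * (1 - |y|)⁻¹ + 1/2) :=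
      mul_le_mul_of_nonneg_left h2 (by positivity)
    linarith
  have key2 : ∀ y : ℝ, |y| ≤ r2 → rho n d y ≤
      1 / Real.pi * (1/2 * (1 - |y|)⁻¹ + 1/2) + |mu n d y| / √(kV n y) := by
    intro y hy
    have hy1 : |y| < 1 := by linarith
    have hy2 : y^2 < 1 := by rw [← sq_abs]; have := abs_nonneg y; nlinarith
    have h1 := rho_le1 n d y hy2 (exp_le_one' n d y)
    have h2 := inv_bound (abs_nonneg y) hy1
    rw [sq_abs] at h2
    have h3 : 1 / Real.pi * (1 / (1 - y^2)) ≤ 1 / Real.pi * (1/2 * (1 - |y|)⁻¹ + 1/2) :=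
      mul_le_mul_of_nonneg_left h2 (by positivity)
    linarith
  have key3 := rho_le2 n d
  have main : ∀ s : ℝ → ℝ, (∀ x, |s x| = |x|) → ∫⁻ x in Set.Icc (0:ℝ) 1, ENNReal.ofReal (rho n d (s x)) ≤
      ENNReal.ofReal (e / Real.pi * (1/2 * (Real.log (1 - 0) - Real.log (1 - r0)) + 1/2 * (r0 - 0))) +
      ENNReal.ofReal (1 / Real.pi * (1/2 * (Real.log (1 - r0) - Real.log (1 - r2)) + 1/2 * (r2 - r0))) +
      ENNReal.ofReal ((1 - r2) * n) + (ENNReal.ofReal A + ENNReal.ofReal ((1 - r1) * c)) := by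
    intro s hs
    refine half_bound (fun x => rho n d (s x)) a n hr0 hr02 hr2 hr1 hr11 he ha ?_ ?_ ?_ ?_ ?_ ?_ hA
    · intro x hx h1 h2
      have hsx : |s x| = x := by rw [hs, abs_of_nonneg hx]
      have k := key1 (s x) (by rw [hsx]; exact h1)
      have m := hmu (s x) (by rw [hsx]; exact h2)
      rw [hsx] at k m
      linarith
    · intro x hx h1 h2
      have hsx : |s x| = x := by rw [hs, abs_of_nonneg hx]
      have k := key1 (s x) (by rw [hsx]; exact h1)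
      have m := hmu' (s x) (by rw [hsx]; exact h2) (by rw [hsx]; linarith)
      rw [hsx] at k
      linarith
    · intro x h0 h1 h2
      have hsx : |s x| = x := by rw [hs, abs_of_nonneg (by linarith)]
      have k := key2 (s x) (by rw [hsx]; exact h1)
      have m := hmu (s x) (by rw [hsx]; exact h2)
      rw [hsx] at k m
      linarith
    · intro x h0 h1 h2
      have hsx : |s x| = x := by rw [hs, abs_of_nonneg (by linarith)]
      have k := key2 (s x) (by rw [hsx]; exact h1)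
      have m := hmu' (s x) (by rw [hsx]; exact h2) (by rw [hsx]; linarith)
      rw [hsx] at k
      linarith
    · intro x h0 h1 h2
      have hsx : |s x| = x := by rw [hs, abs_of_nonneg (by linarith)]
      have k := key3 (s x)
      have m := hmu (s x) (by rw [hsx]; exact h2)
      rw [hsx] at m
      linarith
    · intro x h0 h1 h2
      have hsx : |s x| = x := by rw [hs, abs_of_nonneg (by linarith)]
      have k := key3 (s x)
      have m := hmu' (s x) (by rw [hsx]; exact h2) (by rw [hsx]; linarith)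
      linarith
  refine sym_bound (rho n d) _ (main (fun x => x) (fun x => rfl)) (main (fun x => -x) (fun x => abs_neg x))

/-- numerical simplification -/
lemma num_bound {n L : ℕ} (hL : 2 ≤ L) (hn : L ≤ n) {e A c : ℝ} (he : 0 ≤ e) (he1 : e ≤ 1)
    (hA : 0 ≤ A) (hA3 : A ≤ 3) (hc : (1 - (1 - 1/(L:ℝ)^8)) * c ≤ 8) :
    ENNReal.ofReal (e / Real.pi * (1/2 * (Real.log (1 - 0) - Real.log (1 - (1 - 1/(L:ℝ)))) +
        1/2 * ((1 - 1/(L:ℝ)) - 0))) +
      ENNReal.ofReal (1 / Real.pi * (1/2 * (Real.log (1 - (1 - 1/(L:ℝ))) - Real.log (1 - (1 - 1/(n:ℝ)))) +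
        1/2 * ((1 - 1/(n:ℝ)) - (1 - 1/(L:ℝ))))) +
      ENNReal.ofReal ((1 - (1 - 1/(n:ℝ))) * n) +
        (ENNReal.ofReal A + ENNReal.ofReal ((1 - (1 - 1/(L:ℝ)^8)) * c)) ≤
    ENNReal.ofReal (1 / (2 * Real.pi) * (Real.log n - (1 - e) * Real.log L) + 13) := by
  have hpi := Real.pi_gt_three
  have hL' : (2:ℝ) ≤ L := by exact_mod_cast hL
  have hn' : (L:ℝ) ≤ n := by exact_mod_cast hn
  have hL0 : (0:ℝ) < L := by linarith
  have hn0 : (0:ℝ) < n := by linarith
  have e1 : 1 - (1 - 1/(L:ℝ)) = (L:ℝ)⁻¹ := by ring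
  have e2 : 1 - (1 - 1/(n:ℝ)) = (n:ℝ)⁻¹ := by ring
  have hlogL : 0 ≤ Real.log L := Real.log_nonneg (by linarith)
  have hlogLn : Real.log L ≤ Real.log n := Real.log_le_log hL0 hn'
  rw [e1, e2, Real.log_inv, Real.log_inv, sub_zero, Real.log_one, inv_mul_cancel₀ hn0.ne']
  have hLi : (0:ℝ) < 1/(L:ℝ) := by positivity
  have hni : (0:ℝ) < 1/(n:ℝ) := by positivity
  have hLn : 1/(n:ℝ) ≤ 1/(L:ℝ) := one_div_le_one_div_of_le hL0 hn'
  have hLi1 : 1/(L:ℝ) ≤ 1/2 := one_div_le_one_div_of_le (by norm_num) hL'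
  have p1 : 0 ≤ e / Real.pi * (1/2 * (0 - -Real.log L) + 1/2 * (1 - 1/(L:ℝ) - 0)) := by
    have : 0 ≤ 1/2 * (0 - -Real.log L) + 1/2 * (1 - 1/(L:ℝ) - 0) := by linarith
    positivity
  have p2 : 0 ≤ 1 / Real.pi * (1/2 * (-Real.log L - -Real.log n) + 1/2 * (1 - 1/(n:ℝ) - (1 - 1/(L:ℝ)))) := by
    have : 0 ≤ 1/2 * (-Real.log L - -Real.log n) + 1/2 * (1 - 1/(n:ℝ) - (1 - 1/(L:ℝ))) := by linarith
    positivity
  calc _ ≤ ENNReal.ofReal (e / Real.pi * (1/2 * (0 - -Real.log L) + 1/2 * (1 - 1/(L:ℝ) - 0))) +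
      ENNReal.ofReal (1 / Real.pi * (1/2 * (-Real.log L - -Real.log n) +
        1/2 * (1 - 1/(n:ℝ) - (1 - 1/(L:ℝ))))) + ENNReal.ofReal 1 + (ENNReal.ofReal 3 + ENNReal.ofReal 8) := by
        gcongr
    _ = ENNReal.ofReal (e / Real.pi * (1/2 * (0 - -Real.log L) + 1/2 * (1 - 1/(L:ℝ) - 0)) +
      1 / Real.pi * (1/2 * (-Real.log L - -Real.log n) +
        1/2 * (1 - 1/(n:ℝ) - (1 - 1/(L:ℝ)))) + 1 + (3 + 8)) := by
        rw [ENNReal.ofReal_add (by positivity) (by norm_num), ENNReal.ofReal_add (by positivity) (by norm_num),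
          ENNReal.ofReal_add p1 p2, ENNReal.ofReal_add (by norm_num) (by norm_num)]
    _ ≤ _ := by
        refine ENNReal.ofReal_le_ofReal ?_
        have q1 : e / Real.pi * (1/2 * (0 - -Real.log L) + 1/2 * (1 - 1/(L:ℝ) - 0)) ≤
            e / Real.pi * (1/2 * Real.log L) + 1/6 := by
          have : e / Real.pi * (1/2 * (1 - 1/(L:ℝ) - 0)) ≤ 1/3 * (1/2) := by
            refine mul_le_mul ?_ (by linarith) (by linarith) (by norm_num)
            rw [div_le_div_iff₀ (by linarith) (by norm_num)]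
            linarith
          calc _ = e / Real.pi * (1/2 * Real.log L) + e / Real.pi * (1/2 * (1 - 1/(L:ℝ) - 0)) := by ring
            _ ≤ _ := by linarith
        have q2 : 1 / Real.pi * (1/2 * (-Real.log L - -Real.log n) + 1/2 * (1 - 1/(n:ℝ) - (1 - 1/(L:ℝ)))) ≤
            1 / Real.pi * (1/2 * (Real.log n - Real.log L)) + 1/6 := by
          have : 1 / Real.pi * (1/2 * (1 - 1/(n:ℝ) - (1 - 1/(L:ℝ)))) ≤ 1/3 * (1/2) := by
            refine mul_le_mul ?_ (by linarith) (by linarith) (by norm_num)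
            rw [div_le_div_iff₀ (by linarith) (by norm_num)]
            linarith
          calc _ = 1 / Real.pi * (1/2 * (Real.log n - Real.log L)) +
              1 / Real.pi * (1/2 * (1 - 1/(n:ℝ) - (1 - 1/(L:ℝ)))) := by ring
            _ ≤ _ := by linarith
        have q3 : e / Real.pi * (1/2 * Real.log L) + 1 / Real.pi * (1/2 * (Real.log n - Real.log L)) =
            1 / (2 * Real.pi) * (Real.log n - (1 - e) * Real.log L) := by
          field_simp
          ring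
        linarith

end Pool.Agent.H96.Kac
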