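import Pool.Agent.H96.KacF

set_option autoImplicit false
open MeasureTheory ProbabilityTheory Filter Topology
open scoped ENNReal NNReal

namespace Pool.Agent.H96.Kac

/-- parameters -/
structure Par (L n : ℕ) : Prop where
  hL : 2 ≤ L
  hn1 : L^10 ≤ n
  hn2 : n ≤ 2 * L^10
  hC : 8 * (L:ℝ)^12 * Real.exp (-(L:ℝ)) ≤ 1/2

variable {L n : ℕ}

lemma Par.L2 (h : Par L n) : (2:ℝ) ≤ L := by exact_mod_cast h.hL

lemma Par.expL (h : Par L n) {j : ℕ} (hj : j ≤ 12) : 8 * (L:ℝ)^j * Real.exp (-(L:ℝ)) ≤ 1/2 := by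
  have h2 := h.L2
  have h3 : (L:ℝ)^j ≤ (L:ℝ)^12 := pow_le_pow_right₀ (by linarith) hj
  have h4 := Real.exp_pos (-(L:ℝ))
  calc 8 * (L:ℝ)^j * Real.exp (-(L:ℝ)) ≤ 8 * (L:ℝ)^12 * Real.exp (-(L:ℝ)) := by gcongr
    _ ≤ _ := h.hC

lemma pow_exp {u x : ℝ} (hx : |x| ≤ 1 - u) (m : ℕ) : |x|^m ≤ Real.exp (-(u * m)) := by
  have h1 : |x| ≤ Real.exp (-u) := hx.trans (Real.one_sub_le_exp_neg u)
  calc |x|^m ≤ (Real.exp (-u))^m := pow_le_pow_left₀ (abs_nonneg x) h1 m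
    _ = Real.exp (-(u * m)) := by rw [← Real.exp_nat_mul]; congr 1; ring

lemma Par.n_div (h : Par L n) : (L:ℝ)^2 ≤ 1/(L:ℝ)^8 * n := by
  have h2 := h.L2
  have hn : ((L:ℝ)^10) ≤ n := by exact_mod_cast h.hn1
  have h8 : (0:ℝ) < (L:ℝ)^8 := by positivity
  rw [one_div_mul_eq_div, le_div_iff₀ h8]
  calc (L:ℝ)^2 * (L:ℝ)^8 = (L:ℝ)^10 := by ring
    _ ≤ (n:ℝ) := hn

/-- powers are tiny for `|x| ≤ 1 - L^(-8)` -/
lemma Par.pow_small (h : Par L n) {x : ℝ} (hx : |x| ≤ 1 - 1/(L:ℝ)^8) {m : ℕ} (hm : n ≤ m) :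
    |x|^m ≤ Real.exp (-(L:ℝ)) := by
  have h2 := h.L2
  refine (pow_exp hx m).trans (Real.exp_le_exp.mpr ?_)
  have h3 := h.n_div
  have h4 : (n:ℝ) ≤ m := by exact_mod_cast hm
  have h5 : 1/(L:ℝ)^8 * n ≤ 1/(L:ℝ)^8 * m := by gcongr
  nlinarith

lemma Par.pow_small2 (h : Par L n) {x : ℝ} (hx : |x| ≤ 1 - 1/(L:ℝ)^8) {m : ℕ} (hm : n ≤ m + 2 * L^2) :
    |x|^m ≤ Real.exp (-(L:ℝ)) := by
  have h2 := h.L2
  refine (pow_exp hx m).trans (Real.exp_le_exp.mpr ?_)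
  have h3 := h.n_div
  have h4 : (n:ℝ) ≤ m + 2 * (L:ℝ)^2 := by exact_mod_cast hm
  have h5 : 1/(L:ℝ)^8 * n ≤ 1/(L:ℝ)^8 * (m + 2 * (L:ℝ)^2) := by gcongr
  have h6 : 1/(L:ℝ)^8 * (2 * (L:ℝ)^2) ≤ 1 := by
    rw [one_div_mul_eq_div, div_le_one (by positivity)]
    have h7 : (2:ℝ)^6 ≤ (L:ℝ)^6 := pow_le_pow_left₀ (by norm_num) h2 6
    have h8 : 0 ≤ (L:ℝ)^2 := by positivity
    calc 2 * (L:ℝ)^2 ≤ (2:ℝ)^6 * (L:ℝ)^2 := by nlinarith
      _ ≤ (L:ℝ)^6 * (L:ℝ)^2 := by nlinarith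
      _ = (L:ℝ)^8 := by ring
  nlinarith

lemma Par.half (h : Par L n) {x : ℝ} (hx : |x| ≤ 1 - 1/(L:ℝ)^8) : (x^2)^(n+1) ≤ 1/2 := by
  rw [← sq_abs, ← pow_mul]
  refine (h.pow_small hx (by omega)).trans ?_
  have h3 := h.expL (j := 0) (by norm_num)
  have h4 := Real.exp_pos (-(L:ℝ))
  rw [pow_zero] at h3
  linarith

lemma Par.r1_nonneg (h : Par L n) : 0 ≤ 1 - 1/(L:ℝ)^8 := by
  have h2 := h.L2
  have : 1/(L:ℝ)^8 ≤ 1 := by
    rw [div_le_one (by positivity)]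
    exact one_le_pow₀ (by linarith)
  linarith

lemma Par.kV_lower (h : Par L n) {y : ℝ} (hy : 1 - 1/(L:ℝ)^8 < |y|) : (L:ℝ)^4/2 ≤ √(kV n y) := by
  have h2 := h.L2
  have hr := h.r1_nonneg
  set r : ℝ := 1 - 1/(L:ℝ)^8 with hr'
  have h8 : (0:ℝ) < (L:ℝ)^8 := by positivity
  have h1 : kV n r ≤ kV n y := by
    refine kV_mono n ?_
    rw [← sq_abs y]
    exact pow_le_pow_left₀ hr hy.le 2
  have habs : |r| ≤ 1 - 1/(L:ℝ)^8 := by rw [abs_of_nonneg hr]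
  have h3 := h.half habs
  have h4 := gA_closed n (r^2)
  rw [← kV_eq] at h4
  have h5 : 1 - r^2 ≤ 2/(L:ℝ)^8 := by
    have : r^2 = 1 - 2 * (1/(L:ℝ)^8) + (1/(L:ℝ)^8)^2 := by rw [hr']; ring
    rw [this]
    have : 0 ≤ (1/(L:ℝ)^8)^2 := sq_nonneg _
    have e : 2/(L:ℝ)^8 = 2 * (1/(L:ℝ)^8) := by ring
    linarith
  have hV := kV_pos n r
  have h6 : 1/2 ≤ 2/(L:ℝ)^8 * kV n r := by
    calc (1/2:ℝ) ≤ (1 - r^2) * kV n r := by rw [h4]; linarith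
      _ ≤ _ := mul_le_mul_of_nonneg_right h5 hV.le
  have h7 : (L:ℝ)^8/4 ≤ kV n r := by
    rw [div_mul_eq_mul_div, le_div_iff₀ h8] at h6
    linarith
  refine Real.le_sqrt_of_sq_le ?_
  calc ((L:ℝ)^4/2)^2 = (L:ℝ)^8/4 := by ring
    _ ≤ kV n r := h7
    _ ≤ _ := h1

lemma Par.two_K (h : Par L n) : 2 * L^2 ≤ n + 1 := by
  have h1 := h.hn1
  have h2 : 2 * L^2 ≤ L^10 := by
    have : 2 ≤ L^8 := le_trans h.hL (Nat.le_self_pow (by norm_num) L)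
    calc 2 * L^2 ≤ L^8 * L^2 := Nat.mul_le_mul_right _ this
      _ = L^10 := by ring
  omega

lemma Par.mu_far (h : Par L n) (d : ℕ → ℝ) (hd : ∀ i, 0 ≤ d i)
    (hsum : ∑ i ∈ Finset.range (n+1), d i ≤ ((L^2 : ℕ) : ℝ)) {y : ℝ} (hy : 1 - 1/(L:ℝ)^8 < |y|)
    (hy1 : |y| ≤ 1) : |mu n d y| / √(kV n y) ≤ 8 * (L:ℝ)^8 := by
  have h2 := h.L2
  have h1 := mu_crude n d hd hsum hy1 zero_le_one (fun i _ _ => pow_le_one₀ (abs_nonneg y) hy1)
  have h3 := h.kV_lower hy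
  have h4 : (0:ℝ) < (L:ℝ)^4/2 := by positivity
  have hn : (n:ℝ) ≤ 2 * (L:ℝ)^10 := by exact_mod_cast h.hn2
  have h5 : |mu n d y| ≤ 4 * (L:ℝ)^12 := by
    refine h1.trans ?_
    push_cast
    have : (n:ℝ) * (1 * (L:ℝ)^2) ≤ 2 * (L:ℝ)^10 * (1 * (L:ℝ)^2) := by gcongr
    calc 2 * ((n:ℝ) * (1 * (L:ℝ)^2)) ≤ 2 * (2 * (L:ℝ)^10 * (1 * (L:ℝ)^2)) := by linarith
      _ = _ := by ring
  rw [div_le_iff₀ (lt_of_lt_of_le h4 h3)]
  calc |mu n d y| ≤ 4 * (L:ℝ)^12 := h5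
    _ = 8 * (L:ℝ)^8 * ((L:ℝ)^4/2) := by ring
    _ ≤ _ := by gcongr

lemma Par.far_const (h : Par L n) : (1 - (1 - 1/(L:ℝ)^8)) * (8 * (L:ℝ)^8) ≤ 8 := by
  have h2 := h.L2
  have h8 : (L:ℝ)^8 ≠ 0 := by positivity
  have : (1 - (1 - 1/(L:ℝ)^8)) * (8 * (L:ℝ)^8) = 8 := by field_simp; ring
  rw [this]

lemma Par.r0_le (h : Par L n) : 1 - 1/(L:ℝ) ≤ 1 - 1/(n:ℝ) := by
  have h2 := h.L2
  have h3 : L ≤ n := le_trans (Nat.le_self_pow (by norm_num) L) h.hn1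
  have h4 : (L:ℝ) ≤ n := by exact_mod_cast h3
  have := one_div_le_one_div_of_le (by linarith : (0:ℝ) < L) h4
  linarith

lemma Par.L_le_n (h : Par L n) : L ≤ n := le_trans (Nat.le_self_pow (by norm_num) L) h.hn1

lemma Par.r0_nonneg (h : Par L n) : 0 ≤ 1 - 1/(L:ℝ) := by
  have h2 := h.L2
  have : 1/(L:ℝ) ≤ 1 := by
    rw [div_le_one (by linarith)]; linarith
  linarith

lemma Par.r2_lt (h : Par L n) : 1 - 1/(n:ℝ) < 1 := by
  have h3 := h.L_le_n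
  have h2 := h.hL
  have : (0:ℝ) < n := by
    have : 0 < n := by omega
    exact_mod_cast this
  have : 0 < 1/(n:ℝ) := by positivity
  linarith

/-- the bound for the polynomial itself -/
lemma Par.boundP (h : Par L n) :
    ∫⁻ x in Set.Icc (-1:ℝ) 1, ENNReal.ofReal (rho n (dP n (L^2)) x) ≤
      ENNReal.ofReal (1 / (2 * Real.pi) * Real.log n + 13) +
      ENNReal.ofReal (1 / (2 * Real.pi) * Real.log n + 13) := by
  have h2 := h.L2
  have hr1 := h.r1_nonneg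
  have hr11 : 1 - 1/(L:ℝ)^8 ≤ 1 := by
    have : 0 ≤ 1/(L:ℝ)^8 := by positivity
    linarith
  have hnum := num_bound h.hL h.L_le_n (e := 1) (A := 1 - 1/(L:ℝ)^8) (c := 8 * (L:ℝ)^8) zero_le_one le_rfl
    hr1 (by linarith) h.far_const
  have hfull := full_bound n (dP n (L^2)) (fun _ => 1) (r0 := 1 - 1/(L:ℝ)) (r1 := 1 - 1/(L:ℝ)^8)
    (r2 := 1 - 1/(n:ℝ)) (e := 1) (c := 8 * (L:ℝ)^8) (A := 1 - 1/(L:ℝ)^8) h.r0_nonneg h.r0_le h.r2_lt
    hr1 hr11 zero_le_one measurable_const (fun y _ => exp_le_one' n _ y) ?_ ?_ ?_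
  · refine hfull.trans (add_le_add ?_ ?_) <;>
    · refine hnum.trans (le_of_eq ?_)
      rw [sub_self, zero_mul, sub_zero]
  · intro y hy
    have hy1 : |y| ≤ 1 := by linarith
    have h1 := mu_crude n (dP n (L^2)) (dP_nonneg n _) (q := Real.exp (-(L:ℝ)))
      (sum_dP_le h.two_K) hy1 (Real.exp_pos _).le ?_
    · have hs : 1 ≤ √(kV n y) := by rw [Real.one_le_sqrt]; exact kV_ge_one n y
      rw [div_le_one (by linarith)]
      refine le_trans (h1.trans ?_) hs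
      have hn : (n:ℝ) ≤ 2 * (L:ℝ)^10 := by exact_mod_cast h.hn2
      have hC := h.hC
      have hE := Real.exp_pos (-(L:ℝ))
      push_cast
      have h6 : (n:ℝ) * (Real.exp (-(L:ℝ)) * (L:ℝ)^2) ≤ 2 * (L:ℝ)^10 * (Real.exp (-(L:ℝ)) * (L:ℝ)^2) := by
        gcongr
      calc 2 * ((n:ℝ) * (Real.exp (-(L:ℝ)) * (L:ℝ)^2)) ≤
            2 * (2 * (L:ℝ)^10 * (Real.exp (-(L:ℝ)) * (L:ℝ)^2)) := by linarith
        _ = (8 * (L:ℝ)^12 * Real.exp (-(L:ℝ))) / 2 := by ring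
        _ ≤ 1 := by linarith
    · intro i hi hne
      refine h.pow_small2 hy ?_
      by_contra hcon
      push Not at hcon
      apply hne
      unfold dP
      rw [if_pos hi]
      apply dQ_zero_of_ge
      omega
  · intro y hy hy1
    exact h.mu_far _ (dP_nonneg n _) (sum_dP_le h.two_K) hy hy1
  · rw [lint_const hr1]
    rw [sub_zero, mul_one]

lemma kV_neg (n : ℕ) (y : ℝ) : kV n (-y) = kV n y := by rw [kV_eq, kV_eq, neg_sq]

lemma mu_dQ_abs {J : ℕ} (h : 2 * (J+1) ≤ n + 1) {y : ℝ} (hy : |y| < 1) :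
    |mu n (dQ (J+1)) y| = |mu n (dQ (J+1)) (|y|)| := by
  have hy2 : y^2 < 1 := by rw [← sq_abs]; have := abs_nonneg y; nlinarith
  rcases abs_choice y with h1 | h1
  · rw [h1]
  · rw [h1, mu_dQ h y hy2, mu_dQ h (-y) (by rw [neg_sq]; exact hy2), neg_sq, kV_neg, neg_div, neg_mul,
      abs_neg]

/-- the gain -/
lemma Par.gain (h : Par L n) {y : ℝ} (hy : |y| ≤ 1 - 1/(L:ℝ)) :
    Real.exp (-(dm n (dQ (L^2)) y)^2 / (2 * kV n y)) ≤ Real.exp (-(1/4)) := by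
  have h2 := h.L2
  have hL0 : (0:ℝ) < L := by linarith
  have hy1 : |y| < 1 := by
    have : 0 < 1/(L:ℝ) := by positivity
    linarith
  have hy2 : y^2 < 1 := by rw [← sq_abs]; have := abs_nonneg y; nlinarith
  obtain ⟨J, hJ⟩ : ∃ J, L^2 = J + 1 := ⟨L^2 - 1, by
    have : 0 < L^2 := by
      have := h.hL
      positivity
    omega⟩
  have hV := kV_pos n y
  rw [dm_dQ h.two_K]
  have hG := G_lower J (t := y^2) (sq_nonneg y) hy2.le
  have hc : (1 - y^2) * kV n y = 1 - (y^2)^(n+1) := by rw [kV_eq]; exact gA_closed n (y^2)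
  have hc1 : (1 - y^2) * kV n y ≤ 1 := by
    rw [hc]
    have : 0 ≤ (y^2)^(n+1) := by positivity
    linarith
  have hpow : (y^2)^(J+1) ≤ Real.exp (-(L:ℝ)) := by
    rw [← sq_abs, ← pow_mul, ← hJ]
    refine (pow_exp hy _).trans (Real.exp_le_exp.mpr ?_)
    push_cast
    have : 1/(L:ℝ) * (2 * (L:ℝ)^2) = 2 * L := by field_simp
    rw [this]; linarith
  have hsmall : 2 * ((J:ℝ)+1) * (y^2)^(J+1) ≤ 1/2 := by
    have h3 := h.expL (j := 2) (by norm_num)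
    have hJ' : (J:ℝ)+1 = (L:ℝ)^2 := by exact_mod_cast hJ.symm
    rw [hJ']
    calc 2 * (L:ℝ)^2 * (y^2)^(J+1) ≤ 2 * (L:ℝ)^2 * Real.exp (-(L:ℝ)) := by gcongr
      _ ≤ 8 * (L:ℝ)^2 * Real.exp (-(L:ℝ)) := by
        have : 0 ≤ (L:ℝ)^2 * Real.exp (-(L:ℝ)) := by positivity
        linarith
      _ ≤ _ := h3
  rw [hJ]
  refine Real.exp_le_exp.mpr ?_
  rw [neg_div, neg_le_neg_iff, le_div_iff₀ (by positivity)]
  have h5 : 1/2 ≤ (1 - y^2) * (sK (J+1) (y^2))^2 := by linarith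
  have h6 : 0 ≤ (sK (J+1) (y^2))^2 := sq_nonneg _
  have h7 : 1/2 * kV n y ≤ (sK (J+1) (y^2))^2 := by
    calc 1/2 * kV n y ≤ ((1 - y^2) * (sK (J+1) (y^2))^2) * kV n y :=
          mul_le_mul_of_nonneg_right h5 hV.le
      _ = (sK (J+1) (y^2))^2 * ((1 - y^2) * kV n y) := by ring
      _ ≤ (sK (J+1) (y^2))^2 * 1 := mul_le_mul_of_nonneg_left hc1 h6
      _ = _ := mul_one _
  linarith

/-- antiderivative -/
lemma hasDerivAt_f (J : ℕ) {x : ℝ} (hx : x^2 < 1) :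
    HasDerivAt (fun x : ℝ => √(1 - x^2) * sK (J+1) (x^2))
      (-(2 * (x * ka J * (x^2)^J / √(1 - x^2)))) x := by
  have h1 : 0 < 1 - x^2 := by linarith
  have hs : 0 < √(1 - x^2) := Real.sqrt_pos.mpr h1
  have h2 : HasDerivAt (fun x : ℝ => 1 - x^2) (-(2 * x)) x := by
    simpa using (hasDerivAt_pow 2 x).const_sub 1
  have h3 := h2.sqrt h1.ne'
  have h4 : HasDerivAt (fun x : ℝ => sK (J+1) (x^2)) (sd J (x^2) * (2 * x)) x := by
    have h5 : HasDerivAt (fun x : ℝ => x^2) (2 * x) x := by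
      simpa using hasDerivAt_pow 2 x
    exact (hasDerivAt_sK J (x^2)).comp x h5
  have h6 := h3.mul h4
  refine h6.congr_deriv ?_
  have ho := ode J (x^2)
  have hsq : √(1 - x^2) * √(1 - x^2) = 1 - x^2 := Real.mul_self_sqrt h1.le
  have e1 : √(1 - x^2) * (sd J (x^2) * (2 * x)) = 2 * x * ((1 - x^2) * sd J (x^2)) / √(1 - x^2) := by
    rw [eq_div_iff hs.ne']
    calc √(1 - x^2) * (sd J (x^2) * (2 * x)) * √(1 - x^2) =
        (√(1 - x^2) * √(1 - x^2)) * (sd J (x^2) * (2 * x)) := by ring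
      _ = _ := by rw [hsq]; ring
  rw [e1, ho]
  unfold ka
  field_simp
  ring

/-- the bound for the reversed polynomial -/
lemma Par.boundQ (h : Par L n) :
    ∫⁻ x in Set.Icc (-1:ℝ) 1, ENNReal.ofReal (rho n (dQ (L^2)) x) ≤
      ENNReal.ofReal (1 / (2 * Real.pi) * (Real.log n - (1 - Real.exp (-(1/4))) * Real.log L) + 13) +
      ENNReal.ofReal (1 / (2 * Real.pi) * (Real.log n - (1 - Real.exp (-(1/4))) * Real.log L) + 13) := by
  have h2 := h.L2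
  have hr1 := h.r1_nonneg
  have h8 : 0 < 1/(L:ℝ)^8 := by positivity
  have hr11 : 1 - 1/(L:ℝ)^8 ≤ 1 := by linarith
  obtain ⟨J, hJ⟩ : ∃ J, L^2 = J + 1 := ⟨L^2 - 1, by
    have : 0 < L^2 := by
      have := h.hL
      positivity
    omega⟩
  have h2K : 2 * (J+1) ≤ n + 1 := by rw [← hJ]; exact h.two_K
  have hexp : Real.exp (-(1/4)) ≤ 1 := by rw [Real.exp_le_one_iff]; norm_num
  have hnum := num_bound h.hL h.L_le_n (e := Real.exp (-(1/4))) (A := 3) (c := 8 * (L:ℝ)^8)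
    (Real.exp_pos _).le hexp (by norm_num) le_rfl h.far_const
  have hfull := full_bound n (dQ (L^2)) (fun x => 2 * √2 * (x * ka J * (x^2)^J / √(1 - x^2)) + 1)
    (r0 := 1 - 1/(L:ℝ)) (r1 := 1 - 1/(L:ℝ)^8)
    (r2 := 1 - 1/(n:ℝ)) (e := Real.exp (-(1/4))) (c := 8 * (L:ℝ)^8) (A := 3) h.r0_nonneg h.r0_le h.r2_lt
    hr1 hr11 (Real.exp_pos _).le (by fun_prop) (fun y hy => h.gain hy) ?_ ?_ ?_
  · exact hfull.trans (add_le_add hnum hnum)
  · intro y hy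
    have hy1 : |y| < 1 := by linarith
    have h5 := mu_dQ_bound h2K (abs_nonneg y) hy1 (by
      rw [sq_abs]; exact h.half hy)
    have hkv : kV n |y| = kV n y := by rw [kV_eq, kV_eq, sq_abs]
    rw [← mu_dQ_abs h2K hy1, hkv] at h5
    rw [hJ]
    refine h5.trans ?_
    have h6 : 2 * ((J:ℝ)+1) * ((n+1) * (|y|^2)^n) ≤ 1 := by
      have h7 : (|y|^2)^n ≤ Real.exp (-(L:ℝ)) := by
        rw [← pow_mul]
        exact h.pow_small hy (by omega)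
      have hJ' : (J:ℝ)+1 = (L:ℝ)^2 := by exact_mod_cast hJ.symm
      have hn : (n:ℝ) ≤ 2 * (L:ℝ)^10 := by exact_mod_cast h.hn2
      have hC := h.hC
      have hE := Real.exp_pos (-(L:ℝ))
      have h10 : 1 ≤ (L:ℝ)^10 := one_le_pow₀ (by linarith)
      rw [hJ']
      calc 2 * (L:ℝ)^2 * ((n+1) * (|y|^2)^n) ≤ 2 * (L:ℝ)^2 * ((3 * (L:ℝ)^10) * Real.exp (-(L:ℝ))) := by
            gcongr
            linarith
        _ = (8 * (L:ℝ)^12 * Real.exp (-(L:ℝ))) * (3/4) := by ring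
        _ ≤ 1 := by linarith
    linarith
  · intro y hy hy1
    exact h.mu_far _ (dQ_nonneg _) (sum_dQ_le h.two_K) hy hy1
  · have hft := ftc (a := 0) (b := 1 - 1/(L:ℝ)^8) hr1
      (fun x => 2 * √2 * (x * ka J * (x^2)^J / √(1 - x^2)) + 1)
      (fun x => -√2 * (√(1 - x^2) * sK (J+1) (x^2)) + x) ?_ ?_ ?_
    · rw [hft]
      refine ENNReal.ofReal_le_ofReal ?_
      have e0 : sK (J+1) (0^2) = 1 := by
        unfold sK
        rw [Finset.sum_range_succ']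
        simp [be_zero]
      have h9 : 0 ≤ √(1 - (1 - 1/(L:ℝ)^8)^2) * sK (J+1) ((1 - 1/(L:ℝ)^8)^2) :=
        mul_nonneg (Real.sqrt_nonneg _) (sK_nonneg _ (sq_nonneg _))
      have h10 : √2 ≤ 2 := by
        rw [Real.sqrt_le_left (by norm_num)]; norm_num
      have h11 : 0 ≤ √2 := Real.sqrt_nonneg 2
      rw [e0]
      simp only [ne_eq, OfNat.ofNat_ne_zero, not_false_eq_true, zero_pow, sub_zero, Real.sqrt_one,
        mul_one, add_zero]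
      nlinarith [mul_nonneg h11 h9]
    · intro x hx
      have hx2 : x^2 < 1 := by nlinarith [hx.1, hx.2]
      have h12 := ((hasDerivAt_f J hx2).const_mul (-√2)).add (hasDerivAt_id x)
      refine h12.congr_deriv ?_
      ring
    · have hne : ∀ x ∈ Set.Icc 0 (1 - 1/(L:ℝ)^8), √(1 - x^2) ≠ 0 := by
        intro x hx
        have hx2 : x^2 < 1 := by nlinarith [hx.1, hx.2]
        have : 0 < 1 - x^2 := by linarith
        exact (Real.sqrt_pos.mpr this).ne'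
      refine ContinuousOn.add (ContinuousOn.mul continuousOn_const (ContinuousOn.div ?_ ?_ hne))
        continuousOn_const
      · fun_prop
      · fun_prop
    · intro x hx
      have := ka_pos J
      have hx0 := hx.1
      positivity

end Pool.Agent.H96.Kac
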