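import Pool.Agent.H96.KacG

set_option autoImplicit false
open MeasureTheory ProbabilityTheory Filter Topology
open scoped ENNReal NNReal

namespace Pool.Agent.H96.Kac

/-! ### Cameron-Martin for finitely supported shifts -/

/-- one factor of the density -/
noncomputable def psi (v x : ℝ) : ℝ≥0∞ := ENNReal.ofReal (Real.exp (v * x - v^2/2))

lemma measurable_psi (v : ℝ) : Measurable (psi v) := by unfold psi; fun_prop

/-- density -/
noncomputable def De (s : Finset ℕ) (v ω : ℕ → ℝ) : ℝ≥0∞ := ∏ i ∈ s, psi (v i) (ω i)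

lemma measurable_De (s : Finset ℕ) (v : ℕ → ℝ) : Measurable (De s v) := by
  unfold De
  refine Finset.measurable_fun_prod _ fun i _ => ?_
  exact (measurable_psi _).comp (measurable_pi_apply i)

lemma psi_zero (x : ℝ) : psi 0 x = 1 := by simp [psi]

lemma psi_set (v : ℝ) {t : Set ℝ} (ht : MeasurableSet t) :
    ∫⁻ x, t.indicator 1 x * psi v x ∂(gaussianReal 0 1) = gaussianReal v 1 t := by
  have h1 : ∀ x, t.indicator (1 : ℝ → ℝ≥0∞) x * psi v x = t.indicator (psi v) x := by
    intro x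
    by_cases hx : x ∈ t
    · simp [hx]
    · simp [hx]
  simp_rw [h1]
  rw [lintegral_indicator ht, gaussianReal_apply v (by norm_num) t,
    gaussianReal_of_var_ne_zero 0 (by norm_num : (1:ℝ≥0) ≠ 0), restrict_withDensity ht,
    lintegral_withDensity_eq_lintegral_mul _ (measurable_gaussianPDF _ _) (measurable_psi v)]
  refine lintegral_congr fun x => ?_
  simp only [Pi.mul_apply, gaussianPDF, psi, gaussianPDFReal_def]
  rw [← ENNReal.ofReal_mul (by positivity)]
  congr 1
  rw [mul_assoc, ← Real.exp_add]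
  congr 2
  simp
  ring

lemma P_shift (v : ℕ → ℝ) : P.map (fun ω => ω + v) = Measure.infinitePi (fun i => gaussianReal (v i) 1) := by
  have h := Measure.infinitePi_map_pi (ι := ℕ) (X := fun _ => ℝ) (fun _ => gaussianReal 0 1)
    (f := fun i x => x + v i) (fun i => by fun_prop)
  have h2 : (fun i => (gaussianReal 0 1).map (fun x => x + v i)) = fun i => gaussianReal (v i) 1 := by
    funext i
    have := gaussianReal_map_add_const (μ := 0) (v := 1) (v i)
    rw [zero_add] at this
    exact this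
  have h3 : (Measure.infinitePi fun _ : ℕ => gaussianReal 0 1).map (fun x i => x i + v i) =
      Measure.infinitePi (fun i => (gaussianReal 0 1).map (fun x => x + v i)) := h
  simp_rw [h2] at h3
  exact h3

lemma cameron_martin (s : Finset ℕ) (v : ℕ → ℝ) (hv : ∀ i, i ∉ s → v i = 0) :
    P.withDensity (De s v) = P.map (fun ω => ω + v) := by
  rw [P_shift]
  classical
  refine Measure.eq_infinitePi _ ?_
  intro S t ht
  have hmS : MeasurableSet (Set.pi (S : Set ℕ) t) := MeasurableSet.pi S.countable_toSet fun i _ => ht i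
  set t' : ℕ → Set ℝ := fun i => if i ∈ S then t i else Set.univ with ht'
  have ht'm : ∀ i, MeasurableSet (t' i) := by
    intro i; simp only [ht']; split_ifs
    · exact ht i
    · exact MeasurableSet.univ
  set U : Finset ℕ := S ∪ s with hU
  rw [withDensity_apply _ hmS, ← lintegral_indicator hmS]
  have e1 : ∀ ω : ℕ → ℝ, (Set.pi (S : Set ℕ) t).indicator (De s v) ω =
      ∏ i ∈ U, ((t' i).indicator 1 (ω i) * psi (v i) (ω i)) := by
    intro ω
    rw [Finset.prod_mul_distrib]
    have a1 : ∏ i ∈ U, psi (v i) (ω i) = De s v ω := by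
      unfold De
      symm
      refine Finset.prod_subset Finset.subset_union_right fun i _ hi => ?_
      rw [hv i hi, psi_zero]
    have a2 : ∏ i ∈ U, (t' i).indicator (1 : ℝ → ℝ≥0∞) (ω i) =
        (Set.pi (S : Set ℕ) t).indicator 1 ω := by
      by_cases hω : ω ∈ Set.pi (S : Set ℕ) t
      · rw [Set.indicator_of_mem hω]
        refine Finset.prod_eq_one fun i _ => ?_
        rw [Set.indicator_of_mem]
        · rfl
        · simp only [ht']
          split_ifs with hi
          · exact hω i hi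
          · trivial
      · rw [Set.indicator_of_notMem hω]
        simp only [Set.mem_pi, not_forall, Finset.mem_coe] at hω
        obtain ⟨i, hi, hi2⟩ := hω
        refine Finset.prod_eq_zero (Finset.mem_union_left _ hi) ?_
        rw [Set.indicator_of_notMem]
        simp only [ht']
        rw [if_pos hi]
        exact hi2
    rw [a1, a2]
    by_cases hω : ω ∈ Set.pi (S : Set ℕ) t
    · rw [Set.indicator_of_mem hω, Set.indicator_of_mem hω]; simp
    · rw [Set.indicator_of_notMem hω, Set.indicator_of_notMem hω]; simp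
  simp_rw [e1]
  have hm : ∀ i, Measurable (fun x : ℝ => (t' i).indicator (1 : ℝ → ℝ≥0∞) x * psi (v i) x) := by
    intro i
    exact (measurable_one.indicator (ht'm i)).mul (measurable_psi _)
  have hind : iIndepFun (fun (i : ℕ) (ω : ℕ → ℝ) =>
      (t' i).indicator (1 : ℝ → ℝ≥0∞) (ω i) * psi (v i) (ω i)) P :=
    P_indep.comp (fun i x => (t' i).indicator (1 : ℝ → ℝ≥0∞) x * psi (v i) x) hm
  rw [lintegral_prod_eq_prod_lintegral_of_indepFun U _ hind
    (fun i => (hm i).comp (measurable_pi_apply i))]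
  have e2 : ∀ i, ∫⁻ ω : ℕ → ℝ, (t' i).indicator (1 : ℝ → ℝ≥0∞) (ω i) * psi (v i) (ω i) ∂P =
      gaussianReal (v i) 1 (t' i) := by
    intro i
    rw [← psi_set (v i) (ht'm i), ← P_eval i, lintegral_map (hm i) (measurable_pi_apply i)]
  simp_rw [e2]
  rw [← Finset.prod_subset (Finset.subset_union_left : S ⊆ U)]
  · refine Finset.prod_congr rfl fun i hi => ?_
    simp only [ht']
    rw [if_pos hi]
  · intro i _ hi
    simp only [ht']
    rw [if_neg hi, measure_univ]

lemma lint_De (s : Finset ℕ) (v : ℕ → ℝ) (hv : ∀ i, i ∉ s → v i = 0) : ∫⁻ ω, De s v ω ∂P = 1 := by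
  have h := cameron_martin s v hv
  have h2 : P.withDensity (De s v) Set.univ = 1 := by
    have : IsProbabilityMeasure (P.map (fun ω => ω + v)) :=
      Measure.isProbabilityMeasure_map (by fun_prop)
    rw [h]; exact measure_univ
  rwa [withDensity_apply _ MeasurableSet.univ, Measure.restrict_univ] at h2

lemma lint_De_mul (s : Finset ℕ) (v : ℕ → ℝ) (hv : ∀ i, i ∉ s → v i = 0)
    (f : (ℕ → ℝ) → ℝ≥0∞) (hf : Measurable f) :
    ∫⁻ ω, De s v ω * f ω ∂P = ∫⁻ ω, f (ω + v) ∂P := by
  have h := cameron_martin s v hv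
  have h1 : ∫⁻ ω, f ω ∂(P.withDensity (De s v)) = ∫⁻ ω, De s v ω * f ω ∂P := by
    rw [lintegral_withDensity_eq_lintegral_mul _ (measurable_De s v) hf]
    rfl
  rw [← h1, h, lintegral_map hf (by fun_prop)]

lemma De_disjoint (s s' : Finset ℕ) (v v' : ℕ → ℝ) (hv : ∀ i, i ∉ s → v i = 0)
    (hv' : ∀ i, i ∉ s' → v' i = 0) (hd : Disjoint s s') :
    ∫⁻ ω, De s v ω * De s' v' ω ∂P = 1 := by
  rw [lint_De_mul s v hv _ (measurable_De s' v')]
  have : ∀ ω : ℕ → ℝ, De s' v' (ω + v) = De s' v' ω := by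
    intro ω
    unfold De
    refine Finset.prod_congr rfl fun i hi => ?_
    have : v i = 0 := hv i (fun h => Finset.disjoint_left.mp hd h hi)
    rw [Pi.add_apply, this, add_zero]
  simp_rw [this]
  exact lint_De s' v' hv'

lemma De_self (s : Finset ℕ) (v : ℕ → ℝ) (hv : ∀ i, i ∉ s → v i = 0) :
    ∫⁻ ω, De s v ω * De s v ω ∂P = ENNReal.ofReal (Real.exp (∑ i ∈ s, (v i)^2)) := by
  rw [lint_De_mul s v hv _ (measurable_De s v)]
  have : ∀ ω : ℕ → ℝ, De s v (ω + v) = ENNReal.ofReal (Real.exp (∑ i ∈ s, (v i)^2)) * De s v ω := by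
    intro ω
    unfold De psi
    rw [Real.exp_sum, ENNReal.ofReal_prod_of_nonneg (fun i _ => (Real.exp_pos _).le),
      ← Finset.prod_mul_distrib]
    refine Finset.prod_congr rfl fun i _ => ?_
    rw [← ENNReal.ofReal_mul (Real.exp_pos _).le, ← Real.exp_add, Pi.add_apply]
    congr 2
    ring
  simp_rw [this]
  rw [lintegral_const_mul _ (measurable_De s v), lint_De s v hv, mul_one]

/-- second moment inequality -/
lemma second_moment (J : ℕ) (s : ℕ → Finset ℕ) (v : ℕ → ℕ → ℝ) (B : ℕ → Set (ℕ → ℝ))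
    (hB : ∀ j, MeasurableSet (B j)) (hv : ∀ j i, i ∉ s j → v j i = 0)
    (hd : ∀ i j, i ≠ j → Disjoint (s i) (s j)) (H : ℝ) (hH : ∀ j, ∑ i ∈ s j, (v j i)^2 ≤ H)
    (hJ : ENNReal.ofReal (Real.exp H) ≤ J) (q : ℝ≥0∞)
    (hq : ∀ j < J, q ≤ P {ω | ω + v j ∈ B j}) :
    ((J : ℝ≥0∞) * q) ^ 2 ≤ 2 * (J : ℝ≥0∞)^2 * P (⋃ j ∈ Finset.range J, B j) := by
  set W : Set (ℕ → ℝ) := ⋃ j ∈ Finset.range J, B j with hW
  have hWm : MeasurableSet W := Finset.measurableSet_biUnion _ fun j _ => hB j
  set X : (ℕ → ℝ) → ℝ≥0∞ := fun ω => ∑ j ∈ Finset.range J, De (s j) (v j) ω with hX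
  have hXm : Measurable X := Finset.measurable_fun_sum _ fun j _ => measurable_De _ _
  have hDD : ∀ i j, Measurable (fun ω => De (s i) (v i) ω * De (s j) (v j) ω) := fun i j =>
    (measurable_De _ _).mul (measurable_De _ _)
  have h1 : (J : ℝ≥0∞) * q ≤ ∫⁻ ω, (X * W.indicator (1 : (ℕ → ℝ) → ℝ≥0∞)) ω ∂P := by
    calc (J : ℝ≥0∞) * q = ∑ j ∈ Finset.range J, q := by simp
      _ ≤ ∑ j ∈ Finset.range J, ∫⁻ ω, De (s j) (v j) ω * W.indicator (1 : (ℕ → ℝ) → ℝ≥0∞) ω ∂P := by
          refine Finset.sum_le_sum fun j hj => ?_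
          rw [lint_De_mul (s j) (v j) (hv j) _ (measurable_one.indicator hWm)]
          refine (hq j (Finset.mem_range.mp hj)).trans ?_
          have hm : Measurable (fun ω : ℕ → ℝ => ω + v j) := by fun_prop
          have hmB : MeasurableSet {ω : ℕ → ℝ | ω + v j ∈ B j} := hm (hB j)
          rw [← lintegral_indicator_one hmB]
          refine lintegral_mono fun ω => ?_
          by_cases hω : ω + v j ∈ B j
          · rw [Set.indicator_of_mem (show ω ∈ {ω : ℕ → ℝ | ω + v j ∈ B j} from hω)]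
            have : ω + v j ∈ W := by
              rw [hW]
              simp only [Set.mem_iUnion]
              exact ⟨j, hj, hω⟩
            rw [Set.indicator_of_mem this]
            rfl
          · rw [Set.indicator_of_notMem (show ω ∉ {ω : ℕ → ℝ | ω + v j ∈ B j} from hω)]
            exact bot_le
      _ = ∫⁻ ω, (X * W.indicator (1 : (ℕ → ℝ) → ℝ≥0∞)) ω ∂P := by
          rw [← lintegral_finsetSum]
          · refine lintegral_congr fun ω => ?_
            simp only [hX, Pi.mul_apply, Finset.sum_mul]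
          · intro j _
            exact (measurable_De _ _).mul (measurable_one.indicator hWm)
  have h2 := ENNReal.lintegral_mul_le_Lp_mul_Lq P (Real.HolderConjugate.two_two) hXm.aemeasurable
    (measurable_one.indicator hWm : Measurable (W.indicator (1 : (ℕ → ℝ) → ℝ≥0∞))).aemeasurable
  have h3 : ∫⁻ ω, (W.indicator (1 : (ℕ → ℝ) → ℝ≥0∞) ω) ^ (2:ℝ) ∂P = P W := by
    rw [← lintegral_indicator_one hWm]
    refine lintegral_congr fun ω => ?_
    by_cases hω : ω ∈ W <;> simp [hω]
  have h4 : ∫⁻ ω, (X ω) ^ (2:ℝ) ∂P ≤ 2 * (J : ℝ≥0∞)^2 := by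
    have e1 : ∀ ω, (X ω) ^ (2:ℝ) = ∑ i ∈ Finset.range J, ∑ j ∈ Finset.range J,
        De (s i) (v i) ω * De (s j) (v j) ω := by
      intro ω
      rw [ENNReal.rpow_two, sq, hX, Finset.sum_mul_sum]
    simp_rw [e1]
    rw [lintegral_finsetSum _ (fun i _ => Finset.measurable_fun_sum _ fun j _ => hDD i j)]
    have e2 : ∀ i, ∫⁻ ω, ∑ j ∈ Finset.range J, De (s i) (v i) ω * De (s j) (v j) ω ∂P =
        ∑ j ∈ Finset.range J, ∫⁻ ω, De (s i) (v i) ω * De (s j) (v j) ω ∂P := by
      intro i
      rw [lintegral_finsetSum _ (fun j _ => hDD i j)]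
    simp_rw [e2]
    calc ∑ i ∈ Finset.range J, ∑ j ∈ Finset.range J, ∫⁻ ω, De (s i) (v i) ω * De (s j) (v j) ω ∂P
        ≤ ∑ i ∈ Finset.range J, ∑ j ∈ Finset.range J, (1 + if i = j then (J : ℝ≥0∞) else 0) := by
          refine Finset.sum_le_sum fun i _ => Finset.sum_le_sum fun j _ => ?_
          by_cases hij : i = j
          · subst hij
            rw [if_pos rfl, De_self _ _ (hv i)]
            refine le_trans ?_ (le_trans hJ le_add_self)
            exact ENNReal.ofReal_le_ofReal (Real.exp_le_exp.mpr (hH i))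
          · rw [if_neg hij, De_disjoint _ _ _ _ (hv i) (hv j) (hd i j hij), add_zero]
      _ = 2 * (J : ℝ≥0∞)^2 := by
          simp only [Finset.sum_add_distrib, Finset.sum_const, Finset.card_range, nsmul_eq_mul,
            mul_one, Finset.sum_ite_eq, Finset.mem_range]
          have : ∑ x ∈ Finset.range J, (if x < J then (J : ℝ≥0∞) else 0) = J * J := by
            rw [Finset.sum_congr rfl (g := fun _ => (J : ℝ≥0∞))]
            · simp
            · intro x hx; rw [if_pos (Finset.mem_range.mp hx)]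
          rw [this]; ring
  have h5 : (J : ℝ≥0∞) * q ≤ (2 * (J : ℝ≥0∞)^2) ^ (1/2 : ℝ) * (P W) ^ (1/2 : ℝ) := by
    refine h1.trans (h2.trans ?_)
    rw [h3]
    gcongr
  calc ((J : ℝ≥0∞) * q) ^ 2 ≤ ((2 * (J : ℝ≥0∞)^2) ^ (1/2 : ℝ) * (P W) ^ (1/2 : ℝ)) ^ 2 := by gcongr
    _ = 2 * (J : ℝ≥0∞)^2 * P W := by
        have key : ∀ x : ℝ≥0∞, (x^(1/2:ℝ))^2 = x := by
          intro x
          rw [← ENNReal.rpow_two, ← ENNReal.rpow_mul]
          norm_num
        rw [mul_pow, key, key]

end Pool.Agent.H96.Kac
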