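import Pool.Agent.H96.KacH

set_option autoImplicit false
open MeasureTheory ProbabilityTheory Filter Topology
open scoped ENNReal NNReal

namespace Pool.Agent.H96.Kac

/-! ### reversal -/

/-- index reversal -/
def sig (n i : ℕ) : ℕ := if i ≤ n then n - i else i

lemma sig_inj (n : ℕ) : Function.Injective (sig n) := by
  intro i j h
  unfold sig at h
  split_ifs at h <;> omega

/-- reversed coefficients -/
def rev (n : ℕ) (ω : ℕ → ℝ) : ℕ → ℝ := fun i => ω (sig n i)

lemma measurable_rev (n : ℕ) : Measurable (rev n) := by unfold rev; fun_prop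

lemma P_rev (n : ℕ) : P.map (rev n) = P := by
  unfold P
  exact Measure.map_infinitePi_infinitePi_of_inj (P := fun _ => gaussianReal 0 1) (sig_inj n)

lemma ev_rev (n : ℕ) (ω : ℕ → ℝ) {x : ℝ} (hx : x ≠ 0) : ev n (rev n ω) x⁻¹ = (x^n)⁻¹ * ev n ω x := by
  unfold ev
  rw [← Finset.sum_range_reflect (fun i => ω i * x^i) (n+1), Finset.mul_sum]
  refine Finset.sum_congr rfl fun i hi => ?_
  have hi' : i ≤ n := Nat.lt_succ_iff.mp (Finset.mem_range.mp hi)
  have e1 : n + 1 - 1 - i = n - i := by omega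
  have e2 : rev n ω i = ω (n - i) := by unfold rev sig; rw [if_pos hi']
  rw [e1, e2]
  have e3 : x^n = x^(n-i) * x^i := by rw [← pow_add]; congr 1; omega
  rw [e3, inv_pow]
  field_simp

/-- measurable upper bound for the number of real roots -/
noncomputable def Tn (n : ℕ) (ω : ℕ → ℝ) : ℝ≥0∞ := cnt n ω + cnt n (rev n ω)

lemma measurable_Tn (n : ℕ) : Measurable (Tn n) := by
  unfold Tn
  exact (measurable_cnt n).add ((measurable_cnt n).comp (measurable_rev n))

/-! ### simple roots -/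

/-- value of the derivative -/
def ev' (n : ℕ) (w : ℕ → ℝ) (x : ℝ) : ℝ := ∑ i ∈ Finset.range n, ((i:ℝ)+1) * w (i+1) * x^i

/-- coefficient vectors with a multiple root -/
def DR (n : ℕ) : Set (ℕ → ℝ) := {w | ∃ x, ev n w x = 0 ∧ ev' n w x = 0}

lemma measurable_DR (n : ℕ) : MeasurableSet (DR n) := by
  have h : DR n = ⋃ m : ℕ, {w | ∃ x ∈ Set.Icc (-(m:ℝ)) m, ev n w x = 0 ∧ ev' n w x = 0} := by
    ext w
    simp only [DR, Set.mem_ofPred_eq, Set.mem_iUnion]
    constructor
    · rintro ⟨x, hx⟩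
      obtain ⟨m, hm⟩ := exists_nat_ge |x|
      exact ⟨m, x, abs_le.mp hm, hx⟩
    · rintro ⟨m, x, _, hx⟩
      exact ⟨x, hx⟩
  rw [h]
  refine MeasurableSet.iUnion fun m => IsClosed.measurableSet ?_
  have hmap : IsClosedMap (Prod.fst : (ℕ → ℝ) × (Set.Icc (-(m:ℝ)) m) → (ℕ → ℝ)) :=
    isClosedMap_fst_of_compactSpace
  have hc2 : Continuous (fun q : (ℕ → ℝ) × ℝ => ev' n q.1 q.2) := by unfold ev'; fun_prop
  have hcomp : Continuous (fun q : (ℕ → ℝ) × (Set.Icc (-(m:ℝ)) m) => (q.1, (q.2 : ℝ))) := by fun_prop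
  have hC : IsClosed {q : (ℕ → ℝ) × (Set.Icc (-(m:ℝ)) m) | ev n q.1 (q.2 : ℝ) = 0 ∧
      ev' n q.1 (q.2 : ℝ) = 0} :=
    (isClosed_eq ((continuous_ev n).comp hcomp) continuous_const).inter
      (isClosed_eq (hc2.comp hcomp) continuous_const)
  have := hmap _ hC
  convert this using 1
  ext w
  simp only [Set.mem_ofPred_eq, Set.mem_image, Prod.exists, exists_and_right, exists_eq_right]
  constructor
  · rintro ⟨x, hx, h⟩
    exact ⟨⟨x, hx⟩, h⟩
  · rintro ⟨⟨x, hx⟩, h⟩
    exact ⟨x, hx, h⟩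

lemma P_DR (n : ℕ) (hn : 1 ≤ n) : P (DR n) = 0 := by
  have h1 : P (DR n) = ((gaussianReal 0 1).prod P) {q | cons q.1 q.2 ∈ DR n} := by
    conv_lhs => rw [← P_cons]
    rw [Measure.map_apply measurable_cons (measurable_DR n)]
    rfl
  have hm2 : MeasurableSet {q : ℝ × (ℕ → ℝ) | cons q.1 q.2 ∈ DR n} := measurable_cons (measurable_DR n)
  rw [h1, Measure.prod_apply_symm hm2]
  have h0 : ∀ᵐ v ∂P, v 0 ≠ 0 := by
    rw [ae_iff]
    have : {v : ℕ → ℝ | ¬ v 0 ≠ 0} = (fun v : ℕ → ℝ => v 0) ⁻¹' {0} := by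
      ext v; simp
    rw [this, ← Measure.map_apply (measurable_pi_apply 0) (measurableSet_singleton 0), P_eval]
    have := nullSingletonClass_gaussianReal (μ := 0) (v := 1) (by norm_num)
    exact measure_singleton 0
  rw [lintegral_congr_ae (g := fun _ => 0)]
  · simp
  filter_upwards [h0] with v hv
  -- polynomial
  set q : Polynomial ℝ := ∑ i ∈ Finset.range n, Polynomial.C (((i:ℝ)+1) * v i) * Polynomial.X^i with hq
  have hqev : ∀ x, q.eval x = ∑ i ∈ Finset.range n, ((i:ℝ)+1) * v i * x^i := by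
    intro x
    rw [hq, Polynomial.eval_finsetSum]
    exact Finset.sum_congr rfl fun i _ => by simp
  have hqne : q ≠ 0 := by
    intro h
    have h2 := hqev 0
    rw [h, Polynomial.eval_zero] at h2
    obtain ⟨m, rfl⟩ : ∃ m, n = m + 1 := ⟨n - 1, by omega⟩
    rw [Finset.sum_range_succ'] at h2
    simp at h2
    exact hv h2.symm
  have hfin : ((fun a' => (a', v)) ⁻¹' {q : ℝ × (ℕ → ℝ) | cons q.1 q.2 ∈ DR n}).Finite := by
    refine Set.Finite.subset ((q.roots.toFinset.finite_toSet).image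
      (fun x => - lin n (fun i => x^(i+1)) v)) ?_
    rintro a ⟨x, hx1, hx2⟩
    refine ⟨x, ?_, ?_⟩
    · simp only [Multiset.mem_toFinset, Finset.mem_coe]
      rw [Polynomial.mem_roots hqne, Polynomial.IsRoot.def, hqev]
      exact hx2
    · have h3 := ev_cons n a v 0 x
      have h4 : ev n (cons a v + 0) x = 0 := by rw [add_zero]; exact hx1
      rw [h4] at h3
      simp only [Pi.zero_apply, zero_mul, Finset.sum_const_zero, zero_add] at h3
      linarith
  have := nullSingletonClass_gaussianReal (μ := 0) (v := 1) (by norm_num)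
  exact hfin.measure_zero _

/-- the polynomial -/
noncomputable def pol (n : ℕ) (ω : ℕ → ℝ) : Polynomial ℝ :=
  ∑ i ∈ Finset.range (n + 1), Polynomial.C (ω i) * Polynomial.X ^ i

lemma eval_pol (n : ℕ) (ω : ℕ → ℝ) (x : ℝ) : (pol n ω).eval x = ev n ω x := by
  unfold pol ev
  rw [Polynomial.eval_finsetSum]
  exact Finset.sum_congr rfl fun i _ => by simp

lemma eval_pol' (n : ℕ) (ω : ℕ → ℝ) (x : ℝ) : (pol n ω).derivative.eval x = ev' n ω x := by
  unfold pol ev'
  rw [Polynomial.derivative_sum, Polynomial.eval_finsetSum, Finset.sum_range_succ']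
  simp only [Polynomial.derivative_mul, Polynomial.derivative_C, zero_mul, zero_add, pow_zero,
    Polynomial.derivative_one, mul_zero, Polynomial.eval_zero, add_zero, Polynomial.derivative_X_pow]
  refine Finset.sum_congr rfl fun i _ => ?_
  simp
  ring

lemma card_roots_le (n : ℕ) (ω : ℕ → ℝ) (hω : ω ∉ DR n) :
    ((pol n ω).roots.card : ℝ≥0∞) ≤ Tn n ω := by
  classical
  have hne : pol n ω ≠ 0 := by
    intro h
    apply hω
    refine ⟨0, ?_, ?_⟩
    · rw [← eval_pol, h, Polynomial.eval_zero]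
    · rw [← eval_pol', h, Polynomial.derivative_zero, Polynomial.eval_zero]
  have hnd : (pol n ω).roots.Nodup := by
    rw [Multiset.nodup_iff_count_le_one]
    intro x
    rw [Polynomial.count_roots]
    by_contra hcon
    push Not at hcon
    rw [Polynomial.one_lt_rootMultiplicity_iff_isRoot hne] at hcon
    apply hω
    refine ⟨x, ?_, ?_⟩
    · rw [← eval_pol]; exact hcon.1
    · rw [← eval_pol']; exact hcon.2
  set S := (pol n ω).roots.toFinset with hS
  have hcard : (pol n ω).roots.card = S.card := by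
    rw [hS, Multiset.toFinset_card_of_nodup hnd]
  have hroot : ∀ x ∈ S, ev n ω x = 0 := by
    intro x hx
    rw [hS, Multiset.mem_toFinset, Polynomial.mem_roots hne] at hx
    rw [← eval_pol]; exact hx
  rw [hcard, ← Finset.card_filter_add_card_filter_not (s := S) (fun x => |x| ≤ 1)]
  push_cast
  unfold Tn
  refine add_le_add ?_ ?_
  · refine card_le_cnt n ω _ ?_
    intro x hx
    rw [Finset.mem_filter] at hx
    exact ⟨abs_le.mp hx.2, hroot x hx.1⟩
  · have hinj : Set.InjOn (fun x : ℝ => x⁻¹) (S.filter (fun x => ¬ |x| ≤ 1) : Set ℝ) :=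
      fun x _ y _ h => inv_injective h
    rw [← Finset.card_image_of_injOn hinj]
    refine card_le_cnt n (rev n ω) _ ?_
    intro y hy
    rw [Finset.mem_image] at hy
    obtain ⟨x, hx, rfl⟩ := hy
    rw [Finset.mem_filter] at hx
    have hx1 : 1 < |x| := not_le.mp hx.2
    have hx0 : x ≠ 0 := by
      intro h; rw [h, abs_zero] at hx1; linarith
    constructor
    · have : |x⁻¹| ≤ 1 := by rw [abs_inv]; exact inv_le_one_of_one_le₀ hx1.le
      exact abs_le.mp this
    · rw [ev_rev n ω hx0, hroot x hx.1, mul_zero]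

/-! ### expectation under the shift -/

lemma rev_shift {n K : ℕ} (h : 2 * K ≤ n + 1) (ω : ℕ → ℝ) : rev n (ω + dP n K) = rev n ω + dQ K := by
  funext i
  simp only [rev, Pi.add_apply]
  congr 1
  unfold sig
  split_ifs with hi
  · unfold dP
    rw [if_pos (Nat.sub_le n i)]
    congr 1
    omega
  · unfold dP
    rw [if_neg hi]
    rw [dQ_zero_of_ge]
    omega

lemma Par.n_pos {L n : ℕ} (h : Par L n) : 1 ≤ n := by
  have := h.hL
  have := h.L_le_n
  omega

lemma Par.expect {L n : ℕ} (h : Par L n) :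
    ∫⁻ ω, Tn n (ω + dP n (L^2)) ∂P ≤
      ENNReal.ofReal (2 / Real.pi * Real.log n - (1 - Real.exp (-(1/4))) / Real.pi * Real.log L + 52) := by
  have hpi := Real.pi_gt_three
  have hn := h.n_pos
  have hLn : Real.log L ≤ Real.log n := by
    have h2 := h.L2
    exact Real.log_le_log (by linarith) (by exact_mod_cast h.L_le_n)
  have hL0 : 0 ≤ Real.log L := Real.log_nonneg (by linarith [h.L2])
  have hexp : Real.exp (-(1/4)) ≤ 1 := by rw [Real.exp_le_one_iff]; norm_num
  have hexp0 := Real.exp_pos (-(1/4))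
  have hg : 0 ≤ Real.log n - (1 - Real.exp (-(1/4))) * Real.log L := by nlinarith
  have h1 : ∫⁻ ω, Tn n (ω + dP n (L^2)) ∂P =
      ∫⁻ ω, cnt n (ω + dP n (L^2)) ∂P + ∫⁻ ω, cnt n (ω + dQ (L^2)) ∂P := by
    unfold Tn
    have hm : Measurable (fun ω : ℕ → ℝ => cnt n (ω + dP n (L^2))) :=
      (measurable_cnt n).comp (by fun_prop)
    rw [lintegral_add_left hm]
    congr 1
    have hm2 : Measurable (fun ω : ℕ → ℝ => cnt n (ω + dQ (L^2))) :=
      (measurable_cnt n).comp (by fun_prop)
    simp_rw [rev_shift h.two_K]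
    conv_rhs => rw [← P_rev n]
    rw [lintegral_map hm2 (measurable_rev n)]
  rw [h1]
  refine (add_le_add ((kac_rice n hn _).trans h.boundP) ((kac_rice n hn _).trans h.boundQ)).trans ?_
  have p1 : 0 ≤ 1 / (2 * Real.pi) * Real.log n + 13 := by
    have : 0 ≤ Real.log n := by linarith
    positivity
  have p2 : 0 ≤ 1 / (2 * Real.pi) * (Real.log n - (1 - Real.exp (-(1/4))) * Real.log L) + 13 := by
    positivity
  rw [← ENNReal.ofReal_add p1 p1, ← ENNReal.ofReal_add p2 p2, ← ENNReal.ofReal_add (by linarith) (by linarith)]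
  refine ENNReal.ofReal_le_ofReal (le_of_eq ?_)
  field_simp
  ring

end Pool.Agent.H96.Kac
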