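import Pool.Agent.H96.KacI
import Mathlib.NumberTheory.Harmonic.Bounds

set_option autoImplicit false
open MeasureTheory ProbabilityTheory Filter Topology
open scoped ENNReal NNReal

namespace Pool.Agent.H96.Kac

/-! ### constants -/

noncomputable def gg : ℝ := 1 - Real.exp (-(1/4))
noncomputable def ee : ℝ := gg / (20 * Real.pi)
noncomputable def qq : ℝ := (ee/2) / (2/Real.pi - ee)

lemma gg_pos : 0 < gg := by
  unfold gg
  have : Real.exp (-(1/4)) < 1 := by rw [Real.exp_lt_one_iff]; norm_num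
  linarith

lemma gg_lt : gg < 1 := by
  unfold gg
  have := Real.exp_pos (-(1/4))
  linarith

lemma ee_pos : 0 < ee := by
  unfold ee
  have := gg_pos
  have := Real.pi_pos
  positivity

lemma ee_eq : gg / Real.pi = 20 * ee := by
  unfold ee
  have := Real.pi_pos
  field_simp

lemma ee_lt : ee < 1 / Real.pi := by
  have h1 := ee_eq
  have h2 : gg / Real.pi < 1 / Real.pi := div_lt_div_of_pos_right gg_lt Real.pi_pos
  have := ee_pos
  linarith

lemma ee_lt_one : ee < 1 := by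
  refine ee_lt.trans ?_
  rw [div_lt_one Real.pi_pos]
  linarith [Real.pi_gt_three]

lemma cc_gt : ee < 2/Real.pi - ee := by
  have h := ee_lt
  have : 2/Real.pi = 1/Real.pi + 1/Real.pi := by ring
  linarith

lemma cc_pos : 0 < 2/Real.pi - ee := ee_pos.trans cc_gt

lemma qq_pos : 0 < qq := div_pos (half_pos ee_pos) cc_pos

lemma qq_lt : qq < 1 := by
  unfold qq
  rw [div_lt_one cc_pos]
  have := cc_gt
  have := ee_pos
  linarith

lemma qq_mul : qq * (2/Real.pi - ee) = ee/2 := by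
  unfold qq
  exact div_mul_cancel₀ _ cc_pos.ne'

/-- few real roots -/
def BB (n : ℕ) : Set (ℕ → ℝ) := {ω | Tn n ω ≤ ENNReal.ofReal ((2/Real.pi - ee) * Real.log n)}

lemma measurable_BB (n : ℕ) : MeasurableSet (BB n) := measurableSet_le (measurable_Tn n) measurable_const

lemma Par.log_n {L n : ℕ} (h : Par L n) : Real.log n ≤ 1 + 10 * Real.log L := by
  have h2 := h.L2
  have hn : (n:ℝ) ≤ 2 * (L:ℝ)^10 := by exact_mod_cast h.hn2
  have hn0 : (0:ℝ) < n := by exact_mod_cast h.n_pos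
  have h3 : Real.log n ≤ Real.log (2 * (L:ℝ)^10) := Real.log_le_log hn0 hn
  rw [Real.log_mul (by norm_num) (by positivity), Real.log_pow] at h3
  have h4 : Real.log 2 ≤ 1 := by
    have := Real.log_two_lt_d9
    linarith
  push_cast at h3
  linarith

lemma Par.markov {L n : ℕ} (h : Par L n) (hL : 53 ≤ ee/2 * Real.log L) :
    ENNReal.ofReal qq ≤ P {ω | ω + dP n (L^2) ∈ BB n} := by
  have hln := h.log_n
  have he := ee_pos
  have he1 := ee_lt_one
  have hLn : Real.log L ≤ Real.log n := by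
    have h2 := h.L2
    exact Real.log_le_log (by linarith) (by exact_mod_cast h.L_le_n)
  set c : ℝ := (2/Real.pi - ee) * Real.log n with hc
  have hlog : 0 < Real.log n := by
    have : 0 < Real.log L := by
      by_contra hcon
      push Not at hcon
      nlinarith
    linarith
  have hcpos : 0 < c := mul_pos cc_pos hlog
  have hM : 2 / Real.pi * Real.log n - (1 - Real.exp (-(1/4))) / Real.pi * Real.log L + 52 ≤ (1 - qq) * c := by
    have e1 : (1 - qq) * c = (2/Real.pi - ee) * Real.log n - ee/2 * Real.log n := by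
      rw [hc, sub_mul, one_mul, ← mul_assoc, qq_mul]
    have e2 : (1 - Real.exp (-(1/4))) / Real.pi = 20 * ee := ee_eq
    rw [e1, e2]
    have : ee * Real.log n ≤ ee * (1 + 10 * Real.log L) := mul_le_mul_of_nonneg_left hln he.le
    nlinarith
  have hm : Measurable (fun ω : ℕ → ℝ => ω + dP n (L^2)) := by fun_prop
  have hmS : MeasurableSet {ω : ℕ → ℝ | ω + dP n (L^2) ∈ BB n} := hm (measurable_BB n)
  have h1 := mul_meas_ge_le_lintegral (μ := P) ((measurable_Tn n).comp hm) (ENNReal.ofReal c)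
  have h2 : ENNReal.ofReal c * P {ω | ENNReal.ofReal c ≤ (Tn n ∘ fun ω : ℕ → ℝ => ω + dP n (L^2)) ω} ≤
      ENNReal.ofReal c * ENNReal.ofReal (1 - qq) := by
    refine h1.trans ?_
    rw [← ENNReal.ofReal_mul hcpos.le, mul_comm c]
    exact h.expect.trans (ENNReal.ofReal_le_ofReal hM)
  rw [ENNReal.mul_le_mul_iff_right (by simpa using hcpos) ENNReal.ofReal_ne_top] at h2
  have h3 : P {ω : ℕ → ℝ | ω + dP n (L^2) ∈ BB n}ᶜ ≤ ENNReal.ofReal (1 - qq) := by
    refine (measure_mono ?_).trans h2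
    intro ω hω
    simp only [Set.mem_compl_iff, Set.mem_ofPred_eq, BB, not_le] at hω
    simp only [Set.mem_ofPred_eq, Function.comp]
    exact hω.le
  have hP : IsProbabilityMeasure P := by unfold P; infer_instance
  have h4 := prob_add_prob_compl (μ := P) hmS
  have h5 : ENNReal.ofReal qq + ENNReal.ofReal (1 - qq) = 1 := by
    rw [← ENNReal.ofReal_add qq_pos.le (by linarith [qq_lt])]
    simp
  have h6 : ENNReal.ofReal qq + ENNReal.ofReal (1 - qq) ≤
      P {ω : ℕ → ℝ | ω + dP n (L^2) ∈ BB n} + ENNReal.ofReal (1 - qq) := by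
    rw [h5, ← h4]
    gcongr
  exact (ENNReal.add_le_add_iff_right ENNReal.ofReal_ne_top).mp h6

/-! ### energy -/

lemma sum_dQ_sq (K : ℕ) : ∑ i ∈ Finset.range (2*K), dQ K i ^ 2 ≤ 1 + Real.log K := by
  have h : ∀ m, m ≤ K → ∑ i ∈ Finset.range (2*m), dQ K i ^ 2 ≤ ((harmonic m : ℚ) : ℝ) := by
    intro m
    induction m with
    | zero => intro _; simp
    | succ m ih =>
      intro hm
      rw [show 2 * (m+1) = 2*m + 1 + 1 by ring, Finset.sum_range_succ, Finset.sum_range_succ]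
      have h1 : dQ K (2*m) = be m := by
        unfold dQ; rw [if_pos (by omega)]; congr 1; omega
      have h2 : dQ K (2*m+1) = 0 := by
        unfold dQ; rw [if_neg]; omega
      rw [h1, h2]
      have h3 := ih (by omega)
      have h4 := be_sq_le m
      rw [harmonic_succ]
      push_cast
      rw [one_div] at h4
      linarith
  exact (h K le_rfl).trans (harmonic_le_one_add_log K)

/-- degrees -/
def nn (L j : ℕ) : ℕ := L^10 + 2 * L^2 * j

/-- supports -/
def ss (L j : ℕ) : Finset ℕ := Finset.Ioc (nn L j - 2 * L^2) (nn L j)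

lemma two_sq_le {L : ℕ} (hL : 2 ≤ L) : 2 * L^2 ≤ L^10 := by
  have h1 : 2 ≤ L^8 := hL.trans (Nat.le_self_pow (by norm_num) L)
  calc 2 * L^2 ≤ L^8 * L^2 := Nat.mul_le_mul_right _ h1
    _ = L^10 := by ring

lemma nn_ge (L j : ℕ) : L^10 ≤ nn L j := Nat.le_add_right _ _

lemma nn_le {L j : ℕ} (hL : 2 ≤ L) (hj : j < L^7) : nn L j ≤ 2 * L^10 := by
  unfold nn
  have h1 : 2 * L^2 * j ≤ L * L^2 * L^7 := Nat.mul_le_mul (Nat.mul_le_mul_right _ hL) hj.le
  have h2 : L * L^2 * L^7 = L^10 := by ring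
  omega

lemma ss_disjoint {L : ℕ} (i j : ℕ) (hij : i ≠ j) : Disjoint (ss L i) (ss L j) := by
  have key : ∀ i j : ℕ, i < j → Disjoint (ss L i) (ss L j) := by
    intro i j hij
    rw [Finset.disjoint_left]
    intro a ha hb
    unfold ss at ha hb
    rw [Finset.mem_Ioc] at ha hb
    have h1 : 2 * L^2 * (i+1) ≤ 2 * L^2 * j := Nat.mul_le_mul_left _ hij
    have h2 : 2 * L^2 * (i+1) = 2 * L^2 * i + 2 * L^2 := by ring
    unfold nn at ha hb
    omega
  rcases lt_or_gt_of_ne hij with h | h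
  · exact key i j h
  · exact (key j i h).symm

lemma dP_supp {L : ℕ} (hL : 2 ≤ L) (j i : ℕ) (hi : i ∉ ss L j) : dP (nn L j) (L^2) i = 0 := by
  have hge : 2 * L^2 ≤ nn L j := (two_sq_le hL).trans (nn_ge L j)
  unfold dP
  split_ifs with h
  · refine dQ_zero_of_ge ?_
    unfold ss at hi
    rw [Finset.mem_Ioc] at hi
    omega
  · rfl

lemma energy {L : ℕ} (hL : 2 ≤ L) (j : ℕ) :
    ∑ i ∈ ss L j, (dP (nn L j) (L^2) i)^2 ≤ 1 + Real.log ((L^2 : ℕ) : ℝ) := by
  have hge : 2 * L^2 ≤ nn L j := (two_sq_le hL).trans (nn_ge L j)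
  refine le_trans (le_of_eq ?_) (sum_dQ_sq (L^2))
  set n := nn L j with hn
  have h1 : ss L j = (Finset.range (2 * L^2)).image (fun k => n - k) := by
    ext a
    unfold ss
    rw [Finset.mem_Ioc, Finset.mem_image]
    constructor
    · rintro ⟨h1, h2⟩
      exact ⟨n - a, Finset.mem_range.mpr (by omega), by omega⟩
    · rintro ⟨k, hk, rfl⟩
      rw [Finset.mem_range] at hk
      constructor
      · rw [← hn]; omega
      · rw [← hn]; omega
  rw [h1, Finset.sum_image]
  · refine Finset.sum_congr rfl fun k hk => ?_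
    rw [Finset.mem_range] at hk
    unfold dP
    rw [if_pos (Nat.sub_le n k)]
    congr 2
    omega
  · intro a ha b hb hab
    simp only [Finset.coe_range, Set.mem_Iio] at ha hb
    have hab' : n - a = n - b := hab
    omega

lemma lower {L : ℕ} (hL : 2 ≤ L) (hC : 8 * (L:ℝ)^12 * Real.exp (-(L:ℝ)) ≤ 1/2)
    (hlog : 53 ≤ ee/2 * Real.log L) :
    ENNReal.ofReal qq ^ 2 ≤ 2 * P (⋃ j ∈ Finset.range (L^7), BB (nn L j)) := by
  have hpar : ∀ j < L^7, Par L (nn L j) := fun j hj => ⟨hL, nn_ge L j, nn_le hL hj, hC⟩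
  have hL2 : (2:ℝ) ≤ L := by exact_mod_cast hL
  have hJ : ENNReal.ofReal (Real.exp (1 + Real.log ((L^2 : ℕ) : ℝ))) ≤ ((L^7 : ℕ) : ℝ≥0∞) := by
    rw [Real.exp_add, Real.exp_log (by positivity)]
    rw [← ENNReal.ofReal_natCast]
    refine ENNReal.ofReal_le_ofReal ?_
    have h1 : Real.exp 1 ≤ 3 := by
      have := Real.exp_one_lt_d9
      linarith
    push_cast
    have h2 : (32:ℝ) ≤ (L:ℝ)^5 := by
      calc (32:ℝ) = 2^5 := by norm_num
        _ ≤ (L:ℝ)^5 := pow_le_pow_left₀ (by norm_num) hL2 5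
    calc Real.exp 1 * (L:ℝ)^2 ≤ (L:ℝ)^5 * (L:ℝ)^2 := by
          refine mul_le_mul_of_nonneg_right ?_ (by positivity)
          linarith
      _ = (L:ℝ)^7 := by ring
  have h := second_moment (L^7) (ss L) (fun j => dP (nn L j) (L^2)) (fun j => BB (nn L j))
    (fun j => measurable_BB _) (fun j i hi => dP_supp hL j i hi) (fun i j hij => ss_disjoint i j hij)
    (1 + Real.log ((L^2 : ℕ) : ℝ)) (fun j => energy hL j) hJ (ENNReal.ofReal qq)
    (fun j hj => (hpar j hj).markov hlog)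
  have hJ0 : (((L^7 : ℕ) : ℝ≥0∞))^2 ≠ 0 := by
    have : (L^7 : ℕ) ≠ 0 := by positivity
    exact pow_ne_zero 2 (by exact_mod_cast this)
  have hJt : (((L^7 : ℕ) : ℝ≥0∞))^2 ≠ ∞ := ENNReal.pow_ne_top (ENNReal.natCast_ne_top _)
  rw [mul_pow] at h
  have h2 : 2 * (((L^7 : ℕ) : ℝ≥0∞))^2 * P (⋃ j ∈ Finset.range (L^7), BB (nn L j)) =
    (((L^7 : ℕ) : ℝ≥0∞))^2 * (2 * P (⋃ j ∈ Finset.range (L^7), BB (nn L j))) := by ring
  rw [h2] at h
  exact (ENNReal.mul_le_mul_iff_right hJ0 hJt).mp h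

lemma exists_L (m : ℕ) : ∃ L : ℕ, m ≤ L ∧ 2 ≤ L ∧ 8 * (L:ℝ)^12 * Real.exp (-(L:ℝ)) ≤ 1/2 ∧
    53 ≤ ee/2 * Real.log L := by
  have h1 : ∀ᶠ L : ℕ in atTop, (L:ℝ)^12 * Real.exp (-(L:ℝ)) < 1/16 :=
    ((Real.tendsto_pow_mul_exp_neg_atTop_nhds_zero 12).comp tendsto_natCast_atTop_atTop).eventually_lt_const
      (by norm_num)
  have h2 : ∀ᶠ L : ℕ in atTop, 53 / (ee/2) ≤ Real.log L :=
    (Real.tendsto_log_atTop.comp tendsto_natCast_atTop_atTop).eventually_ge_atTop _
  obtain ⟨L, h1, h2, h3, h4⟩ := (h1.and (h2.and ((eventually_ge_atTop m).and (eventually_ge_atTop 2)))).exists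
  refine ⟨L, h3, h4, ?_, ?_⟩
  · nlinarith
  · rw [div_le_iff₀ (half_pos ee_pos)] at h2
    linarith

/-- union of the rare events -/
def CC (m : ℕ) : Set (ℕ → ℝ) := ⋃ n : ℕ, ⋃ _ : m ≤ n, BB n

lemma CC_lower (m : ℕ) : ENNReal.ofReal qq ^ 2 ≤ 2 * P (CC m) := by
  obtain ⟨L, h1, h2, h3, h4⟩ := exists_L m
  refine (lower h2 h3 h4).trans ?_
  gcongr
  intro ω hω
  simp only [Set.mem_iUnion] at hω
  obtain ⟨j, hj, hω⟩ := hω
  unfold CC
  simp only [Set.mem_iUnion]
  refine ⟨nn L j, ?_, hω⟩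
  exact h1.trans ((Nat.le_self_pow (by norm_num) L).trans (nn_ge L j))

lemma CC_inter : P (⋂ m, CC m) ≠ 0 := by
  have hP : IsProbabilityMeasure P := by unfold P; infer_instance
  have hm : ∀ m, MeasurableSet (CC m) := fun m =>
    MeasurableSet.iUnion fun n => MeasurableSet.iUnion fun _ => measurable_BB n
  have hanti : Antitone CC := by
    intro a b hab ω hω
    unfold CC at hω ⊢
    simp only [Set.mem_iUnion] at hω ⊢
    obtain ⟨n, hn, hω⟩ := hω
    exact ⟨n, hab.trans hn, hω⟩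
  have ht := tendsto_measure_iInter_atTop (μ := P) (fun m => (hm m).nullMeasurableSet) hanti
    ⟨0, measure_ne_top _ _⟩
  have ht2 : Tendsto (fun m => 2 * (P ∘ CC) m) atTop (𝓝 (2 * P (⋂ m, CC m))) :=
    ENNReal.Tendsto.const_mul ht (Or.inr (by norm_num))
  have h := ge_of_tendsto' ht2 (fun m => CC_lower m)
  intro h0
  rw [h0, mul_zero] at h
  have : 0 < ENNReal.ofReal qq ^ 2 := by
    have : 0 < ENNReal.ofReal qq := ENNReal.ofReal_pos.mpr qq_pos
    positivity
  exact absurd h (not_le.mpr this)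

/-- the number of real roots divided by `log n` does not converge almost surely to `2/π` -/
lemma no_convergence : ¬ ∀ᵐ ω ∂P, Tendsto (fun n : ℕ => ((pol n ω).roots.card : ℝ) / Real.log n) atTop
    (𝓝 (2 / Real.pi)) := by
  intro h
  apply CC_inter
  have hDR : ∀ᵐ ω ∂P, ∀ n : ℕ, ω ∉ DR (n+1) := by
    rw [ae_all_iff]
    intro n
    exact measure_eq_zero_iff_ae_notMem.mp (P_DR (n+1) (by omega))
  rw [measure_eq_zero_iff_ae_notMem]
  filter_upwards [h, hDR] with ω h1 h2 hmem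
  have h3 : ∀ᶠ n : ℕ in atTop, 2/Real.pi - ee < ((pol n ω).roots.card : ℝ) / Real.log n :=
    h1.eventually_const_lt (by linarith [ee_pos])
  obtain ⟨m, hm⟩ := eventually_atTop.mp (h3.and (eventually_ge_atTop 2))
  rw [Set.mem_iInter] at hmem
  have h4 := hmem m
  unfold CC at h4
  simp only [Set.mem_iUnion] at h4
  obtain ⟨n, hn, hB⟩ := h4
  obtain ⟨h5, h6⟩ := hm n hn
  have hlog : 0 < Real.log n := Real.log_pos (by exact_mod_cast h6)
  rw [lt_div_iff₀ hlog] at h5
  have h7 : ω ∉ DR n := by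
    have := h2 (n-1)
    rwa [show n - 1 + 1 = n by omega] at this
  have h8 := card_roots_le n ω h7
  have h9 : ((pol n ω).roots.card : ℝ≥0∞) ≤ ENNReal.ofReal ((2/Real.pi - ee) * Real.log n) := h8.trans hB
  rw [← ENNReal.ofReal_natCast, ENNReal.ofReal_le_ofReal_iff (mul_pos cc_pos hlog).le] at h9
  linarith

end Pool.Agent.H96.Kac
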