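import Mathlib
import Pool.Agent.H64.BorsukUlam

/-!
# Rich lines (Szemeredi-Trotter) via polynomial partitioning
-/

open Finset

namespace Pool.Agent.H96.ST

noncomputable section

/-- `w` lies on the line through `p` and `q` (for `p ≠ q`). -/
def col (p q w : ℝ × ℝ) : Prop := (q.1 - p.1) * (w.2 - p.2) = (q.2 - p.2) * (w.1 - p.1)

open Classical in
/-- The points of `P` on the line through `p` and `q`. -/
def lineOf (P : Finset (ℝ × ℝ)) (p q : ℝ × ℝ) : Finset (ℝ × ℝ) := P.filter (col p q)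

/-- The restriction of `f` to every line is a polynomial of degree at most `D`. -/
def LinePoly (D : ℕ) (f : ℝ × ℝ → ℝ) : Prop :=
  ∀ p v : ℝ × ℝ, ∃ g : Polynomial ℝ, g.natDegree ≤ D ∧ ∀ t : ℝ, f (p + t • v) = g.eval t

/-- Evaluation of the bivariate polynomial with coefficients `c`. -/
def ev {d : ℕ} (c : Fin (d + 1) × Fin (d + 1) → ℝ) (w : ℝ × ℝ) : ℝ :=
  ∑ a, c a * w.1 ^ (a.1 : ℕ) * w.2 ^ (a.2 : ℕ)

theorem ev_neg {d : ℕ} (c : Fin (d + 1) × Fin (d + 1) → ℝ) (w : ℝ × ℝ) :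
    ev (-c) w = - ev c w := by
  simp [ev, Finset.sum_neg_distrib]

theorem continuous_ev {d : ℕ} (w : ℝ × ℝ) :
    Continuous (fun c : Fin (d + 1) × Fin (d + 1) → ℝ => ev c w) := by
  unfold ev
  fun_prop

theorem linePoly_ev {d : ℕ} (c : Fin (d + 1) × Fin (d + 1) → ℝ) : LinePoly (2 * d) (ev c) := by
  intro p v
  refine ⟨∑ a, Polynomial.C (c a) * (Polynomial.C p.1 + Polynomial.X * Polynomial.C v.1) ^ (a.1 : ℕ)
    * (Polynomial.C p.2 + Polynomial.X * Polynomial.C v.2) ^ (a.2 : ℕ), ?_, ?_⟩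
  · apply Polynomial.natDegree_sum_le_of_forall_le
    intro a _
    have h1 : ∀ (x y : ℝ), (Polynomial.C x + Polynomial.X * Polynomial.C y).natDegree ≤ 1 := by
      intro x y
      compute_degree
    have h2 : ∀ (x y : ℝ) (n : ℕ),
        ((Polynomial.C x + Polynomial.X * Polynomial.C y) ^ n).natDegree ≤ n := by
      intro x y n
      calc _ ≤ n * 1 := Polynomial.natDegree_pow_le_of_le n (h1 x y)
        _ = n := mul_one n
    have h3 := h2 p.1 v.1 a.1
    have h4 := h2 p.2 v.2 a.2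
    have h5 := a.1.2
    have h6 := a.2.2
    calc _ ≤ (0 + (a.1 : ℕ)) + (a.2 : ℕ) := by
          refine Polynomial.natDegree_mul_le_of_le (Polynomial.natDegree_mul_le_of_le ?_ h3) h4
          simp
      _ ≤ 2 * d := by omega
  · intro t
    simp only [ev, Polynomial.eval_finsetSum, Polynomial.eval_mul, Polynomial.eval_pow,
      Polynomial.eval_add, Polynomial.eval_C, Polynomial.eval_X, Prod.fst_add, Prod.snd_add,
      Prod.smul_fst, Prod.smul_snd, smul_eq_mul]

theorem pow_indep {n : ℕ} (h : Fin n → ℝ) (H : ∀ x : ℝ, ∑ a, h a * x ^ (a : ℕ) = 0) : h = 0 := by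
  have h1 : (∑ a : Fin n, Polynomial.C (h a) * Polynomial.X ^ (a : ℕ)) = 0 := by
    apply Polynomial.funext
    intro x
    simpa [Polynomial.eval_finsetSum] using H x
  funext a
  have h2 := congrArg (fun q => Polynomial.coeff q (a : ℕ)) h1
  simp only [Polynomial.finsetSum_coeff, Polynomial.coeff_C_mul, Polynomial.coeff_X_pow,
    Polynomial.coeff_zero] at h2
  rw [Finset.sum_eq_single a] at h2
  · simpa using h2
  · intro b _ hb
    have : (a : ℕ) ≠ (b : ℕ) := fun h => hb (Fin.ext h.symm)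
    simp [this]
  · simp

theorem ev_ne {d : ℕ} (c : Fin (d + 1) × Fin (d + 1) → ℝ) (hc : c ≠ 0) : ∃ w, ev c w ≠ 0 := by
  by_contra hne
  push Not at hne
  apply hc
  have h1 : ∀ y : ℝ, ∀ a : Fin (d + 1), ∑ b : Fin (d + 1), c (a, b) * y ^ (b : ℕ) = 0 := by
    intro y
    have := pow_indep (fun a : Fin (d + 1) => ∑ b : Fin (d + 1), c (a, b) * y ^ (b : ℕ)) (by
      intro x
      have h2 := hne (x, y)
      simp only [ev, Fintype.sum_prod_type] at h2
      rw [← h2]
      refine Finset.sum_congr rfl fun a _ => ?_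
      rw [Finset.sum_mul]
      refine Finset.sum_congr rfl fun b _ => ?_
      ring)
    intro a
    exact congrFun this a
  funext ⟨a, b⟩
  have := pow_indep (fun b : Fin (d + 1) => c (a, b)) (fun y => h1 y a)
  exact congrFun this b

/-- clamping to `[-1, 1]` -/
def clamp (x : ℝ) : ℝ := max (-1) (min 1 x)

theorem clamp_neg (x : ℝ) : clamp (-x) = - clamp x := by
  unfold clamp
  rcases le_total x 1 with h | h <;> rcases le_total (-1) x with h' | h'
  · rw [min_eq_right h, max_eq_right h', min_eq_right (by linarith), max_eq_right (by linarith)]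
  · rw [min_eq_right h, max_eq_left h', min_eq_left (by linarith), max_eq_right (by linarith)]
    ring
  · rw [min_eq_left h, min_eq_right (by linarith : -x ≤ 1), max_eq_left (by linarith : -x ≤ -1),
      max_eq_right (by norm_num : (-1 : ℝ) ≤ 1)]
  · linarith

theorem clamp_ge (x : ℝ) : -1 ≤ clamp x := le_max_left _ _

theorem clamp_eq {x : ℝ} (h : 1 ≤ x) : clamp x = 1 := by
  unfold clamp
  rw [min_eq_left h]; norm_num

theorem continuous_clamp : Continuous clamp := by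
  unfold clamp; fun_prop

open Classical in
/-- Discrete polynomial ham sandwich. -/
theorem ham {ι : Type} [Fintype ι] (d : ℕ) (hd : Fintype.card ι < (d + 1) ^ 2)
    (A : ι → Finset (ℝ × ℝ)) :
    ∃ f : ℝ × ℝ → ℝ, LinePoly (2 * d) f ∧ (∃ w, f w ≠ 0) ∧
      ∀ i, 2 * #((A i).filter fun w => 0 < f w) ≤ #(A i) ∧
        2 * #((A i).filter fun w => f w < 0) ≤ #(A i) := by
  set E := Fin (d + 1) × Fin (d + 1) → ℝ with hE
  have hfr : Module.finrank ℝ (ι → ℝ) < Module.finrank ℝ E := by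
    rw [Module.finrank_pi, Module.finrank_pi]
    simp only [Fintype.card_prod, Fintype.card_fin]
    calc _ < (d + 1) ^ 2 := hd
      _ = _ := by ring
  let G : ℕ → E → (ι → ℝ) := fun n c i => ∑ p ∈ A i, clamp ((n + 1 : ℝ) * ev c p)
  have hG : ∀ n, ∃ x ∈ Metric.sphere (0 : E) 1, G n x = 0 := by
    intro n
    apply Pool.Agent.H64.BU.borsukUlam hfr (G n)
    · apply Continuous.continuousOn
      refine continuous_pi fun i => ?_
      refine continuous_finsetSum _ fun p _ => ?_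
      exact continuous_clamp.comp (continuous_const.mul (continuous_ev p))
    · intro x _
      funext i
      simp only [G, Pi.neg_apply, ← Finset.sum_neg_distrib]
      refine Finset.sum_congr rfl fun p _ => ?_
      rw [← clamp_neg, show ev (-x) p = - ev x p from ev_neg x p]
      congr 1; ring
  choose x hx hx0 using hG
  obtain ⟨c, hc, φ, hφ, hlim⟩ := (isCompact_sphere (0 : E) 1).tendsto_subseq hx
  have hc0 : c ≠ 0 := by
    rintro rfl
    simp at hc
  -- key one-sided estimate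
  have key : ∀ (s : ℝ) (hs : s = 1 ∨ s = -1) (i : ι),
      2 * #((A i).filter fun w => 0 < s * ev c w) ≤ #(A i) := by
    intro s hs i
    by_contra hcon
    push Not at hcon
    have h1 : ∀ p ∈ (A i).filter fun w => 0 < s * ev c w,
        ∀ᶠ n in Filter.atTop, 1 ≤ s * ((φ n + 1 : ℝ) * ev (x (φ n)) p) := by
      intro p hp
      rw [Finset.mem_filter] at hp
      have h2 : Filter.Tendsto (fun n => s * ev (x (φ n)) p) Filter.atTop (nhds (s * ev c p)) :=
        (((continuous_ev p).tendsto c).comp hlim).const_mul s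
      have h3 : Filter.Tendsto (fun n => (φ n + 1 : ℝ)) Filter.atTop Filter.atTop :=
        Filter.tendsto_atTop_add_const_right _ _
          (tendsto_natCast_atTop_atTop.comp hφ.tendsto_atTop)
      have h4 := h3.atTop_mul_pos hp.2 h2
      filter_upwards [h4.eventually_ge_atTop 1] with n hn
      calc (1 : ℝ) ≤ _ := hn
        _ = _ := by ring
    have h2 : ∀ᶠ n in Filter.atTop, ∀ p ∈ (A i).filter fun w => 0 < s * ev c w,
        1 ≤ s * ((φ n + 1 : ℝ) * ev (x (φ n)) p) := by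
      rw [Filter.eventually_all_finset]
      exact h1
    obtain ⟨n, hn⟩ := h2.exists
    have h3 : ∑ p ∈ A i, clamp (s * ((φ n + 1 : ℝ) * ev (x (φ n)) p)) = 0 := by
      have h4 : ∑ p ∈ A i, clamp ((φ n + 1 : ℝ) * ev (x (φ n)) p) = 0 := congrFun (hx0 (φ n)) i
      rcases hs with rfl | rfl
      · simpa using h4
      · simp only [neg_mul, one_mul, clamp_neg, Finset.sum_neg_distrib, h4, neg_zero]
    rw [← Finset.sum_filter_add_sum_filter_not (A i) (fun w => 0 < s * ev c w)] at h3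
    have h5 : ∑ p ∈ (A i).filter (fun w => 0 < s * ev c w),
        clamp (s * ((φ n + 1 : ℝ) * ev (x (φ n)) p)) = #((A i).filter fun w => 0 < s * ev c w) := by
      rw [Finset.sum_congr rfl (fun p hp => clamp_eq (hn p hp))]
      simp
    have h6 : -(#((A i).filter fun w => ¬ 0 < s * ev c w) : ℝ) ≤
        ∑ p ∈ (A i).filter (fun w => ¬ 0 < s * ev c w),
          clamp (s * ((φ n + 1 : ℝ) * ev (x (φ n)) p)) := by
      have : ∑ p ∈ (A i).filter (fun w => ¬ 0 < s * ev c w), (-1 : ℝ) ≤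
        ∑ p ∈ (A i).filter (fun w => ¬ 0 < s * ev c w),
          clamp (s * ((φ n + 1 : ℝ) * ev (x (φ n)) p)) :=
        Finset.sum_le_sum fun p _ => clamp_ge _
      simpa using this
    have h7 := Finset.card_filter_add_card_filter_not (s := A i) (fun w => 0 < s * ev c w)
    have h8 : (#((A i).filter fun w => 0 < s * ev c w) : ℝ) +
      (#((A i).filter fun w => ¬ 0 < s * ev c w) : ℝ) = #(A i) := by exact_mod_cast h7
    have h9 : (#(A i) : ℝ) < 2 * #((A i).filter fun w => 0 < s * ev c w) := by exact_mod_cast hcon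
    linarith
  refine ⟨ev c, linePoly_ev c, ev_ne c hc0, fun i => ⟨?_, ?_⟩⟩
  · simpa using key 1 (Or.inl rfl) i
  · simpa using key (-1) (Or.inr rfl) i

/-- The sign condition coded by a boolean. -/
def sg (b : Bool) (x : ℝ) : Prop := if b then 0 < x else x < 0

/-- The degrees of the partitioning polynomials. -/
def dg (i : ℕ) : ℕ := 2 * Nat.sqrt (2 ^ i)

open Classical in
/-- Polynomial partitioning in sign-vector form. -/
theorem partition (P : Finset (ℝ × ℝ)) (J : ℕ) :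
    ∃ f : ℕ → ℝ × ℝ → ℝ, (∀ i < J, LinePoly (dg i) (f i) ∧ ∃ w, f i w ≠ 0) ∧
      ∀ σ : ℕ → Bool, 2 ^ J * #(P.filter fun w => ∀ i < J, sg (σ i) (f i w)) ≤ #P := by
  induction J with
  | zero => exact ⟨fun _ _ => 0, by simp, by simp⟩
  | succ J ih =>
    obtain ⟨f, hf, hP⟩ := ih
    let ext : (Fin J → Bool) → ℕ → Bool := fun s i => if h : i < J then s ⟨i, h⟩ else false
    let A : (Fin J → Bool) → Finset (ℝ × ℝ) :=
      fun s => P.filter fun w => ∀ i < J, sg (ext s i) (f i w)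
    obtain ⟨g, hg, hg0, hgA⟩ := ham (Nat.sqrt (2 ^ J))
      (by simpa using Nat.lt_succ_sqrt' (2 ^ J)) A
    refine ⟨fun i => if i = J then g else f i, ?_, ?_⟩
    · intro i hi
      by_cases h : i = J
      · simp only [if_pos h]
        rw [h]
        exact ⟨hg, hg0⟩
      · simp only [if_neg h]
        exact hf i (by omega)
    · intro σ
      let s : Fin J → Bool := fun i => σ i
      have hs : ∀ i < J, ext s i = σ i := by
        intro i hi
        simp [ext, s, hi]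
      have h2 : (P.filter fun w => ∀ i < J + 1, sg (σ i) ((if i = J then g else f i) w)) ⊆
          (A s).filter (fun w => sg (σ J) (g w)) := by
        intro w hw
        simp only [Finset.mem_filter, A] at hw ⊢
        refine ⟨⟨hw.1, ?_⟩, ?_⟩
        · intro i hi
          have := hw.2 i (by omega)
          rw [if_neg (by omega)] at this
          rw [hs i hi]; exact this
        · have := hw.2 J (by omega)
          rwa [if_pos rfl] at this
      have h3 : 2 * #((A s).filter (fun w => sg (σ J) (g w))) ≤ #(A s) := by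
        have h1 := hgA s
        unfold sg
        cases σ J
        · simpa using h1.2
        · simpa using h1.1
      have h4 : 2 ^ J * #(A s) ≤ #P := hP (ext s)
      have h5 := Finset.card_le_card h2
      calc 2 ^ (J + 1) * #(P.filter fun w => ∀ i < J + 1, sg (σ i) ((if i = J then g else f i) w))
          ≤ 2 ^ (J + 1) * #((A s).filter (fun w => sg (σ J) (g w))) := Nat.mul_le_mul_left _ h5
        _ = 2 ^ J * (2 * #((A s).filter (fun w => sg (σ J) (g w)))) := by ring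
        _ ≤ 2 ^ J * #(A s) := Nat.mul_le_mul_left _ h3
        _ ≤ #P := h4

/-! ### Lines inside the zero set -/

theorem exists_dir (U : Finset (ℝ × ℝ)) : ∃ v : ℝ × ℝ,
    Set.InjOn (fun u : ℝ × ℝ => u.1 * v.1 + u.2 * v.2) U := by
  classical
  obtain ⟨s, hs⟩ := Infinite.exists_notMem_finset
    ((U ×ˢ U).image fun x => -(x.1.1 - x.2.1) / (x.1.2 - x.2.2))
  refine ⟨(1, s), ?_⟩
  intro u hu u' hu' h
  simp only [mul_one] at h
  by_cases h2 : u.2 = u'.2
  · rw [h2] at h
    exact Prod.ext (by linarith) h2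
  · exfalso
    apply hs
    rw [Finset.mem_image]
    refine ⟨(u, u'), Finset.mem_product.2 ⟨hu, hu'⟩, ?_⟩
    have h3 : u.2 - u'.2 ≠ 0 := sub_ne_zero.2 h2
    simp only
    rw [div_eq_iff h3]
    linarith

theorem lines_in {D : ℕ} {f : ℝ × ℝ → ℝ} (hf : LinePoly D f) {z : ℝ × ℝ} (hz : f z ≠ 0)
    (U : Finset (ℝ × ℝ)) (h0 : (0 : ℝ × ℝ) ∉ U)
    (hU : ∀ u ∈ U, ∀ w : ℝ × ℝ, u.1 * (w.1 - z.1) + u.2 * (w.2 - z.2) = 1 → f w = 0) :
    #U ≤ D := by
  classical
  obtain ⟨v, hv⟩ := exists_dir (insert 0 U)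
  obtain ⟨g, hg, hgf⟩ := hf z v
  have hg0 : g ≠ 0 := by
    rintro rfl
    apply hz
    have := hgf 0
    simpa using this
  have hne : ∀ u ∈ U, u.1 * v.1 + u.2 * v.2 ≠ 0 := by
    intro u hu h
    have h1 : u = 0 := hv (by simp [hu]) (by simp) (by simpa using h)
    exact h0 (h1 ▸ hu)
  have hmap : ∀ u ∈ U, (u.1 * v.1 + u.2 * v.2)⁻¹ ∈ g.roots.toFinset := by
    intro u hu
    rw [Multiset.mem_toFinset, Polynomial.mem_roots hg0, Polynomial.IsRoot.def, ← hgf]
    apply hU u hu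
    have h1 := hne u hu
    simp only [Prod.fst_add, Prod.snd_add, Prod.smul_fst, Prod.smul_snd, smul_eq_mul]
    field_simp
    ring
  have hinj : Set.InjOn (fun u : ℝ × ℝ => (u.1 * v.1 + u.2 * v.2)⁻¹) U := by
    intro u hu u' hu' h
    apply hv (by simp [Finset.mem_coe.1 hu]) (by simp [Finset.mem_coe.1 hu'])
    exact inv_injective h
  calc #U ≤ #g.roots.toFinset := Finset.card_le_card_of_injOn _ hmap hinj
    _ ≤ g.roots.card := Multiset.toFinset_card_le _
    _ ≤ g.natDegree := Polynomial.card_roots' g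
    _ ≤ D := hg

theorem exists_u {p q z : ℝ × ℝ} (hz : ¬ col p q z) : ∃ u : ℝ × ℝ, u ≠ 0 ∧
    ∀ w : ℝ × ℝ, col p q w ↔ u.1 * (w.1 - z.1) + u.2 * (w.2 - z.2) = 1 := by
  unfold col at hz
  set a := (q.2 - p.2) * (z.1 - p.1) - (q.1 - p.1) * (z.2 - p.2) with ha
  have ha0 : a ≠ 0 := by
    intro h
    apply hz
    linarith
  have hiff : ∀ w : ℝ × ℝ, col p q w ↔
      (-(q.2 - p.2) / a) * (w.1 - z.1) + ((q.1 - p.1) / a) * (w.2 - z.2) = 1 := by
    intro w
    unfold col
    rw [show (-(q.2 - p.2) / a) * (w.1 - z.1) + ((q.1 - p.1) / a) * (w.2 - z.2) =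
      (-(q.2 - p.2) * (w.1 - z.1) + (q.1 - p.1) * (w.2 - z.2)) / a by ring, div_eq_one_iff_eq ha0,
      ha]
    constructor <;> intro h <;> linarith
  refine ⟨(-(q.2 - p.2) / a, (q.1 - p.1) / a), ?_, hiff⟩
  intro h
  have h1 := (hiff p).1 (by unfold col; ring)
  rw [Prod.mk_eq_zero] at h
  rw [h.1, h.2] at h1
  norm_num at h1

theorem card_in {D : ℕ} {f : ℝ × ℝ → ℝ} (hf : LinePoly D f) {z : ℝ × ℝ} (hz : f z ≠ 0)
    (P : Finset (ℝ × ℝ)) (F : Finset (Finset (ℝ × ℝ)))
    (hF : ∀ l ∈ F, ∃ p q, l = lineOf P p q ∧ ∀ w, col p q w → f w = 0) : #F ≤ D := by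
  classical
  have h1 : ∀ l ∈ F, ∃ u : ℝ × ℝ, u ≠ 0 ∧
      l = P.filter (fun w => u.1 * (w.1 - z.1) + u.2 * (w.2 - z.2) = 1) ∧
      ∀ w : ℝ × ℝ, u.1 * (w.1 - z.1) + u.2 * (w.2 - z.2) = 1 → f w = 0 := by
    intro l hl
    obtain ⟨p, q, rfl, hw⟩ := hF l hl
    obtain ⟨u, hu0, hu⟩ := exists_u (p := p) (q := q) (z := z) (fun h => hz (hw z h))
    refine ⟨u, hu0, ?_, fun w h => hw w ((hu w).2 h)⟩
    unfold lineOf
    ext w
    simp only [Finset.mem_filter, hu w]
  choose! u hu0 hul huf using h1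
  have hinj : Set.InjOn u F := by
    intro l hl l' hl' h
    rw [hul l hl, hul l' hl', h]
  rw [← Finset.card_image_of_injOn hinj]
  apply lines_in hf hz
  · intro h
    obtain ⟨l, hl, h2⟩ := Finset.mem_image.1 h
    exact hu0 l hl h2
  · intro v hv w hw
    obtain ⟨l, hl, rfl⟩ := Finset.mem_image.1 hv
    exact huf l hl w hw

/-! ### Lines not inside the zero set -/

theorem pairs_ge {α β : Type*} [DecidableEq α] [DecidableEq β] (S : Finset α) (T : Finset β)
    (r : α → β) (h : ∀ a ∈ S, r a ∈ T) :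
    #S ≤ #T + #((S ×ˢ S).filter fun x => x.1 ≠ x.2 ∧ r x.1 = r x.2) := by
  classical
  rcases S.eq_empty_or_nonempty with rfl | ⟨a0, ha0⟩
  · simp
  have h1 : ∀ t : β, ∃ b : α, t ∈ S.image r → b ∈ S ∧ r b = t := by
    intro t
    by_cases ht : t ∈ S.image r
    · obtain ⟨b, hb, hbt⟩ := Finset.mem_image.1 ht
      exact ⟨b, fun _ => ⟨hb, hbt⟩⟩
    · exact ⟨a0, fun h => absurd h ht⟩
  choose ρ hρ using h1
  rw [← Finset.card_filter_add_card_filter_not (s := S) (fun a => ρ (r a) = a)]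
  refine Nat.add_le_add ?_ ?_
  · refine Finset.card_le_card_of_injOn r ?_ ?_
    · intro a ha
      exact h a (Finset.mem_filter.1 ha).1
    · intro a ha b hb hab
      have h2 := (Finset.mem_filter.1 (Finset.mem_coe.1 ha)).2
      have h3 := (Finset.mem_filter.1 (Finset.mem_coe.1 hb)).2
      rw [← h2, ← h3, hab]
  · refine Finset.card_le_card_of_injOn (fun a => (a, ρ (r a))) ?_ ?_
    · intro a ha
      obtain ⟨ha1, ha2⟩ := Finset.mem_filter.1 ha
      have h2 := hρ (r a) (Finset.mem_image_of_mem r ha1)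
      rw [Finset.mem_coe, Finset.mem_filter, Finset.mem_product]
      exact ⟨⟨ha1, h2.1⟩, fun h => ha2 h.symm, h2.2.symm⟩
    · intro a _ b _ hab
      exact (Prod.ext_iff.1 hab).1

theorem sign_const {g : Polynomial ℝ} {a b : ℝ} (hab : a ≤ b)
    (h : ∀ r ∈ Set.Icc a b, g.eval r ≠ 0) : (0 < g.eval a ↔ 0 < g.eval b) := by
  have hc : ContinuousOn (fun x => g.eval x) (Set.Icc a b) := g.continuous.continuousOn
  have ha := h a ⟨le_refl a, hab⟩
  have hb := h b ⟨hab, le_refl b⟩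
  constructor
  · intro h1
    by_contra h2
    push Not at h2
    obtain ⟨r, hr, hr0⟩ := intermediate_value_Icc' hab hc (show (0 : ℝ) ∈ Set.Icc _ _ from ⟨h2, h1.le⟩)
    exact h r hr hr0
  · intro h1
    by_contra h2
    push Not at h2
    obtain ⟨r, hr, hr0⟩ := intermediate_value_Icc hab hc (show (0 : ℝ) ∈ Set.Icc _ _ from ⟨h2, h1.le⟩)
    exact h r hr hr0

theorem col_param {p q w : ℝ × ℝ} (hpq : p ≠ q) (h : col p q w) :
    ∃ t : ℝ, w = p + t • (q - p) := by
  unfold col at h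
  by_cases h1 : q.1 - p.1 = 0
  · have h2 : q.2 - p.2 ≠ 0 := by
      intro h2
      exact hpq (Prod.ext (by linarith) (by linarith))
    refine ⟨(w.2 - p.2) / (q.2 - p.2), ?_⟩
    have h3 : w.1 - p.1 = 0 := by
      rw [h1, zero_mul] at h
      exact (mul_eq_zero.1 h.symm).resolve_left h2
    refine Prod.ext ?_ ?_
    · simp only [Prod.fst_add, Prod.smul_fst, Prod.fst_sub, smul_eq_mul, h1, mul_zero, add_zero]
      linarith
    · simp only [Prod.snd_add, Prod.smul_snd, Prod.snd_sub, smul_eq_mul]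
      rw [div_mul_cancel₀ _ h2]; ring
  · refine ⟨(w.1 - p.1) / (q.1 - p.1), ?_⟩
    refine Prod.ext ?_ ?_
    · simp only [Prod.fst_add, Prod.smul_fst, Prod.fst_sub, smul_eq_mul]
      rw [div_mul_cancel₀ _ h1]; ring
    · simp only [Prod.snd_add, Prod.smul_snd, Prod.snd_sub, smul_eq_mul]
      rw [div_mul_eq_mul_div, show (w.1 - p.1) * (q.2 - p.2) = (q.1 - p.1) * (w.2 - p.2) by linarith,
        mul_div_cancel_left₀ _ h1]
      ring

theorem col_of_param (p q : ℝ × ℝ) (t : ℝ) : col p q (p + t • (q - p)) := by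
  unfold col
  simp only [Prod.fst_add, Prod.smul_fst, Prod.fst_sub, smul_eq_mul, Prod.snd_add,
    Prod.smul_snd, Prod.snd_sub]
  ring

theorem col_iff {p q a b : ℝ × ℝ} (hpq : p ≠ q) (hab : a ≠ b) (ha : col p q a) (hb : col p q b)
    (w : ℝ × ℝ) : col p q w ↔ col a b w := by
  obtain ⟨s, rfl⟩ := col_param hpq ha
  obtain ⟨t, rfl⟩ := col_param hpq hb
  have hst : t - s ≠ 0 := by
    intro h
    apply hab
    rw [show s = t by linarith]
  unfold col
  simp only [Prod.fst_add, Prod.smul_fst, Prod.fst_sub, smul_eq_mul, Prod.snd_add,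
    Prod.smul_snd, Prod.snd_sub]
  constructor
  · intro h
    linear_combination (t - s) * h
  · intro h
    apply mul_left_cancel₀ hst
    linear_combination h

theorem lineOf_eq {P : Finset (ℝ × ℝ)} {p q a b : ℝ × ℝ} (hpq : p ≠ q) (hab : a ≠ b)
    (ha : a ∈ lineOf P p q) (hb : b ∈ lineOf P p q) : lineOf P p q = lineOf P a b := by
  unfold lineOf at *
  ext w
  simp only [Finset.mem_filter] at *
  rw [col_iff hpq hab ha.2 hb.2]


open Classical in
theorem line_pairs (P : Finset (ℝ × ℝ)) (J : ℕ) (f : ℕ → ℝ × ℝ → ℝ) (D : ℕ → ℕ)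
    (hf : ∀ i < J, LinePoly (D i) (f i)) {p q : ℝ × ℝ} (hpq : p ≠ q)
    (hne : ∀ i < J, ∃ w, col p q w ∧ f i w ≠ 0) :
    #(lineOf P p q) ≤ 2 * (∑ i ∈ range J, D i) + 1 +
      #((lineOf P p q ×ˢ lineOf P p q).filter fun x => x.1 ≠ x.2 ∧
        (∀ i < J, f i x.1 ≠ 0 ∧ f i x.2 ≠ 0) ∧ ∀ i < J, (0 < f i x.1 ↔ 0 < f i x.2)) := by
  have hg : ∀ i, ∃ g : Polynomial ℝ, i < J → (g ≠ 0 ∧ g.natDegree ≤ D i ∧
      ∀ t : ℝ, f i (p + t • (q - p)) = g.eval t) := by
    intro i
    by_cases hi : i < J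
    · obtain ⟨g, hg, hgf⟩ := hf i hi p (q - p)
      refine ⟨g, fun _ => ⟨?_, hg, hgf⟩⟩
      rintro rfl
      obtain ⟨w, hw, hfw⟩ := hne i hi
      obtain ⟨t, rfl⟩ := col_param hpq hw
      rw [hgf] at hfw
      simp at hfw
    · exact ⟨0, fun h => absurd h hi⟩
  choose g hg using hg
  have hT : ∀ w : ℝ × ℝ, ∃ t : ℝ, col p q w → w = p + t • (q - p) := by
    intro w
    by_cases hw : col p q w
    · obtain ⟨t, ht⟩ := col_param hpq hw
      exact ⟨t, fun _ => ht⟩
    · exact ⟨0, fun h => absurd h hw⟩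
  choose T hT using hT
  set l := lineOf P p q with hl
  have hcol : ∀ w ∈ l, col p q w := fun w hw => (Finset.mem_filter.1 hw).2
  have hTinj : Set.InjOn T l := by
    intro a ha b hb hab
    rw [hT a (hcol a ha), hT b (hcol b hb), hab]
  let R : Finset ℝ := (range J).biUnion fun i => (g i).roots.toFinset
  have hR : #R ≤ ∑ i ∈ range J, D i := by
    refine Finset.card_biUnion_le.trans (Finset.sum_le_sum fun i hi => ?_)
    have hi' := Finset.mem_range.1 hi
    calc _ ≤ (g i).roots.card := Multiset.toFinset_card_le _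
      _ ≤ (g i).natDegree := Polynomial.card_roots' _
      _ ≤ D i := (hg i hi').2.1
  have hfT : ∀ w ∈ l, ∀ i < J, f i w = (g i).eval (T w) := by
    intro w hw i hi
    rw [← (hg i hi).2.2, ← hT w (hcol w hw)]
  have hmemR : ∀ t : ℝ, ∀ i < J, (g i).eval t = 0 → t ∈ R := by
    intro t i hi h
    refine Finset.mem_biUnion.2 ⟨i, Finset.mem_range.2 hi, ?_⟩
    rw [Multiset.mem_toFinset, Polynomial.mem_roots (hg i hi).1]
    exact h
  -- points on the zero set
  have hoff : #(l.filter fun w => ¬ ∀ i < J, f i w ≠ 0) ≤ #R := by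
    refine Finset.card_le_card_of_injOn T ?_ ?_
    · intro w hw
      obtain ⟨hw1, hw2⟩ := Finset.mem_filter.1 hw
      push Not at hw2
      obtain ⟨i, hi, h0⟩ := hw2
      rw [hfT w hw1 i hi] at h0
      exact hmemR _ i hi h0
    · intro a ha b hb hab
      exact hTinj (Finset.mem_filter.1 ha).1 (Finset.mem_filter.1 hb).1 hab
  set l' := l.filter fun w => ∀ i < J, f i w ≠ 0 with hl'
  have hsplit : #l' + #(l.filter fun w => ¬ ∀ i < J, f i w ≠ 0) = #l :=
    Finset.card_filter_add_card_filter_not (s := l) (fun w => ∀ i < J, f i w ≠ 0)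
  -- ranks
  let rk : ℝ × ℝ → ℕ := fun w => #(R.filter fun r => r < T w)
  have hrk : ∀ w ∈ l', rk w ∈ range (#R + 1) := by
    intro w _
    rw [Finset.mem_range]
    have : rk w ≤ #R := Finset.card_le_card (Finset.filter_subset _ _)
    omega
  have hpairs := pairs_ge l' (range (#R + 1)) rk hrk
  have hsign : ∀ a ∈ l', ∀ b ∈ l', T a ≤ T b → rk a = rk b →
      ∀ i < J, (0 < f i a ↔ 0 < f i b) := by
    intro a ha b hb hab hr i hi
    have ha1 := (Finset.mem_filter.1 ha).1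
    have hb1 := (Finset.mem_filter.1 hb).1
    have hb2 := (Finset.mem_filter.1 hb).2 i hi
    rw [hfT a ha1 i hi, hfT b hb1 i hi]
    rw [hfT b hb1 i hi] at hb2
    apply sign_const hab
    intro r hr1 hr0
    have hrR := hmemR r i hi hr0
    have hlt : r < T b := by
      rcases hr1.2.lt_or_eq with h | h
      · exact h
      · exfalso; rw [h] at hr0; exact hb2 hr0
    have hsub : (R.filter fun r => r < T a) ⊆ (R.filter fun r => r < T b) := by
      intro s hs
      rw [Finset.mem_filter] at hs ⊢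
      exact ⟨hs.1, lt_of_lt_of_le hs.2 hab⟩
    have heq := Finset.eq_of_subset_of_card_le hsub (le_of_eq hr.symm)
    have h3 : r ∈ (R.filter fun r => r < T b) := Finset.mem_filter.2 ⟨hrR, hlt⟩
    rw [← heq, Finset.mem_filter] at h3
    exact absurd hr1.1 (not_le.2 h3.2)
  have hsub : ((l' ×ˢ l').filter fun x => x.1 ≠ x.2 ∧ rk x.1 = rk x.2) ⊆
      ((l ×ˢ l).filter fun x => x.1 ≠ x.2 ∧
        (∀ i < J, f i x.1 ≠ 0 ∧ f i x.2 ≠ 0) ∧ ∀ i < J, (0 < f i x.1 ↔ 0 < f i x.2)) := by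
    intro x hx
    rw [Finset.mem_filter, Finset.mem_product] at hx ⊢
    obtain ⟨⟨h1, h2⟩, h3, h4⟩ := hx
    have h1' := Finset.mem_filter.1 h1
    have h2' := Finset.mem_filter.1 h2
    refine ⟨⟨h1'.1, h2'.1⟩, h3, fun i hi => ⟨h1'.2 i hi, h2'.2 i hi⟩, ?_⟩
    rcases le_total (T x.1) (T x.2) with h | h
    · exact hsign _ h1 _ h2 h h4
    · intro i hi
      exact (hsign _ h2 _ h1 h h4.symm i hi).symm
  have hcard := Finset.card_le_card hsub
  rw [Finset.card_range] at hpairs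
  omega

open Classical in
theorem card_out (P : Finset (ℝ × ℝ)) (J : ℕ) (f : ℕ → ℝ × ℝ → ℝ) (D : ℕ → ℕ)
    (hf : ∀ i < J, LinePoly (D i) (f i)) (M : ℕ)
    (hσ : ∀ σ : ℕ → Bool, M * #(P.filter fun w => ∀ i < J, sg (σ i) (f i w)) ≤ #P)
    (F : Finset (Finset (ℝ × ℝ))) (k : ℕ)
    (hF : ∀ l ∈ F, ∃ p q, p ≠ q ∧ l = lineOf P p q ∧ k ≤ #l ∧
      ∀ i < J, ∃ w, col p q w ∧ f i w ≠ 0) :
    M * (#F * (k - (2 * (∑ i ∈ range J, D i) + 1))) ≤ #P ^ 2 := by
  let Q : Finset (ℝ × ℝ) → Finset ((ℝ × ℝ) × (ℝ × ℝ)) := fun l =>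
    (l ×ˢ l).filter fun x => x.1 ≠ x.2 ∧
        (∀ i < J, f i x.1 ≠ 0 ∧ f i x.2 ≠ 0) ∧ ∀ i < J, (0 < f i x.1 ↔ 0 < f i x.2)
  have h1 : ∀ l ∈ F, k - (2 * (∑ i ∈ range J, D i) + 1) ≤ #(Q l) := by
    intro l hl
    obtain ⟨p, q, hpq, rfl, hk, hne⟩ := hF l hl
    have := line_pairs P J f D hf hpq hne
    simp only [Q]
    omega
  have h2 : #F * (k - (2 * (∑ i ∈ range J, D i) + 1)) ≤ #(F.biUnion Q) := by
    rw [Finset.card_biUnion]
    · calc _ = ∑ l ∈ F, (k - (2 * (∑ i ∈ range J, D i) + 1)) := by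
            rw [Finset.sum_const, smul_eq_mul]
        _ ≤ _ := Finset.sum_le_sum h1
    · intro l hl l' hl' hll
      rw [Function.onFun, Finset.disjoint_left]
      rintro ⟨a, b⟩ hx hx'
      simp only [Q, Finset.mem_filter, Finset.mem_product] at hx hx'
      obtain ⟨p, q, hpq, rfl, -, -⟩ := hF l hl
      obtain ⟨p', q', hpq', rfl, -, -⟩ := hF l' hl'
      apply hll
      rw [lineOf_eq hpq hx.2.1 hx.1.1 hx.1.2, lineOf_eq hpq' hx.2.1 hx'.1.1 hx'.1.2]
  have hsubP : ∀ l ∈ F, l ⊆ P := by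
    intro l hl
    obtain ⟨p, q, hpq, rfl, -, -⟩ := hF l hl
    exact Finset.filter_subset _ _
  have h3 : F.biUnion Q ⊆ P.biUnion fun a =>
      (P.filter fun w => ∀ i < J, sg (decide (0 < f i a)) (f i w)).image fun b => (a, b) := by
    intro x hx
    obtain ⟨l, hl, hx⟩ := Finset.mem_biUnion.1 hx
    simp only [Q, Finset.mem_filter, Finset.mem_product] at hx
    obtain ⟨⟨ha, hb⟩, -, h0, hs⟩ := hx
    rw [Finset.mem_biUnion]
    refine ⟨x.1, hsubP l hl ha, ?_⟩
    rw [Finset.mem_image]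
    refine ⟨x.2, ?_, rfl⟩
    rw [Finset.mem_filter]
    refine ⟨hsubP l hl hb, fun i hi => ?_⟩
    unfold sg
    by_cases h : 0 < f i x.1
    · simp only [h, decide_true, if_true]
      exact (hs i hi).1 h
    · simp only [h, decide_false]
      have h4 : ¬ 0 < f i x.2 := fun h5 => h ((hs i hi).2 h5)
      have h5 := (h0 i hi).2
      simp only [Bool.false_eq_true, if_false]
      exact lt_of_le_of_ne (not_lt.1 h4) h5
  calc M * (#F * (k - (2 * (∑ i ∈ range J, D i) + 1)))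
      ≤ M * #(F.biUnion Q) := Nat.mul_le_mul_left _ h2
    _ ≤ M * ∑ a ∈ P, #(P.filter fun w => ∀ i < J, sg (decide (0 < f i a)) (f i w)) := by
        refine Nat.mul_le_mul_left _ ((Finset.card_le_card h3).trans ?_)
        refine Finset.card_biUnion_le.trans (Finset.sum_le_sum fun a _ => Finset.card_image_le)
    _ = ∑ a ∈ P, M * #(P.filter fun w => ∀ i < J, sg (decide (0 < f i a)) (f i w)) :=
        Finset.mul_sum _ _ _
    _ ≤ ∑ a ∈ P, #P := Finset.sum_le_sum fun a _ => hσ fun i => decide (0 < f i a)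
    _ = #P ^ 2 := by rw [Finset.sum_const, smul_eq_mul, sq]

theorem sum_dg (I : ℕ) : ∑ i ∈ range (2 * I), dg i ≤ 6 * 2 ^ I := by
  induction I with
  | zero => simp
  | succ I ih =>
    rw [show 2 * (I + 1) = 2 * I + 1 + 1 by ring, Finset.sum_range_succ, Finset.sum_range_succ]
    have h1 : dg (2 * I) = 2 * 2 ^ I := by
      unfold dg
      rw [show 2 ^ (2 * I) = 2 ^ I * 2 ^ I by ring, Nat.sqrt_eq]
    have h2 : dg (2 * I + 1) ≤ 2 * (2 * 2 ^ I) := by
      unfold dg
      refine Nat.mul_le_mul_left _ ?_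
      rw [← Nat.sqrt_eq (2 * 2 ^ I)]
      apply Nat.sqrt_le_sqrt
      rw [show 2 ^ (2 * I + 1) = 2 * (2 ^ I * 2 ^ I) by ring]
      nlinarith [Nat.zero_le (2 ^ I * 2 ^ I)]
    rw [h1, pow_succ]
    omega

/-- **Szemeredi-Trotter for rich lines.** -/
theorem rich_lines_nat (P : Finset (ℝ × ℝ)) (k : ℕ) (hkP : k ^ 2 ≤ #P)
    (F : Finset (Finset (ℝ × ℝ)))
    (hF : ∀ l ∈ F, ∃ p ∈ P, ∃ q ∈ P, p ≠ q ∧ l = lineOf P p q ∧ k ≤ #l) :
    #F * k ^ 3 ≤ 20000 * #P ^ 2 := by
  classical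
  by_cases hk26 : k < 26
  · -- trivial bound: a line is determined by a pair
    have h1 : #F ≤ #P ^ 2 := by
      have h2 : ∀ l : Finset (ℝ × ℝ), ∃ x : (ℝ × ℝ) × (ℝ × ℝ), l ∈ F → x.1 ∈ P ∧ x.2 ∈ P ∧
          l = lineOf P x.1 x.2 := by
        intro l
        by_cases hl : l ∈ F
        · obtain ⟨p, hp, q, hq, -, h, -⟩ := hF l hl
          exact ⟨(p, q), fun _ => ⟨hp, hq, h⟩⟩
        · exact ⟨(0, 0), fun h => absurd h hl⟩
      choose x hx using h2
      rw [sq, ← Finset.card_product]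
      refine Finset.card_le_card_of_injOn x ?_ ?_
      · intro l hl
        have := hx l hl
        exact Finset.mem_coe.2 (Finset.mem_product.2 ⟨this.1, this.2.1⟩)
      · intro l hl l' hl' h
        rw [(hx l hl).2.2, (hx l' hl').2.2, h]
    have h3 : k ^ 3 ≤ 20000 := by
      calc k ^ 3 ≤ 26 ^ 3 := Nat.pow_le_pow_left hk26.le 3
        _ ≤ 20000 := by norm_num
    calc #F * k ^ 3 ≤ #P ^ 2 * 20000 := Nat.mul_le_mul h1 h3
      _ = _ := by ring
  · push Not at hk26
    -- choose I with 26 * 2^I ≤ k < 26 * 2^(I+1)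
    obtain ⟨I, hI1, hI2⟩ : ∃ I : ℕ, 26 * 2 ^ I ≤ k ∧ k < 26 * 2 ^ (I + 1) := by
      have hne : k / 26 ≠ 0 := by omega
      refine ⟨Nat.log 2 (k / 26), ?_, ?_⟩
      · have := Nat.pow_log_le_self 2 hne
        omega
      · have := Nat.lt_pow_succ_log_self (b := 2) (by norm_num) (k / 26)
        omega
    obtain ⟨f, hf, hσ⟩ := partition P (2 * I)
    set D := ∑ i ∈ range (2 * I), dg i with hD
    have hD6 : D ≤ 6 * 2 ^ I := sum_dg I
    -- lines inside the zero set of some `f i`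
    let Fin' : ℕ → Finset (Finset (ℝ × ℝ)) := fun i =>
      F.filter fun l => ∃ p q, l = lineOf P p q ∧ ∀ w, col p q w → f i w = 0
    have hin : ∀ i < 2 * I, #(Fin' i) ≤ dg i := by
      intro i hi
      obtain ⟨z, hz⟩ := (hf i hi).2
      refine card_in (hf i hi).1 hz P _ ?_
      intro l hl
      exact (Finset.mem_filter.1 hl).2
    set Fi := (range (2 * I)).biUnion Fin' with hFi
    have hFi_card : #Fi ≤ D :=
      Finset.card_biUnion_le.trans (Finset.sum_le_sum fun i hi => hin i (Finset.mem_range.1 hi))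
    have hout := card_out P (2 * I) f dg (fun i hi => (hf i hi).1) (2 ^ (2 * I)) hσ (F \ Fi) k (by
      intro l hl
      obtain ⟨hl1, hl2⟩ := Finset.mem_sdiff.1 hl
      obtain ⟨p, hp, q, hq, hpq, h, hk⟩ := hF l hl1
      refine ⟨p, q, hpq, h, hk, ?_⟩
      intro i hi
      by_contra hcon
      push Not at hcon
      apply hl2
      rw [hFi, Finset.mem_biUnion]
      refine ⟨i, Finset.mem_range.2 hi, Finset.mem_filter.2 ⟨hl1, p, q, h, hcon⟩⟩)
    rw [← hD] at hout
    have h1 : #F ≤ #(F \ Fi) + #Fi := by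
      have := Finset.card_le_card_sdiff_add_card (s := F) (t := Fi)
      omega
    set x := 2 ^ I with hx
    have hxpos : 1 ≤ x := Nat.one_le_two_pow
    have hk2 : k ≤ 2 * (k - (2 * D + 1)) := by omega
    have h52 : k ≤ 52 * x := by rw [pow_succ] at hI2; omega
    have h2 : #(F \ Fi) * k ^ 3 ≤ 5408 * #P ^ 2 := by
      calc #(F \ Fi) * k ^ 3 = k * k * (#(F \ Fi) * k) := by ring
        _ ≤ (52 * x) * (52 * x) * (#(F \ Fi) * (2 * (k - (2 * D + 1)))) := by gcongr
        _ = 5408 * (2 ^ (2 * I) * (#(F \ Fi) * (k - (2 * D + 1)))) := by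
            rw [show 2 ^ (2 * I) = x * x by rw [hx]; ring]; ring
        _ ≤ 5408 * #P ^ 2 := Nat.mul_le_mul_left _ hout
    have h3 : #Fi * k ^ 3 ≤ #P ^ 2 := by
      have : #Fi ≤ k := by omega
      calc #Fi * k ^ 3 ≤ k * k ^ 3 := Nat.mul_le_mul_right _ this
        _ = (k ^ 2) ^ 2 := by ring
        _ ≤ #P ^ 2 := Nat.pow_le_pow_left hkP 2
    calc #F * k ^ 3 ≤ (#(F \ Fi) + #Fi) * k ^ 3 := Nat.mul_le_mul_right _ h1
      _ = #(F \ Fi) * k ^ 3 + #Fi * k ^ 3 := by ring
      _ ≤ 5408 * #P ^ 2 + #P ^ 2 := Nat.add_le_add h2 h3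
      _ ≤ 20000 * #P ^ 2 := by omega

theorem rich_lines : ∃ C : ℝ, 0 < C ∧ ∀ (P : Finset (ℝ × ℝ)) (k : ℕ), 1 ≤ k → k ^ 2 ≤ #P →
    ∀ F : Finset (Finset (ℝ × ℝ)),
      (∀ l ∈ F, ∃ p ∈ P, ∃ q ∈ P, p ≠ q ∧ l = lineOf P p q ∧ k ≤ #l) →
      (#F : ℝ) * (k : ℝ) ^ 3 ≤ C * (#P : ℝ) ^ 2 := by
  refine ⟨20000, by norm_num, fun P k _ hkP F hF => ?_⟩
  have := rich_lines_nat P k hkP F hF
  exact_mod_cast this

end

end Pool.Agent.H96.ST
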